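import Pool.Agent.Work.MP_9eb367_co.Biject

open Finset

namespace Pool.Agent.Work.MP_9eb367_co

abbrev R231 : ℕ → ℕ → ℕ → Prop := fun x y z => z < x ∧ x < y

/-- Enumeration of a finite set in increasing order. -/
def enu (U : Finset ℕ) (k : ℕ) : ℕ := (U.sort (· ≤ ·)).getD k 0

/-- The subset of `U` with index set `A`. -/
def sel (U : Finset ℕ) {s : ℕ} (A : Finset (Fin s)) : Finset ℕ := A.image (fun k : Fin s => enu U k)

theorem enu_strictMono {U : Finset ℕ} {s : ℕ} (hU : U.card = s) :
    StrictMono (fun k : Fin s => enu U k) := by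
  intro a b hab
  have hlen : (U.sort (· ≤ ·)).length = s := by simp [hU]
  have hs : (U.sort (· ≤ ·)).Pairwise (· < ·) := by
    have h1 := U.pairwise_sort (· ≤ ·)
    have h2 := U.sort_nodup (· ≤ ·)
    rw [List.pairwise_iff_getElem] at h1 ⊢
    intro i j hi hj hij
    have h3 := h1 i j hi hj hij
    have h4 : (U.sort (· ≤ ·))[i] ≠ (U.sort (· ≤ ·))[j] := by
      intro e
      have := (List.Nodup.getElem_inj_iff h2).1 e
      omega
    omega
  simp only [enu]
  rw [List.getD_eq_getElem _ _ (by rw [hlen]; exact a.2),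
    List.getD_eq_getElem _ _ (by rw [hlen]; exact b.2)]
  rw [List.pairwise_iff_getElem] at hs
  exact hs _ _ _ _ hab

theorem enu_mem {U : Finset ℕ} {s : ℕ} (hU : U.card = s) (k : Fin s) : enu U k ∈ U := by
  have hlen : (U.sort (· ≤ ·)).length = s := by simp [hU]
  unfold enu
  rw [List.getD_eq_getElem _ _ (by rw [hlen]; exact k.2)]
  have := List.getElem_mem (l := U.sort (· ≤ ·)) (n := (k : ℕ)) (by rw [hlen]; exact k.2)
  rwa [Finset.mem_sort] at this

theorem image_enu {U : Finset ℕ} {s : ℕ} (hU : U.card = s) :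
    (univ : Finset (Fin s)).image (fun k : Fin s => enu U k) = U := by
  apply Finset.eq_of_subset_of_card_le
  · intro x hx
    rw [mem_image] at hx
    obtain ⟨k, _, rfl⟩ := hx
    exact enu_mem hU k
  · rw [Finset.card_image_of_injective _ (enu_strictMono hU).injective, hU]
    simp

theorem sel_subset {U : Finset ℕ} {s : ℕ} (hU : U.card = s) (A : Finset (Fin s)) :
    sel U A ⊆ U := by
  intro x hx
  unfold sel at hx
  rw [mem_image] at hx
  obtain ⟨k, _, rfl⟩ := hx
  exact enu_mem hU k

namespace MT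

/-- All mark letters in increasing order. -/
def Gl (D : MT) (s : ℕ) : List ℕ := gm D 0 ++ List.range' (wt D) (s - lb D)

theorem Gl_length {D : MT} {s : ℕ} (h : lb D ≤ s) : (Gl D s).length = s := by
  simp [Gl, gm_length]; omega

theorem Gl_sorted (D : MT) (s : ℕ) : (Gl D s).Pairwise (· < ·) := by
  unfold Gl
  rw [List.pairwise_append]
  refine ⟨gm_sorted D 0, List.pairwise_lt_range' .., ?_⟩
  intro x hx y hy
  have := gm_bound hx
  rw [List.mem_range'_1] at hy
  omega

theorem Gl_nodup (D : MT) (s : ℕ) : (Gl D s).Nodup :=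
  (Gl_sorted D s).imp (fun h => ne_of_lt h)

theorem sort_Gl (D : MT) (s : ℕ) : ((Gl D s).toFinset).sort (· ≤ ·) = Gl D s :=
  (List.toFinset_sort (· ≤ ·) (Gl_nodup D s)).2 ((Gl_sorted D s).imp (fun h => le_of_lt h))

def Us (D : MT) (s : ℕ) : Finset ℕ := (Gl D s).toFinset

theorem Us_card {D : MT} {s : ℕ} (h : lb D ≤ s) : (Us D s).card = s := by
  unfold Us
  rw [List.toFinset_card_of_nodup (Gl_nodup D s), Gl_length h]

theorem enu_Us (D : MT) (s : ℕ) (k : ℕ) : enu (Us D s) k = (Gl D s).getD k 0 := by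
  unfold enu Us
  rw [sort_Gl]

/-- Marks in position order. -/
def Ml (D : MT) (s : ℕ) (ρ : Equiv.Perm (Fin s)) : List ℕ :=
  List.ofFn (fun p : Fin s => enu (Us D s) (ρ p))

theorem Ml_length (D : MT) (s : ℕ) (ρ : Equiv.Perm (Fin s)) : (Ml D s ρ).length = s := by
  simp [Ml]

theorem mem_Ml {D : MT} {s : ℕ} (h : lb D ≤ s) {ρ : Equiv.Perm (Fin s)} {x : ℕ} :
    x ∈ Ml D s ρ ↔ x ∈ Us D s := by
  unfold Ml
  rw [List.mem_ofFn]
  constructor
  · rintro ⟨p, rfl⟩; exact enu_mem (Us_card h) _
  · intro hx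
    rw [← image_enu (Us_card h), mem_image] at hx
    obtain ⟨k, _, rfl⟩ := hx
    exact ⟨ρ.symm k, by simp⟩

theorem Ml_nodup {D : MT} {s : ℕ} (h : lb D ≤ s) (ρ : Equiv.Perm (Fin s)) : (Ml D s ρ).Nodup := by
  unfold Ml
  rw [List.nodup_ofFn]
  exact (enu_strictMono (Us_card h)).injective.comp ρ.injective

theorem Ml_perm {D : MT} {s : ℕ} (h : lb D ≤ s) (ρ : Equiv.Perm (Fin s)) :
    (Ml D s ρ).Perm (Gl D s) := by
  rw [List.perm_ext_iff_of_nodup (Ml_nodup h ρ) (Gl_nodup D s)]
  intro x
  rw [mem_Ml h]; unfold Us; rw [List.mem_toFinset]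

/-- The word. -/
def Wd (D : MT) (s : ℕ) (ρ : Equiv.Perm (Fin s)) : List ℕ := pw D 0 (Ml D s ρ)

theorem Wd_mem {D : MT} {s : ℕ} (ha : la D = s) (hb : lb D ≤ s) (ρ : Equiv.Perm (Fin s)) :
    Wd D s ρ ∈ pm (sz D + s) := by
  rw [mem_pm]
  unfold Wd
  have h1 := pw_perm D 0 0 0 (Ml D s ρ) (by rw [Ml_length, ha])
  have h2 := Ml_perm hb ρ
  have h3 := nd_gm_perm D 0 0 0
  refine h1.trans ((h2.append_left _).trans ?_)
  unfold Gl
  rw [← List.append_assoc]
  refine (h3.append_right _).trans ?_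
  have e2 := List.range'_append (s := 0) (m := wt D) (n := s - lb D) (step := 1)
  simp only [one_mul, zero_add] at e2
  rw [e2, List.range_eq_range']
  have : wt D + (s - lb D) = sz D + s := by unfold wt; omega
  rw [this]

theorem Wd_nodup {D : MT} {s : ℕ} (ha : la D = s) (hb : lb D ≤ s) (ρ : Equiv.Perm (Fin s)) :
    (Wd D s ρ).Nodup := by
  have := Wd_mem ha hb ρ
  rw [mem_pm] at this
  exact this.nodup_iff.2 List.nodup_range

theorem nd_notMem_Us {D : MT} {s : ℕ} {i j : ℕ} {x : ℕ × Cell} (hx : x ∈ nd D 0 i j) :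
    x.1 ∉ Us D s := by
  unfold Us Gl
  rw [List.mem_toFinset, List.mem_append, not_or]
  constructor
  · have h3 := nd_gm_perm D 0 i j
    have hnd : ((nd D 0 i j).map Prod.fst ++ gm D 0).Nodup :=
      h3.nodup_iff.2 (List.nodup_range')
    intro hc
    rw [List.nodup_append] at hnd
    exact hnd.2.2 _ (List.mem_map_of_mem hx) _ hc rfl
  · have := nd_bound hx
    rw [List.mem_range'_1]; omega

theorem Wd_rep {D : MT} {s : ℕ} (ha : la D = s) (hb : lb D ≤ s) (ρ : Equiv.Perm (Fin s)) :
    (Wd D s ρ).filter (· ∈ Us D s) = Ml D s ρ ∧ Rep (Us D s) D 0 (Wd D s ρ) := by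
  have h1 : (Wd D s ρ).filter (· ∈ Us D s) = Ml D s ρ := by
    unfold Wd
    refine filter_pw _ D 0 _ (by rw [Ml_length, ha]) (fun x hx => (mem_Ml hb).1 hx)
      (fun x hx => nd_notMem_Us hx)
  refine ⟨h1, ?_, ?_, ?_, ?_⟩
  · rw [h1]; rfl
  · rw [h1, Ml_length, ha]
  · intro x hx
    unfold Us Gl
    rw [List.mem_toFinset, List.mem_append]
    exact Or.inl hx
  · exact fun x hx => nd_notMem_Us hx

theorem avW_Wd {D : MT} {s : ℕ} (ha : la D = s) (hb : lb D ≤ s) (ρ : Equiv.Perm (Fin s))
    (C : Finset (Fin s)) :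
    AvW R231 (Wd D s ρ) (sel (Us D s) C) ↔ ¬ Bad (tp D) ρ C := by
  have hU := Us_card hb
  have hnd := Wd_nodup ha hb ρ
  have hperm := pw_perm D 0 0 0 (Ml D s ρ) (by rw [Ml_length, ha])
  refine bad_iff (Wd D s ρ) hnd (fun k => enu (Us D s) k) ρ (nd D 0 0 0) (tp D)
    ?_ (enu_strictMono hU) ?_ ?_ ?_ ?_ (nd_avoid D 0 0 0) ?_ ?_ C
  · intro x
    unfold Wd
    rw [hperm.mem_iff, List.mem_append, List.mem_map, or_comm]
    apply or_congr
    · unfold Ml
      rw [List.mem_ofFn]
      constructor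
      · rintro ⟨p, rfl⟩; exact ⟨p, rfl⟩
      · rintro ⟨p, rfl⟩; exact ⟨p, rfl⟩
    · constructor
      · rintro ⟨⟨v, c⟩, h, rfl⟩; exact ⟨c, h⟩
      · rintro ⟨c, h⟩; exact ⟨(x, c), h, rfl⟩
  · intro p p' hpp
    have h1 : (Ml D s ρ).Sublist (Wd D s ρ) := marks_sublist D 0 _ (by rw [Ml_length, ha])
    have h2 : [enu (Us D s) (ρ p), enu (Us D s) (ρ p')].Sublist (Ml D s ρ) := by
      rw [pair_sublist (Ml_nodup hb ρ)]
      have hget : ∀ q : Fin s, (Ml D s ρ)[(q : ℕ)]'(by rw [Ml_length]; exact q.2) =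
          enu (Us D s) (ρ q) := by
        intro q; simp [Ml]
      refine ⟨?_, ?_, ?_⟩
      · rw [← hget]; exact List.getElem_mem _
      · rw [← hget]; exact List.getElem_mem _
      · rw [← hget, ← hget, List.Nodup.idxOf_getElem (Ml_nodup hb ρ),
          List.Nodup.idxOf_getElem (Ml_nodup hb ρ)]
        exact hpp
    exact ((pair_sublist hnd _ _).1 (h2.trans h1)).2.2
  · intro v c hvc p
    obtain ⟨k, w1, w2, e1, e2, e3, e4, e5⟩ := nd_split_pw hvc (Ml D s ρ) (by rw [Ml_length, ha])
    rw [zero_add] at e1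
    have hWe : Wd D s ρ = w1 ++ v :: w2 := e3
    have hnd2 := hnd
    rw [hWe] at hnd2
    have hnd3 := List.nodup_append.1 hnd2
    have hnd4 := List.nodup_cons.1 hnd3.2.1
    have hv1 : v ∉ w1 := fun h => hnd3.2.2 v h v (by simp) rfl
    have hget : (Ml D s ρ)[(p : ℕ)]'(by rw [Ml_length]; exact p.2) = enu (Us D s) (ρ p) := by
      simp [Ml]
    have hiv : (Wd D s ρ).idxOf v = w1.length := by
      rw [hWe, List.idxOf_append_of_notMem hv1, List.idxOf_cons_self]; rfl
    by_cases hp : (p : ℕ) < k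
    · have hmem : enu (Us D s) (ρ p) ∈ w1 := by
        apply e4.subset
        rw [← hget, List.mem_take_iff_getElem]
        exact ⟨p, by rw [Ml_length]; omega, rfl⟩
      have hix : (Wd D s ρ).idxOf (enu (Us D s) (ρ p)) < w1.length := by
        rw [hWe, List.idxOf_append_of_mem hmem]
        exact List.idxOf_lt_length_of_mem hmem
      rw [hiv, e1]
      omega
    · have hmem : enu (Us D s) (ρ p) ∈ w2 := by
        apply e5.subset
        rw [← hget, List.mem_drop_iff_getElem]
        exact ⟨p - k, by rw [Ml_length]; have := p.2; omega, by congr 1; omega⟩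
      have hne : v ≠ enu (Us D s) (ρ p) := fun e => hnd4.1 (e ▸ hmem)
      have hm1 : enu (Us D s) (ρ p) ∉ w1 := fun h => hnd3.2.2 _ h _ (by simp [hmem]) rfl
      have hix : w1.length < (Wd D s ρ).idxOf (enu (Us D s) (ρ p)) := by
        rw [hWe, List.idxOf_append_of_notMem hm1, List.idxOf_cons_ne _ hne]
        omega
      rw [hiv, e1]
      omega
  · intro v c hvc k
    obtain ⟨G1, G2, e1, e2, e3, e4⟩ := nd_split_gm hvc
    rw [zero_add] at e2
    have hb' := nd_bound hvc
    simp only [zero_add] at hb'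
    change (enu (Us D s) k < v ↔ (k : ℕ) < c.2) ∧ (v < enu (Us D s) k ↔ c.2 ≤ (k : ℕ))
    rw [enu_Us]
    have hGl : Gl D s = G1 ++ (G2 ++ List.range' (wt D) (s - lb D)) := by
      unfold Gl; rw [e1, List.append_assoc]
    have hlen := Gl_length hb
    have hkl : (k : ℕ) < (Gl D s).length := by rw [hlen]; exact k.2
    rw [List.getD_eq_getElem _ _ hkl]
    rw [e2]
    by_cases hk : (k : ℕ) < G1.length
    · have : (Gl D s)[(k : ℕ)] ∈ G1 := by
        simp only [hGl]
        rw [List.getElem_append_left hk]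
        exact List.getElem_mem _
      have := e3 _ this
      omega
    · have : (Gl D s)[(k : ℕ)] ∈ G2 ++ List.range' (wt D) (s - lb D) := by
        simp only [hGl]
        rw [List.getElem_append_right (by omega)]
        exact List.getElem_mem _
      have hv2 : v < (Gl D s)[(k : ℕ)] := by
        rw [List.mem_append, List.mem_range'_1] at this
        rcases this with h | h
        · exact e4 _ h
        · omega
      omega
  · have h1 := nodes_sublist D 0 0 0 (Ml D s ρ) (by rw [Ml_length, ha])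
    rw [List.pairwise_iff_forall_sublist]
    intro a b hab
    have h2 := (hab.map Prod.fst).trans h1
    simp only [List.map_cons, List.map_nil] at h2
    exact ((pair_sublist hnd _ _).1 h2).2.2
  · intro c
    have := mem_tp_one (D := D) (c := c) 0 0 0
    rw [sft_zero] at this
    exact this
  · intro c c' β
    have := mem_tp_two (D := D) (c := c) (c' := c') (β := β) 0 0 0
    rw [sft_zero, sft_zero] at this
    exact this

/-- Surjectivity. -/
theorem exists_tree {n s : ℕ} {W : List ℕ} {U : Finset ℕ} (hW : W ∈ pm n)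
    (hU : U ∈ powersetCard s (range n)) (hav : AvW R231 W U) :
    ∃ D : MT, ∃ ρ : Equiv.Perm (Fin s), la D = s ∧ lb D ≤ s ∧ sz D + s = n ∧
      Us D s = U ∧ Wd D s ρ = W := by
  rw [mem_pm] at hW
  rw [mem_powersetCard] at hU
  obtain ⟨hUn, hUs⟩ := hU
  have hnd : W.Nodup := hW.nodup_iff.2 List.nodup_range
  have hmemW : ∀ x, x ∈ W ↔ x < n := by intro x; rw [hW.mem_iff, List.mem_range]
  -- upper bound of unmarked letters
  obtain ⟨hi, h1, h2, h3⟩ : ∃ hi, (∀ x, x ∉ U → (x ∈ W ↔ 0 ≤ x ∧ x < hi)) ∧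
      (hi = 0 ∨ hi - 1 ∉ U) ∧ hi ≤ n := by
    rcases (range n \ U).eq_empty_or_nonempty with he | hne
    · refine ⟨0, ?_, Or.inl rfl, by omega⟩
      intro x hx
      rw [hmemW]
      constructor
      · intro hxn
        exfalso
        have : x ∈ range n \ U := by rw [mem_sdiff, mem_range]; exact ⟨hxn, hx⟩
        rw [he] at this; simp at this
      · rintro ⟨_, h⟩; omega
    · have hm := (range n \ U).max'_mem hne
      refine ⟨(range n \ U).max' hne + 1, ?_, Or.inr ?_, ?_⟩
      · intro x hx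
        rw [hmemW]
        constructor
        · intro hxn
          have : x ∈ range n \ U := by rw [mem_sdiff, mem_range]; exact ⟨hxn, hx⟩
          have := (range n \ U).le_max' x this
          omega
        · rintro ⟨_, h⟩
          rw [mem_sdiff, mem_range] at hm
          omega
      · rw [mem_sdiff] at hm
        simpa using hm.2
      · rw [mem_sdiff, mem_range] at hm
        omega
  obtain ⟨D, hD, hwt⟩ := exists_rep U W.length W 0 hi (le_refl _) hnd h1 (by omega) h2 hav
  rw [zero_add] at hwt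
  have hMs : (W.filter (· ∈ U)).length = s := by
    rw [← hUs, ← List.toFinset_card_of_nodup (hnd.filter _)]
    congr 1
    ext x
    rw [List.mem_toFinset, List.mem_filter, hmemW]
    constructor
    · rintro ⟨_, h⟩; simpa using h
    · intro h
      have := hUn h
      rw [mem_range] at this
      exact ⟨this, by simpa using h⟩
  have hla : la D = s := by rw [hD.2.1, hMs]
  have hgmU : (gm D 0).toFinset ⊆ U := by
    intro x hx
    rw [List.mem_toFinset] at hx
    exact hD.2.2.1 x hx
  have hlb : lb D ≤ s := by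
    have h5 := Finset.card_le_card hgmU
    rw [List.toFinset_card_of_nodup ((gm_sorted D 0).imp (fun h => ne_of_lt h)), gm_length,
      hUs] at h5
    exact h5
  have hsz : sz D + s = n := by
    have h6 := pw_perm D 0 0 0 (W.filter (· ∈ U)) hD.2.1.symm
    rw [hD.1] at h6
    have h7 := h6.length_eq
    rw [List.length_append, List.length_map, nd_length, hMs] at h7
    have h8 := hW.length_eq
    rw [List.length_range] at h8
    omega
  have hUsU : Us D s = U := by
    apply Finset.eq_of_subset_of_card_le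
    · intro x hx
      unfold Us Gl at hx
      rw [List.mem_toFinset, List.mem_append, List.mem_range'_1] at hx
      rcases hx with hx | hx
      · exact hD.2.2.1 x hx
      · by_contra hc
        have hxn : x < n := by
          have : wt D + (s - lb D) = sz D + s := by unfold wt; omega
          omega
        have := (h1 x hc).1 ((hmemW x).2 hxn)
        omega
    · rw [Us_card hlb, hUs]
  -- the permutation
  have hMmem : ∀ p : Fin s, ∃ k : Fin s,
      enu (Us D s) k = (W.filter (· ∈ U))[(p : ℕ)]'(by rw [hMs]; exact p.2) := by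
    intro p
    have hm := List.getElem_mem (l := W.filter (· ∈ U)) (n := (p : ℕ)) (by rw [hMs]; exact p.2)
    have hm2 : (W.filter (· ∈ U))[(p : ℕ)]'(by rw [hMs]; exact p.2) ∈ Us D s := by
      rw [hUsU]
      rw [List.mem_filter] at hm
      simpa using hm.2
    rw [← image_enu (Us_card hlb), mem_image] at hm2
    obtain ⟨k, _, hk⟩ := hm2
    exact ⟨k, hk⟩
  choose r hr using hMmem
  have hrinj : Function.Injective r := by
    intro p p' hpp
    have e1 := hr p
    have e2 := hr p'
    rw [hpp, e2] at e1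
    have := (List.Nodup.getElem_inj_iff (hnd.filter _)).1 e1
    exact Fin.ext this.symm
  let ρ : Equiv.Perm (Fin s) := Equiv.ofBijective r (Finite.injective_iff_bijective.1 hrinj)
  have hMl : Ml D s ρ = W.filter (· ∈ U) := by
    apply List.ext_getElem
    · rw [Ml_length, hMs]
    · intro i hi1 hi2
      have his : i < s := by rw [Ml_length] at hi1; exact hi1
      have := hr ⟨i, his⟩
      simp only at this
      rw [← this]
      simp [Ml, ρ]
  refine ⟨D, ρ, hla, hlb, hsz, hUsU, ?_⟩
  unfold Wd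
  rw [hMl]
  exact hD.1

/-- Injectivity. -/
theorem Wd_inj {s : ℕ} {D D' : MT} {ρ ρ' : Equiv.Perm (Fin s)} (ha : la D = s) (hb : lb D ≤ s)
    (ha' : la D' = s) (hb' : lb D' ≤ s) (hU : Us D s = Us D' s) (hW : Wd D s ρ = Wd D' s ρ') :
    D = D' ∧ ρ = ρ' := by
  obtain ⟨f1, r1⟩ := Wd_rep ha hb ρ
  obtain ⟨f2, r2⟩ := Wd_rep ha' hb' ρ'
  rw [← hW, ← hU] at r2 f2
  have hDD := Rep.unique (Wd_nodup ha hb ρ) r1 r2
  subst hDD
  refine ⟨rfl, ?_⟩
  rw [f1] at f2
  unfold Ml at f2
  have h3 := List.ofFn_injective f2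
  ext p
  have := congrFun h3 p
  have := (enu_strictMono (Us_card hb)).injective this
  rw [this]

end MT

end Pool.Agent.Work.MP_9eb367_co
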