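import Pool.Agent.Work.MP_9eb367_co.Decode

open Finset

namespace Pool.Agent.Work.MP_9eb367_co

theorem pair_sublist {α : Type*} [DecidableEq α] {w : List α} (hnd : w.Nodup) (x y : α) :
    [x, y].Sublist w ↔ x ∈ w ∧ y ∈ w ∧ w.idxOf x < w.idxOf y := by
  induction w with
  | nil => simp
  | cons a w ih =>
    have hnd' := List.nodup_cons.1 hnd
    rw [List.sublist_cons_iff, ih hnd'.2]
    constructor
    · rintro (⟨h1, h2, h3⟩ | ⟨r, hr, h⟩)
      · have hx : a ≠ x := fun e => hnd'.1 (e ▸ h1)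
        have hy : a ≠ y := fun e => hnd'.1 (e ▸ h2)
        rw [List.idxOf_cons_ne _ hx, List.idxOf_cons_ne _ hy]
        exact ⟨List.mem_cons_of_mem _ h1, List.mem_cons_of_mem _ h2, by omega⟩
      · simp only [List.cons.injEq] at hr
        obtain ⟨rfl, rfl⟩ := hr
        rw [List.singleton_sublist] at h
        have hy : x ≠ y := fun e => hnd'.1 (e ▸ h)
        rw [List.idxOf_cons_self, List.idxOf_cons_ne _ hy]
        exact ⟨by simp, List.mem_cons_of_mem _ h, by omega⟩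
    · rintro ⟨h1, h2, h3⟩
      by_cases hx : a = x
      · subst hx
        right
        refine ⟨[y], rfl, ?_⟩
        rw [List.singleton_sublist]
        rcases List.mem_cons.1 h2 with rfl | h2
        · simp at h3
        · exact h2
      · left
        have h1' : x ∈ w := by
          rcases List.mem_cons.1 h1 with h | h
          · exact absurd h.symm hx
          · exact h
        by_cases hy : a = y
        · subst hy
          rw [List.idxOf_cons_self] at h3; omega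
        · have h2' : y ∈ w := by
            rcases List.mem_cons.1 h2 with h | h
            · exact absurd h.symm hy
            · exact h
          rw [List.idxOf_cons_ne _ hx, List.idxOf_cons_ne _ hy] at h3
          exact ⟨h1', h2', by omega⟩

theorem triple_sublist {α : Type*} [DecidableEq α] {w : List α} (hnd : w.Nodup) (x y z : α) :
    [x, y, z].Sublist w ↔ x ∈ w ∧ y ∈ w ∧ z ∈ w ∧ w.idxOf x < w.idxOf y ∧
      w.idxOf y < w.idxOf z := by
  induction w with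
  | nil => simp
  | cons a w ih =>
    have hnd' := List.nodup_cons.1 hnd
    rw [List.sublist_cons_iff, ih hnd'.2]
    constructor
    · rintro (⟨h1, h2, h3, h4, h5⟩ | ⟨r, hr, h⟩)
      · have hx : a ≠ x := fun e => hnd'.1 (e ▸ h1)
        have hy : a ≠ y := fun e => hnd'.1 (e ▸ h2)
        have hz : a ≠ z := fun e => hnd'.1 (e ▸ h3)
        rw [List.idxOf_cons_ne _ hx, List.idxOf_cons_ne _ hy, List.idxOf_cons_ne _ hz]
        exact ⟨List.mem_cons_of_mem _ h1, List.mem_cons_of_mem _ h2, List.mem_cons_of_mem _ h3,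
          by omega, by omega⟩
      · simp only [List.cons.injEq] at hr
        obtain ⟨rfl, rfl⟩ := hr
        rw [pair_sublist hnd'.2] at h
        obtain ⟨h1, h2, h3⟩ := h
        have hy : x ≠ y := fun e => hnd'.1 (e ▸ h1)
        have hz : x ≠ z := fun e => hnd'.1 (e ▸ h2)
        rw [List.idxOf_cons_self, List.idxOf_cons_ne _ hy, List.idxOf_cons_ne _ hz]
        exact ⟨by simp, List.mem_cons_of_mem _ h1, List.mem_cons_of_mem _ h2, by omega, by omega⟩
    · rintro ⟨h1, h2, h3, h4, h5⟩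
      have hy : a ≠ y := by
        rintro rfl
        rw [List.idxOf_cons_self] at h4; omega
      have hz : a ≠ z := by
        rintro rfl
        rw [List.idxOf_cons_self] at h5; omega
      have h2' : y ∈ w := by
        rcases List.mem_cons.1 h2 with h | h
        · exact absurd h.symm hy
        · exact h
      have h3' : z ∈ w := by
        rcases List.mem_cons.1 h3 with h | h
        · exact absurd h.symm hz
        · exact h
      by_cases hx : a = x
      · subst hx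
        right
        refine ⟨[y, z], rfl, ?_⟩
        rw [pair_sublist hnd'.2]
        rw [List.idxOf_cons_ne _ hy, List.idxOf_cons_ne _ hz] at h5
        exact ⟨h2', h3', by omega⟩
      · left
        have h1' : x ∈ w := by
          rcases List.mem_cons.1 h1 with h | h
          · exact absurd h.symm hx
          · exact h
        rw [List.idxOf_cons_ne _ hy, List.idxOf_cons_ne _ hz] at h5
        rw [List.idxOf_cons_ne _ hx, List.idxOf_cons_ne _ hy] at h4
        exact ⟨h1', h2', h3', by omega, by omega⟩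

theorem pair_or {α : Type*} {l : List α} {a b : α} (ha : a ∈ l) (hb : b ∈ l) (hne : a ≠ b) :
    [a, b].Sublist l ∨ [b, a].Sublist l := by
  induction l with
  | nil => simp at ha
  | cons c l ih =>
    rcases List.mem_cons.1 ha with ha' | ha'
    · left
      subst ha'
      rw [List.cons_sublist_cons, List.singleton_sublist]
      rcases List.mem_cons.1 hb with h | h
      · exact absurd h.symm hne
      · exact h
    · rcases List.mem_cons.1 hb with hb' | hb'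
      · right
        subst hb'
        rw [List.cons_sublist_cons, List.singleton_sublist]
        exact ha'
      · rcases ih ha' hb' with h | h
        · exact Or.inl (h.trans (List.sublist_cons_self _ _))
        · exact Or.inr (h.trans (List.sublist_cons_self _ _))

theorem triplewise_sublist {α : Type*} {p : α → α → α → Prop} {l : List α} (h : l.Triplewise p)
    {x y z : α} (hs : [x, y, z].Sublist l) : p x y z := by
  induction l with
  | nil => simp at hs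
  | cons a l ih =>
    rw [List.triplewise_cons] at h
    rw [List.sublist_cons_iff] at hs
    rcases hs with hs | ⟨r, hr, hs⟩
    · exact ih h.2 hs
    · simp only [List.cons.injEq] at hr
      obtain ⟨rfl, rfl⟩ := hr
      exact (List.pairwise_iff_forall_sublist.1 h.1) hs

namespace MT

/-- A 231 using three marks outside `C`. -/
def Bad0 {s : ℕ} (ρ : Equiv.Perm (Fin s)) (C : Finset (Fin s)) : Prop :=
  ∃ p1 p2 p3 : Fin s, p1 < p2 ∧ p2 < p3 ∧ ρ p1 ∉ C ∧ ρ p2 ∉ C ∧ ρ p3 ∉ C ∧ ρ p3 < ρ p1 ∧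
    ρ p1 < ρ p2

/-- A 231 using two marks. -/
def Bad1 {s : ℕ} (q : Finset Cell) (ρ : Equiv.Perm (Fin s)) (C : Finset (Fin s)) : Prop :=
  ∃ c ∈ q, ∃ p1 p2 : Fin s, ρ p1 ∉ C ∧ ρ p2 ∉ C ∧ p1 < p2 ∧
    ((c.1 ≤ (p1 : ℕ) ∧ (ρ p2 : ℕ) < c.2 ∧ c.2 ≤ (ρ p1 : ℕ)) ∨
     ((p1 : ℕ) < c.1 ∧ c.1 ≤ (p2 : ℕ) ∧ (ρ p2 : ℕ) < (ρ p1 : ℕ) ∧ (ρ p1 : ℕ) < c.2) ∨
     ((p2 : ℕ) < c.1 ∧ c.2 ≤ (ρ p1 : ℕ) ∧ (ρ p1 : ℕ) < (ρ p2 : ℕ)))

/-- A 231 using one mark. -/
def Bad2 {s : ℕ} (q : Finset (Cell × Cell × Bool)) (ρ : Equiv.Perm (Fin s))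
    (C : Finset (Fin s)) : Prop :=
  ∃ x ∈ q, ∃ p : Fin s, ρ p ∉ C ∧
    ((x.2.2 = true ∧ x.2.1.1 ≤ (p : ℕ) ∧ (ρ p : ℕ) < x.1.2) ∨
     (x.2.2 = false ∧ x.1.1 ≤ (p : ℕ) ∧ (p : ℕ) < x.2.1.1 ∧ x.1.2 ≤ (ρ p : ℕ)) ∨
     (x.2.2 = false ∧ (p : ℕ) < x.1.1 ∧ x.2.1.2 ≤ (ρ p : ℕ) ∧ (ρ p : ℕ) < x.1.2))

def Bad {s : ℕ} (q : Ty) (ρ : Equiv.Perm (Fin s)) (C : Finset (Fin s)) : Prop :=
  Bad0 ρ C ∨ Bad1 q.1 ρ C ∨ Bad2 q.2 ρ C

theorem bad_iff {s : ℕ} (W : List ℕ) (hW : W.Nodup) (g : Fin s → ℕ) (ρ : Equiv.Perm (Fin s))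
    (N : List (ℕ × Cell)) (q : Ty)
    (h1 : ∀ x, x ∈ W ↔ (∃ p, x = g (ρ p)) ∨ (∃ c, (x, c) ∈ N))
    (h2 : StrictMono g)
    (h3 : ∀ p p', p < p' → W.idxOf (g (ρ p)) < W.idxOf (g (ρ p')))
    (h4 : ∀ v c, (v, c) ∈ N → ∀ p : Fin s, (W.idxOf (g (ρ p)) < W.idxOf v ↔ (p : ℕ) < c.1) ∧
      (W.idxOf v < W.idxOf (g (ρ p)) ↔ c.1 ≤ (p : ℕ)))
    (h5 : ∀ v c, (v, c) ∈ N → ∀ k : Fin s, (g k < v ↔ (k : ℕ) < c.2) ∧ (v < g k ↔ c.2 ≤ (k : ℕ)))
    (h6 : N.Pairwise (fun a b => W.idxOf a.1 < W.idxOf b.1))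
    (h7 : (N.map Prod.fst).Triplewise (fun x y z => ¬ (z < x ∧ x < y)))
    (hq1 : ∀ c, c ∈ q.1 ↔ ∃ v, (v, c) ∈ N)
    (hq2 : ∀ c c' β, (c, c', β) ∈ q.2 ↔ ∃ v v', [(v, c), (v', c')].Sublist N ∧
      β = decide (v < v'))
    (C : Finset (Fin s)) :
    AvW (fun x y z => z < x ∧ x < y) W (C.image g) ↔ ¬ Bad q ρ C := by
  have hgC : ∀ p : Fin s, g (ρ p) ∉ C.image g ↔ ρ p ∉ C := by
    intro p
    rw [Finset.mem_image]
    constructor
    · intro h hc; exact h ⟨_, hc, rfl⟩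
    · rintro h ⟨k, hk, he⟩
      rw [h2.injective he] at hk; exact h hk
  have hNC : ∀ v c, (v, c) ∈ N → v ∉ C.image g := by
    intro v c hv
    rw [Finset.mem_image]
    rintro ⟨k, _, he⟩
    have := h5 v c hv k
    omega
  have hgW : ∀ p, g (ρ p) ∈ W := fun p => (h1 _).2 (Or.inl ⟨p, rfl⟩)
  have hNW : ∀ v c, (v, c) ∈ N → v ∈ W := fun v c h => (h1 _).2 (Or.inr ⟨c, h⟩)
  have h3' : ∀ p p', W.idxOf (g (ρ p)) < W.idxOf (g (ρ p')) ↔ p < p' := by
    intro p p'
    constructor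
    · intro h
      by_contra hc
      rcases eq_or_lt_of_le (not_lt.1 hc) with e | e
      · rw [e] at h; omega
      · have := h3 _ _ e; omega
    · exact h3 p p'
  have h2' : ∀ k k', g k < g k' ↔ k < k' := fun k k' => h2.lt_iff_lt
  have hpair : ∀ v c v' c', (v, c) ∈ N → (v', c') ∈ N → W.idxOf v < W.idxOf v' →
      [(v, c), (v', c')].Sublist N := by
    intro v c v' c' hv hv' hlt
    have hne : (v, c) ≠ (v', c') := by
      intro e
      rw [Prod.mk.injEq] at e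
      rw [e.1] at hlt; omega
    rcases pair_or hv hv' hne with h | h
    · exact h
    · have := (List.pairwise_iff_forall_sublist.1 h6) h
      simp only at this
      omega
  rw [← not_iff_not, not_not]
  constructor
  · intro h
    unfold AvW at h
    push Not at h
    obtain ⟨x, y, z, hs, hx, hy, hz, hzx, hxy⟩ := h
    rw [triple_sublist hW] at hs
    obtain ⟨mx, my, mz, ixy, iyz⟩ := hs
    rcases (h1 x).1 mx with ⟨p1, rfl⟩ | ⟨c1, n1⟩ <;> rcases (h1 y).1 my with ⟨p2, rfl⟩ | ⟨c2, n2⟩ <;>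
      rcases (h1 z).1 mz with ⟨p3, rfl⟩ | ⟨c3, n3⟩
    · -- m m m
      left
      rw [hgC] at hx hy hz
      rw [h3'] at ixy iyz
      rw [h2'] at hzx hxy
      exact ⟨p1, p2, p3, ixy, iyz, hx, hy, hz, hzx, hxy⟩
    · -- m m u
      right; left
      rw [hgC] at hx hy
      rw [h3'] at ixy
      rw [h2'] at hxy
      refine ⟨c3, (hq1 c3).2 ⟨z, n3⟩, p1, p2, hx, hy, ixy, Or.inr (Or.inr ⟨?_, ?_, hxy⟩)⟩
      · exact (h4 z c3 n3 p2).1.1 iyz
      · exact (h5 z c3 n3 _).2.1 hzx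
    · -- m u m
      right; left
      rw [hgC] at hx hz
      rw [h2'] at hzx
      have a1 := (h4 y c2 n2 p1).1.1 ixy
      have a2 := (h4 y c2 n2 p3).2.1 iyz
      refine ⟨c2, (hq1 c2).2 ⟨y, n2⟩, p1, p3, hx, hz, ?_, Or.inr (Or.inl ⟨a1, a2, hzx, ?_⟩)⟩
      · rw [Fin.lt_def]; omega
      · exact (h5 y c2 n2 _).1.1 hxy
    · -- m u u
      right; right
      rw [hgC] at hx
      refine ⟨(c2, c3, false), (hq2 _ _ _).2 ⟨y, z, hpair _ _ _ _ n2 n3 iyz, ?_⟩, p1, hx,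
        Or.inr (Or.inr ⟨rfl, ?_, ?_, ?_⟩)⟩
      · symm; rw [decide_eq_false_iff_not]; omega
      · exact (h4 y c2 n2 p1).1.1 ixy
      · exact (h5 z c3 n3 _).2.1 hzx
      · exact (h5 y c2 n2 _).1.1 hxy
    · -- u m m
      right; left
      rw [hgC] at hy hz
      rw [h3'] at iyz
      refine ⟨c1, (hq1 c1).2 ⟨x, n1⟩, p2, p3, hy, hz, iyz, Or.inl ⟨?_, ?_, ?_⟩⟩
      · exact (h4 x c1 n1 p2).2.1 ixy
      · exact (h5 x c1 n1 _).1.1 hzx
      · exact (h5 x c1 n1 _).2.1 hxy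
    · -- u m u
      right; right
      rw [hgC] at hy
      refine ⟨(c1, c3, false), (hq2 _ _ _).2 ⟨x, z, hpair _ _ _ _ n1 n3 (by omega), ?_⟩, p2, hy,
        Or.inr (Or.inl ⟨rfl, ?_, ?_, ?_⟩)⟩
      · symm; rw [decide_eq_false_iff_not]; omega
      · exact (h4 x c1 n1 p2).2.1 ixy
      · exact (h4 z c3 n3 p2).1.1 iyz
      · exact (h5 x c1 n1 _).2.1 hxy
    · -- u u m
      right; right
      rw [hgC] at hz
      refine ⟨(c1, c2, true), (hq2 _ _ _).2 ⟨x, y, hpair _ _ _ _ n1 n2 ixy, ?_⟩, p3, hz,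
        Or.inl ⟨rfl, ?_, ?_⟩⟩
      · symm; rw [decide_eq_true_iff]; omega
      · exact (h4 y c2 n2 p3).2.1 iyz
      · exact (h5 x c1 n1 _).1.1 hzx
    · -- u u u
      exfalso
      have hNs : N.Pairwise (fun a b => W.idxOf a.1 < W.idxOf b.1) := h6
      have hW' : (N.map Prod.fst).Nodup := by
        rw [List.Nodup, List.pairwise_map]
        refine hNs.imp ?_
        intro a b hab e
        rw [e] at hab; omega
      have hsub3 : [x, y, z].Sublist (N.map Prod.fst) := by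
        have e1 := (hpair _ _ _ _ n1 n2 ixy).map Prod.fst
        have e2 := (hpair _ _ _ _ n2 n3 iyz).map Prod.fst
        simp only [List.map_cons, List.map_nil] at e1 e2
        rw [pair_sublist hW'] at e1 e2
        rw [triple_sublist hW']
        exact ⟨e1.1, e1.2.1, e2.2.1, e1.2.2, e2.2.2⟩
      exact triplewise_sublist h7 hsub3 ⟨hzx, hxy⟩
  · rintro (⟨p1, p2, p3, a1, a2, a3, a4, a5, a6, a7⟩ | ⟨c, hc, p1, p2, a1, a2, a3, a4⟩ |
      ⟨⟨c, c', β⟩, hx, p, a1, a2⟩) hAv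
    · refine hAv (g (ρ p1)) (g (ρ p2)) (g (ρ p3)) ?_ ((hgC _).2 a3) ((hgC _).2 a4) ((hgC _).2 a5) ?_
      · rw [triple_sublist hW]
        exact ⟨hgW _, hgW _, hgW _, h3 _ _ a1, h3 _ _ a2⟩
      · exact ⟨h2 a6, h2 a7⟩
    · obtain ⟨v, hv⟩ := (hq1 c).1 hc
      have k1 := h4 v c hv p1
      have k2 := h4 v c hv p2
      have k3 := h5 v c hv (ρ p1)
      have k4 := h5 v c hv (ρ p2)
      have k5 := h3 _ _ a3
      rcases a4 with ⟨b1, b2, b3⟩ | ⟨b1, b2, b3, b4⟩ | ⟨b1, b2, b3⟩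
      · refine hAv v (g (ρ p1)) (g (ρ p2)) ?_ (hNC v c hv) ((hgC _).2 a1) ((hgC _).2 a2)
          ⟨k4.1.2 b2, k3.2.2 b3⟩
        rw [triple_sublist hW]
        exact ⟨hNW v c hv, hgW _, hgW _, k1.2.2 b1, k5⟩
      · refine hAv (g (ρ p1)) v (g (ρ p2)) ?_ ((hgC _).2 a1) (hNC v c hv) ((hgC _).2 a2)
          ⟨h2 b3, k3.1.2 b4⟩
        rw [triple_sublist hW]
        exact ⟨hgW _, hNW v c hv, hgW _, k1.1.2 b1, k2.2.2 b2⟩
      · refine hAv (g (ρ p1)) (g (ρ p2)) v ?_ ((hgC _).2 a1) ((hgC _).2 a2) (hNC v c hv)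
          ⟨k3.2.2 b2, h2 b3⟩
        rw [triple_sublist hW]
        exact ⟨hgW _, hgW _, hNW v c hv, k5, k2.1.2 b1⟩
    · obtain ⟨v, v', hs, hβ⟩ := (hq2 c c' β).1 hx
      have hv : (v, c) ∈ N := hs.subset (by simp)
      have hv' : (v', c') ∈ N := hs.subset (by simp)
      have hlt := (List.pairwise_iff_forall_sublist.1 h6) hs
      simp only at hlt a2
      have k1 := h4 v c hv p
      have k2 := h4 v' c' hv' p
      have k3 := h5 v c hv (ρ p)
      have k4 := h5 v' c' hv' (ρ p)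
      rcases a2 with ⟨b1, b2, b3⟩ | ⟨b1, b2, b3, b4⟩ | ⟨b1, b2, b3, b4⟩
      · rw [b1] at hβ
        have hvv := decide_eq_true_iff.1 hβ.symm
        refine hAv v v' (g (ρ p)) ?_ (hNC v c hv) (hNC v' c' hv') ((hgC _).2 a1)
          ⟨k3.1.2 b3, hvv⟩
        rw [triple_sublist hW]
        exact ⟨hNW v c hv, hNW v' c' hv', hgW _, hlt, k2.2.2 b2⟩
      · rw [b1] at hβ
        have hvv := decide_eq_false_iff_not.1 hβ.symm
        have hne : v ≠ v' := by
          intro e; rw [e] at hlt; omega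
        refine hAv v (g (ρ p)) v' ?_ (hNC v c hv) ((hgC _).2 a1) (hNC v' c' hv')
          ⟨by omega, k3.2.2 b4⟩
        rw [triple_sublist hW]
        exact ⟨hNW v c hv, hgW _, hNW v' c' hv', k1.2.2 b2, k2.1.2 b3⟩
      · refine hAv (g (ρ p)) v v' ?_ ((hgC _).2 a1) (hNC v c hv) (hNC v' c' hv')
          ⟨k4.2.2 b3, k3.1.2 b4⟩
        rw [triple_sublist hW]
        exact ⟨hgW _, hNW v c hv, hNW v' c' hv', k1.1.2 b2, hlt⟩

end MT

end Pool.Agent.Work.MP_9eb367_co
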