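import Pool.Agent.Work.MP_9eb367_co.Bad

open Finset

namespace Pool.Agent.Work.MP_9eb367_co

namespace MT

/-- Marks of the word of `D` are exactly `M`. -/
theorem filter_pw (U : Finset ℕ) : ∀ (D : MT) (lo : ℕ) (M : List ℕ), M.length = la D →
    (∀ x ∈ M, x ∈ U) → (∀ x ∈ nd D lo 0 0, x.1 ∉ U) → (pw D lo M).filter (· ∈ U) = M := by
  have hcell : ∀ (D : MT) (lo i j i' j' : ℕ), (nd D lo i j).map Prod.fst =
      (nd D lo i' j').map Prod.fst := by
    intro D
    induction D with
    | leaf a => intros; rfl
    | node L b R ihL ihR =>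
      intro lo i j i' j'
      simp only [nd, List.map_append, List.map_cons]
      rw [ihL lo i j i' j', ihR (lo + wt L) (i + la L) (j + lb L) (i' + la L) (j' + lb L)]
  intro D
  induction D with
  | leaf a =>
    intro lo M hM hMU _
    simp only [la] at hM
    simp only [pw, ← hM, List.take_length]
    rw [List.filter_eq_self]
    intro x hx; simpa using hMU x hx
  | node L b R ihL ihR =>
    intro lo M hM hMU hN
    simp only [la] at hM
    simp only [pw]
    simp only [nd, List.mem_append, List.mem_cons] at hN
    rw [List.filter_append, List.filter_cons_of_neg]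
    · rw [ihL lo _ (by simp; omega) (fun x hx => hMU x (List.mem_of_mem_take hx))
        (fun x hx => hN x (Or.inl hx))]
      rw [ihR (lo + wt L) _ (by simp; omega) (fun x hx => hMU x (List.mem_of_mem_drop hx)) ?_]
      · exact List.take_append_drop _ _
      · intro x hx
        have h1 : x.1 ∈ (nd R (lo + wt L) 0 0).map Prod.fst := List.mem_map_of_mem hx
        rw [hcell R (lo + wt L) 0 0 (0 + la L) (0 + lb L), List.mem_map] at h1
        obtain ⟨y, hy, hyx⟩ := h1
        rw [← hyx]
        exact hN y (Or.inr (Or.inr hy))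
    · have := hN (lo + wt L + wt R + b, (0 + la L, 0 + (lb L + lb R + b))) (Or.inr (Or.inl rfl))
      simpa using this

theorem nd_cell_indep : ∀ (D : MT) (lo i j i' j' : ℕ), (nd D lo i j).map Prod.fst =
    (nd D lo i' j').map Prod.fst := by
  intro D
  induction D with
  | leaf a => intros; rfl
  | node L b R ihL ihR =>
    intro lo i j i' j'
    simp only [nd, List.map_append, List.map_cons]
    rw [ihL lo i j i' j', ihR (lo + wt L) (i + la L) (j + lb L) (i' + la L) (j' + lb L)]

/-- `D` represents the word `w` with marks in `U`. -/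
def Rep (U : Finset ℕ) (D : MT) (lo : ℕ) (w : List ℕ) : Prop :=
  pw D lo (w.filter (· ∈ U)) = w ∧ la D = (w.filter (· ∈ U)).length ∧
    (∀ x ∈ gm D lo, x ∈ U) ∧ (∀ x ∈ nd D lo 0 0, x.1 ∉ U)

theorem Rep.node_iff {U : Finset ℕ} {L R : MT} {b lo : ℕ} {w : List ℕ} :
    Rep U (node L b R) lo w ↔ ∃ w1 w2, w = w1 ++ (lo + wt L + wt R + b) :: w2 ∧
      Rep U L lo w1 ∧ Rep U R (lo + wt L) w2 ∧ (lo + wt L + wt R + b) ∉ U ∧
      (∀ x ∈ List.range' (lo + wt L + wt R) b, x ∈ U) := by
  have hnd : ∀ x, x ∈ (nd R (lo + wt L) 0 0).map Prod.fst ↔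
      x ∈ (nd R (lo + wt L) (0 + la L) (0 + lb L)).map Prod.fst := by
    intro x; rw [nd_cell_indep R (lo + wt L) 0 0 (0 + la L) (0 + lb L)]
  constructor
  · rintro ⟨h1, h2, h3, h4⟩
    simp only [la] at h2
    simp only [gm, List.mem_append] at h3
    simp only [nd, List.mem_append, List.mem_cons] at h4
    set M := w.filter (· ∈ U) with hM
    have hroot : (lo + wt L + wt R + b) ∉ U := by
      have := h4 (lo + wt L + wt R + b, (0 + la L, 0 + (lb L + lb R + b))) (Or.inr (Or.inl rfl))
      exact this
    have hMU : ∀ x ∈ M, x ∈ U := by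
      intro x hx
      rw [hM, List.mem_filter] at hx
      simpa using hx.2
    have hNL : ∀ x ∈ nd L lo 0 0, x.1 ∉ U := fun x hx => h4 x (Or.inl hx)
    have hNR : ∀ x ∈ nd R (lo + wt L) 0 0, x.1 ∉ U := by
      intro x hx
      have h5 := (hnd x.1).1 (List.mem_map_of_mem hx)
      rw [List.mem_map] at h5
      obtain ⟨y, hy, hyx⟩ := h5
      rw [← hyx]
      exact h4 y (Or.inr (Or.inr hy))
    have fL : (pw L lo (M.take (la L))).filter (· ∈ U) = M.take (la L) :=
      filter_pw U L lo _ (by simp; omega) (fun x hx => hMU x (List.mem_of_mem_take hx)) hNL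
    have fR : (pw R (lo + wt L) (M.drop (la L))).filter (· ∈ U) = M.drop (la L) :=
      filter_pw U R _ _ (by simp; omega) (fun x hx => hMU x (List.mem_of_mem_drop hx)) hNR
    refine ⟨pw L lo (M.take (la L)), pw R (lo + wt L) (M.drop (la L)), ?_, ?_, ?_, hroot, ?_⟩
    · rw [← h1]; rfl
    · refine ⟨by rw [fL], by rw [fL]; simp; omega, fun x hx => h3 x (Or.inl (Or.inl hx)), hNL⟩
    · refine ⟨by rw [fR], by rw [fR]; simp; omega, fun x hx => h3 x (Or.inl (Or.inr hx)), hNR⟩
    · exact fun x hx => h3 x (Or.inr hx)
  · rintro ⟨w1, w2, rfl, ⟨l1, l2, l3, l4⟩, ⟨r1, r2, r3, r4⟩, hroot, hB⟩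
    have hf : (w1 ++ (lo + wt L + wt R + b) :: w2).filter (· ∈ U) =
        w1.filter (· ∈ U) ++ w2.filter (· ∈ U) := by
      rw [List.filter_append, List.filter_cons_of_neg (by simpa using hroot)]
    refine ⟨?_, ?_, ?_, ?_⟩
    · rw [hf]
      simp only [pw]
      rw [l2, List.take_left', List.drop_left', l1, r1]
      · rfl
      · rfl
    · rw [hf, List.length_append, ← l2, ← r2]; rfl
    · simp only [gm, List.mem_append]
      rintro x ((hx | hx) | hx)
      · exact l3 x hx
      · exact r3 x hx
      · exact hB x hx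
    · simp only [nd, List.mem_append, List.mem_cons]
      rintro x (hx | rfl | hx)
      · exact l4 x hx
      · exact hroot
      · have h5 := (hnd x.1).2 (List.mem_map_of_mem hx)
        rw [List.mem_map] at h5
        obtain ⟨y, hy, hyx⟩ := h5
        rw [← hyx]
        exact r4 y hy

theorem Rep.mem_bound {U : Finset ℕ} {D : MT} {lo : ℕ} {w : List ℕ} (h : Rep U D lo w) {x : ℕ}
    (hx : x ∈ w) (hU : x ∉ U) : lo ≤ x ∧ x < lo + wt D := by
  have h1 := pw_perm D lo 0 0 (w.filter (· ∈ U)) h.2.1.symm
  rw [h.1] at h1
  have h2 := h1.mem_iff.1 hx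
  rw [List.mem_append, List.mem_map] at h2
  rcases h2 with ⟨y, hy, rfl⟩ | h2
  · exact nd_bound hy
  · rw [List.mem_filter] at h2
    exact absurd (by simpa using h2.2) hU

theorem Rep.unique {U : Finset ℕ} : ∀ {D D' : MT} {lo : ℕ} {w : List ℕ}, w.Nodup →
    Rep U D lo w → Rep U D' lo w → D = D' := by
  intro D
  induction D with
  | leaf a =>
    intro D' lo w hnd h h'
    cases D' with
    | leaf a' =>
      have e1 := h.2.1
      have e2 := h'.2.1
      simp only [la] at e1 e2
      rw [e1, e2]
    | node L b R =>
      exfalso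
      rw [Rep.node_iff] at h'
      obtain ⟨w1, w2, hw, _, _, hr, _⟩ := h'
      have := h.mem_bound (x := lo + wt L + wt R + b) (by rw [hw]; simp) hr
      rw [wt_leaf] at this
      omega
  | node L b R ihL ihR =>
    intro D' lo w hnd h h'
    cases D' with
    | leaf a' =>
      exfalso
      rw [Rep.node_iff] at h
      obtain ⟨w1, w2, hw, _, _, hr, _⟩ := h
      have := h'.mem_bound (x := lo + wt L + wt R + b) (by rw [hw]; simp) hr
      rw [wt_leaf] at this
      omega
    | node L' b' R' =>
      have g := h
      have g' := h'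
      rw [Rep.node_iff] at h h'
      obtain ⟨w1, w2, hw, hL, hR, hr, hB⟩ := h
      obtain ⟨w1', w2', hw', hL', hR', hr', hB'⟩ := h'
      have b1 := g.mem_bound (x := lo + wt L' + wt R' + b') (by rw [hw']; simp) hr'
      have b2 := g'.mem_bound (x := lo + wt L + wt R + b) (by rw [hw]; simp) hr
      rw [wt_node] at b1 b2
      have hroot : lo + wt L + wt R + b = lo + wt L' + wt R' + b' := by omega
      have hsplit : w1 = w1' ∧ w2 = w2' := by
        rw [← hroot] at hw'
        have he : w1 ++ (lo + wt L + wt R + b) :: w2 = w1' ++ (lo + wt L + wt R + b) :: w2' := by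
          rw [← hw, ← hw']
        have hnd1 : (w1 ++ (lo + wt L + wt R + b) :: w2).Nodup := by rw [← hw]; exact hnd
        have hnd2 : (w1' ++ (lo + wt L + wt R + b) :: w2').Nodup := by rw [← hw']; exact hnd
        have n1 : (lo + wt L + wt R + b) ∉ w1 := by
          intro hc
          rw [List.nodup_append] at hnd1
          exact hnd1.2.2 _ hc _ (by simp) rfl
        have n2 : (lo + wt L + wt R + b) ∉ w1' := by
          intro hc
          rw [List.nodup_append] at hnd2
          exact hnd2.2.2 _ hc _ (by simp) rfl
        have l1 : w1.length = w1'.length := by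
          have e1 : (w1 ++ (lo + wt L + wt R + b) :: w2).idxOf (lo + wt L + wt R + b) =
              w1.length := by
            rw [List.idxOf_append_of_notMem n1, List.idxOf_cons_self]; simp
          have e2 : (w1' ++ (lo + wt L + wt R + b) :: w2').idxOf (lo + wt L + wt R + b) =
              w1'.length := by
            rw [List.idxOf_append_of_notMem n2, List.idxOf_cons_self]; simp
          rw [← e1, ← e2, he]
        have := List.append_inj he l1
        simp only [List.cons.injEq, true_and] at this
        exact this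
      obtain ⟨rfl, rfl⟩ := hsplit
      have hnd1 : w1.Nodup := by
        rw [hw, List.nodup_append] at hnd; exact hnd.1
      have hnd2 : w2.Nodup := by
        rw [hw, List.nodup_append] at hnd; exact (List.nodup_cons.1 hnd.2.1).2
      have hLL := ihL hnd1 hL hL'
      subst hLL
      have hRR := ihR hnd2 hR hR'
      subst hRR
      have : b = b' := by omega
      subst this
      rfl

/-- Existence of the tree. -/
theorem exists_rep (U : Finset ℕ) (k : ℕ) : ∀ (w : List ℕ) (lo hi : ℕ), w.length ≤ k → w.Nodup →
    (∀ x, x ∉ U → (x ∈ w ↔ lo ≤ x ∧ x < hi)) → lo ≤ hi → (hi = lo ∨ hi - 1 ∉ U) →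
    AvW (fun x y z => z < x ∧ x < y) w U → ∃ D, Rep U D lo w ∧ lo + wt D = hi := by
  induction k with
  | zero =>
    intro w lo hi hk hnd hmem hlh hhi hav
    have hw : w = [] := List.length_eq_zero_iff.1 (by omega)
    subst hw
    have : hi = lo := by
      rcases hhi with h | h
      · exact h
      · by_contra hne
        have := (hmem (hi - 1) h).2 ⟨by omega, by omega⟩
        simp at this
    subst this
    exact ⟨leaf 0, ⟨rfl, rfl, by simp [gm], by simp [nd]⟩, by rw [wt_leaf]; rfl⟩
  | succ k ih =>
    intro w lo hi hk hnd hmem hlh hhi hav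
    by_cases hh : hi = lo
    · subst hh
      have hall : ∀ x ∈ w, x ∈ U := by
        intro x hx
        by_contra hc
        have := (hmem x hc).1 hx
        omega
      have hf : w.filter (· ∈ U) = w := by
        rw [List.filter_eq_self]; intro x hx; simpa using hall x hx
      refine ⟨leaf w.length, ⟨?_, ?_, by simp [gm], by simp [nd]⟩, by rw [wt_leaf]; rfl⟩
      · rw [hf]; simp [pw]
      · rw [hf]; rfl
    · have hx : hi - 1 ∉ U := by tauto
      obtain ⟨x, hxd⟩ : ∃ x, x = hi - 1 := ⟨_, rfl⟩
      rw [← hxd] at hx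
      have hxw : x ∈ w := (hmem x hx).2 ⟨by omega, by omega⟩
      obtain ⟨w1, w2, rfl⟩ := List.append_of_mem hxw
      have hnd' := List.nodup_append.1 hnd
      have hnd2 := List.nodup_cons.1 hnd'.2.1
      have hx1 : x ∉ w1 := fun hc => hnd'.2.2 _ hc _ (by simp) rfl
      -- sets of unmarked letters
      set X1 := w1.toFinset.filter (· ∉ U) with hX1
      set X2 := w2.toFinset.filter (· ∉ U) with hX2
      have hlt12 : ∀ a ∈ X1, ∀ b ∈ X2, a < b := by
        intro a ha b hb
        rw [hX1, mem_filter, List.mem_toFinset] at ha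
        rw [hX2, mem_filter, List.mem_toFinset] at hb
        have hax : a ≠ x := fun e => hx1 (e ▸ ha.1)
        have hab : a ≠ b := fun e => hnd'.2.2 a ha.1 b (by simp [hb.1]) e
        have ha' := (hmem a ha.2).1 (by simp [ha.1])
        by_contra hc
        refine hav a x b ?_ ha.2 hx hb.2 ⟨by omega, by omega⟩
        have : [a, x, b] = [a] ++ ([x] ++ [b]) := rfl
        rw [this]
        refine List.Sublist.append (List.singleton_sublist.2 ha.1) ?_
        have e2 : [x] ++ [b] = x :: [b] := rfl
        rw [e2, List.cons_sublist_cons, List.singleton_sublist]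
        exact hb.1
      have hb1 : ∀ a ∈ X1, lo ≤ a ∧ a < x := by
        intro a ha
        rw [hX1, mem_filter, List.mem_toFinset] at ha
        have ha' := (hmem a ha.2).1 (by simp [ha.1])
        have hax : a ≠ x := fun e => hx1 (e ▸ ha.1)
        omega
      have hb2 : ∀ a ∈ X2, lo ≤ a ∧ a < x := by
        intro a ha
        rw [hX2, mem_filter, List.mem_toFinset] at ha
        have ha' := (hmem a ha.2).1 (by simp [ha.1])
        have hax : a ≠ x := fun e => hnd2.1 (e ▸ ha.1)
        omega
      have hmid : ∀ (X : Finset ℕ) (l : ℕ), ∃ m, (∀ a ∈ X, a < m) ∧ l ≤ m ∧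
          (m = l ∨ ∃ a ∈ X, m = a + 1) := by
        intro X l
        rcases X.eq_empty_or_nonempty with rfl | hne
        · exact ⟨l, by simp, le_refl _, Or.inl rfl⟩
        · have hm := X.max'_mem hne
          by_cases hlm : l ≤ X.max' hne + 1
          · exact ⟨X.max' hne + 1, fun a ha => Nat.lt_succ_of_le (X.le_max' a ha), hlm,
              Or.inr ⟨_, hm, rfl⟩⟩
          · refine ⟨l, fun a ha => ?_, le_refl _, Or.inl rfl⟩
            have := X.le_max' a ha
            omega
      obtain ⟨m1, m1a, m1b, m1c⟩ := hmid X1 lo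
      obtain ⟨m2, m2a, m2b, m2c⟩ := hmid X2 m1
      have hm1x : m1 ≤ x := by
        rcases m1c with h | ⟨a, ha, h⟩
        · omega
        · have := hb1 a ha; omega
      have hm2x : m2 ≤ x := by
        rcases m2c with h | ⟨a, ha, h⟩
        · omega
        · have := hb2 a ha; omega
      have hX2m : ∀ a ∈ X2, m1 ≤ a := by
        intro a ha
        rcases m1c with h | ⟨b, hb, h⟩
        · rw [h]; exact (hb2 a ha).1
        · have := hlt12 b hb a ha; omega
      have hmem1 : ∀ y, y ∉ U → (y ∈ w1 ↔ lo ≤ y ∧ y < m1) := by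
        intro y hy
        constructor
        · intro hyw
          have : y ∈ X1 := by rw [hX1, mem_filter, List.mem_toFinset]; exact ⟨hyw, hy⟩
          exact ⟨(hb1 y this).1, m1a y this⟩
        · rintro ⟨h1, h2⟩
          have hyw := (hmem y hy).2 ⟨h1, by clear m1c m2c; omega⟩
          rw [List.mem_append, List.mem_cons] at hyw
          rcases hyw with h | h | h
          · exact h
          · omega
          · exfalso
            have : y ∈ X2 := by rw [hX2, mem_filter, List.mem_toFinset]; exact ⟨h, hy⟩
            have := hX2m y this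
            omega
      have hmem2 : ∀ y, y ∉ U → (y ∈ w2 ↔ m1 ≤ y ∧ y < m2) := by
        intro y hy
        constructor
        · intro hyw
          have : y ∈ X2 := by rw [hX2, mem_filter, List.mem_toFinset]; exact ⟨hyw, hy⟩
          exact ⟨hX2m y this, m2a y this⟩
        · rintro ⟨h1, h2⟩
          have hyw := (hmem y hy).2 ⟨by omega, by omega⟩
          rw [List.mem_append, List.mem_cons] at hyw
          rcases hyw with h | h | h
          · exfalso
            have := (hmem1 y hy).1 h
            omega
          · omega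
          · exact h
      have hl : (w1 ++ x :: w2).length = w1.length + w2.length + 1 := by simp; omega
      have hav1 : AvW (fun x y z => z < x ∧ x < y) w1 U :=
        fun a b c hs => hav a b c (hs.trans (List.sublist_append_left _ _))
      have hav2 : AvW (fun x y z => z < x ∧ x < y) w2 U :=
        fun a b c hs => hav a b c (hs.trans ((List.sublist_cons_self _ _).trans
          (List.sublist_append_right _ _)))
      obtain ⟨L, hL1, hL2⟩ := ih w1 lo m1 (by omega) hnd'.1 hmem1 m1b (by
        rcases m1c with h | ⟨a, ha, h⟩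
        · exact Or.inl h
        · right
          rw [hX1, mem_filter] at ha
          rw [h]; simpa using ha.2) hav1
      obtain ⟨R, hR1, hR2⟩ := ih w2 m1 m2 (by omega) hnd2.2 hmem2 m2b (by
        rcases m2c with h | ⟨a, ha, h⟩
        · exact Or.inl h
        · right
          rw [hX2, mem_filter] at ha
          rw [h]; simpa using ha.2) hav2
      have hroot : lo + wt L + wt R + (x - m2) = x := by omega
      refine ⟨node L (x - m2) R, ?_, ?_⟩
      · rw [Rep.node_iff]
        refine ⟨w1, w2, by rw [hroot], hL1, by rw [hL2]; exact hR1, by rw [hroot]; exact hx, ?_⟩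
        intro y hy
        rw [List.mem_range'_1] at hy
        by_contra hc
        have hyw := (hmem y hc).2 ⟨by clear m1c m2c; omega, by clear m1c m2c; omega⟩
        rw [List.mem_append, List.mem_cons] at hyw
        rcases hyw with h | h | h
        · have := (hmem1 y hc).1 h; omega
        · omega
        · have := (hmem2 y hc).1 h; omega
      · rw [wt_node]; clear m1c m2c; omega

end MT

end Pool.Agent.Work.MP_9eb367_co
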