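import Mathlib

open Finset Equiv

namespace Pool.Agent.Work.MP_9eb367_co

/-- `1/z!` for `z ≥ 0`, and `0` for negative integers. -/
def ifac (z : ℤ) : ℚ := if 0 ≤ z then 1 / (z.toNat.factorial : ℚ) else 0

theorem ifac_neg {z : ℤ} (h : z < 0) : ifac z = 0 := by
  unfold ifac; rw [if_neg (by omega)]

theorem ifac_nat (k : ℕ) : ifac (k : ℤ) = 1 / (k.factorial : ℚ) := by
  unfold ifac; simp

theorem ifac_zero : ifac 0 = 1 := by simpa using ifac_nat 0

theorem ifac_mul (z : ℤ) : (z : ℚ) * ifac z = ifac (z - 1) := by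
  rcases lt_trichotomy z 0 with h | h | h
  · rw [ifac_neg h, ifac_neg (by omega)]; simp
  · subst h
    have h0 : ifac (0 - 1) = 0 := ifac_neg (by norm_num)
    rw [h0]; simp
  · obtain ⟨k, rfl⟩ : ∃ k : ℕ, z = k + 1 := ⟨(z - 1).toNat, by omega⟩
    have e : ((k : ℤ) + 1) = ((k + 1 : ℕ) : ℤ) := by push_cast; ring
    have e2 : ((k : ℤ) + 1 - 1) = ((k : ℕ) : ℤ) := by ring
    rw [e2, ifac_nat, e, ifac_nat, Nat.factorial_succ]
    push_cast
    have h1 : ((k : ℚ) + 1) ≠ 0 := by positivity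
    have h2 : (k.factorial : ℚ) ≠ 0 := by positivity
    field_simp

/-- Frobenius determinant `det (1/(x_j - j + i)!)`. -/
def DD {k : ℕ} (x : Fin k → ℤ) : ℚ :=
  Matrix.det (Matrix.of fun i j : Fin k => ifac (x j - (j : ℤ) + (i : ℤ)))

theorem DD_eq {k : ℕ} (x : Fin k → ℤ) :
    DD x = ∑ σ : Perm (Fin k), ((Perm.sign σ : ℤ) : ℚ) *
      ∏ j, ifac (x j - (j : ℤ) + (σ j : ℤ)) := by
  unfold DD
  rw [Matrix.det_apply']
  rfl

theorem DD_rec {k : ℕ} (x : Fin k → ℤ) :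
    ((∑ j, x j : ℤ) : ℚ) * DD x = ∑ c, DD (Function.update x c (x c - 1)) := by
  simp only [DD_eq]
  rw [Finset.sum_comm, Finset.mul_sum]
  refine Finset.sum_congr rfl fun σ _ => ?_
  rw [← Finset.mul_sum]
  have h1 : ∀ c : Fin k, ∏ j, ifac (Function.update x c (x c - 1) j - (j : ℤ) + (σ j : ℤ)) =
      ((x c - (c : ℤ) + (σ c : ℤ) : ℤ) : ℚ) * ∏ j, ifac (x j - (j : ℤ) + (σ j : ℤ)) := by
    intro c
    rw [← Finset.mul_prod_erase univ _ (mem_univ c), ← Finset.mul_prod_erase univ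
      (fun j => ifac (x j - (j : ℤ) + (σ j : ℤ))) (mem_univ c)]
    rw [Function.update_self, ← mul_assoc, ifac_mul]
    congr 1
    · congr 1; ring
    · refine Finset.prod_congr rfl fun j hj => ?_
      rw [Function.update_of_ne (Finset.ne_of_mem_erase hj)]
  simp only [h1]
  rw [← Finset.sum_mul]
  have h2 : ((∑ j, x j : ℤ) : ℚ) = ∑ c, ((x c - (c : ℤ) + (σ c : ℤ) : ℤ) : ℚ) := by
    rw [← Int.cast_sum]
    congr 1
    rw [Finset.sum_add_distrib, Finset.sum_sub_distrib]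
    have : ∑ c : Fin k, ((σ c : ℕ) : ℤ) = ∑ c : Fin k, ((c : ℕ) : ℤ) :=
      Equiv.sum_comp σ (fun c : Fin k => ((c : ℕ) : ℤ))
    rw [this]; ring
  rw [h2]; ring

theorem DD_eq_zero_of_eq {k : ℕ} (x : Fin k → ℤ) {i j : Fin k} (hij : i ≠ j)
    (h : x i - (i : ℤ) = x j - (j : ℤ)) : DD x = 0 := by
  unfold DD
  apply Matrix.det_zero_of_column_eq hij
  intro r
  simp only [Matrix.of_apply]
  rw [h]

theorem DD_eq_zero_of_lt {k : ℕ} (x : Fin k → ℤ) (j : Fin k)
    (h : x j - (j : ℤ) + (k : ℤ) - 1 < 0) : DD x = 0 := by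
  rw [DD_eq]
  refine Finset.sum_eq_zero fun σ _ => ?_
  rw [Finset.prod_eq_zero (mem_univ j), mul_zero]
  apply ifac_neg
  have := (σ j).2
  omega

theorem DD_zero {k : ℕ} : DD (fun _ : Fin k => 0) = 1 := by
  unfold DD
  rw [Matrix.det_of_isLowerTriangular]
  · refine Finset.prod_eq_one fun i _ => ?_
    simp only [Matrix.of_apply]
    rw [show (0 : ℤ) - (i : ℤ) + (i : ℤ) = 0 by ring, ifac_zero]
  · intro i j hij
    simp only [Matrix.of_apply]
    apply ifac_neg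
    have : (i : ℕ) < (j : ℕ) := by simpa using hij
    omega

theorem DD_swap {k : ℕ} (x y : Fin k → ℤ) {i j : Fin k} (hij : i ≠ j)
    (h1 : y i - (i : ℤ) = x j - (j : ℤ)) (h2 : y j - (j : ℤ) = x i - (i : ℤ))
    (h3 : ∀ c, c ≠ i → c ≠ j → y c = x c) : DD y = - DD x := by
  unfold DD
  have : (Matrix.of fun r c : Fin k => ifac (y c - (c : ℤ) + (r : ℤ))) =
      (Matrix.of fun r c : Fin k => ifac (x c - (c : ℤ) + (r : ℤ))).submatrix id (swap i j) := by
    ext r c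
    simp only [Matrix.of_apply, Matrix.submatrix_apply, id]
    by_cases hci : c = i
    · subst hci; rw [swap_apply_left, h1]
    · by_cases hcj : c = j
      · subst hcj; rw [swap_apply_right, h2]
      · rw [swap_apply_of_ne_of_ne hci hcj, h3 c hci hcj]
  rw [this, Matrix.det_permute']
  rw [Perm.sign_swap hij]
  simp

end Pool.Agent.Work.MP_9eb367_co
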