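import Pool.Agent.Work.MP_9eb367_co.KField
import Pool.Agent.Work.MP_9eb367_co.Frob

open Finset Equiv

namespace Pool.Agent.Work.MP_9eb367_co

/-- Binomial coefficient with an integer lower entry. -/
def chz (N : ℕ) (y : ℤ) : ℕ := if 0 ≤ y then N.choose y.toNat else 0

theorem chz_neg {N : ℕ} {y : ℤ} (h : y < 0) : chz N y = 0 := by
  unfold chz; rw [if_neg (by omega)]

theorem chz_nat (N k : ℕ) : chz N (k : ℤ) = N.choose k := by
  unfold chz; simp

theorem chz_gt {N : ℕ} {y : ℤ} (h : (N : ℤ) < y) : chz N y = 0 := by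
  obtain ⟨k, rfl⟩ : ∃ k : ℕ, y = k := ⟨y.toNat, by omega⟩
  rw [chz_nat, Nat.choose_eq_zero_of_lt (by omega)]

theorem chz_symm (N : ℕ) (y : ℤ) : chz N (N - y) = chz N y := by
  rcases lt_or_ge y 0 with h | h
  · rw [chz_neg h, chz_gt (by omega)]
  · rcases lt_or_ge (N : ℤ) y with h' | h'
    · rw [chz_gt h', chz_neg (by omega)]
    · obtain ⟨k, rfl⟩ : ∃ k : ℕ, y = k := ⟨y.toNat, by omega⟩
      have hk : k ≤ N := by omega
      have : (N : ℤ) - k = ((N - k : ℕ) : ℤ) := by omega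
      rw [this, chz_nat, chz_nat, Nat.choose_symm hk]

theorem chz_succ (N : ℕ) (y : ℤ) : chz (N + 1) y = chz N y + chz N (y - 1) := by
  rcases lt_trichotomy y 0 with h | h | h
  · rw [chz_neg h, chz_neg h, chz_neg (by omega)]
  · subst h
    rw [chz_neg (y := 0 - 1) (by omega)]
    simp [chz]
  · obtain ⟨k, rfl⟩ : ∃ k : ℕ, y = k + 1 := ⟨(y - 1).toNat, by omega⟩
    have e : ((k : ℤ) + 1) = ((k + 1 : ℕ) : ℤ) := by push_cast; ring
    have e2 : ((k : ℤ) + 1 - 1) = ((k : ℕ) : ℤ) := by ring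
    rw [e2, e, chz_nat, chz_nat, chz_nat, Nat.choose_succ_succ]; ring

theorem seqK_B_aux (f : ℕ) : SeqK (fun n => (chz (2 * n) ((n : ℤ) - f) : ℚ)) ∧
    SeqK (fun n => (chz (2 * n) ((n : ℤ) - (f + 1 : ℕ)) : ℚ)) := by
  have hrec : ∀ (n : ℕ) (y : ℤ), chz (2 * (n + 1)) y =
      chz (2 * n) y + 2 * chz (2 * n) (y - 1) + chz (2 * n) (y - 2) := by
    intro n y
    have : 2 * (n + 1) = 2 * n + 1 + 1 := by ring
    rw [this, chz_succ, chz_succ, chz_succ]
    have : y - 1 - 1 = y - 2 := by ring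
    rw [this]; ring
  induction f with
  | zero =>
    have h0 : SeqK (fun n => (chz (2 * n) ((n : ℤ) - (0 : ℕ)) : ℚ)) := by
      refine SeqK.centralBin.congr fun n => ?_
      rw [Nat.cast_zero, sub_zero, chz_nat]; rfl
    refine ⟨h0, ?_⟩
    have h1 := (((SeqK.shift_iff.2 h0).sub (h0.smul 2)).smul (1 / 2))
    refine h1.congr fun n => ?_
    have e1 := hrec n (((n + 1 : ℕ) : ℤ) - (0 : ℕ))
    have e2 : chz (2 * n) (((n + 1 : ℕ) : ℤ) - (0 : ℕ)) =
        chz (2 * n) ((n : ℤ) - ((0 + 1 : ℕ) : ℤ)) := by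
      rw [← chz_symm]; congr 1; push_cast; ring
    have e3 : ((n + 1 : ℕ) : ℤ) - (0 : ℕ) - 1 = (n : ℤ) - (0 : ℕ) := by push_cast; ring
    have e4 : ((n + 1 : ℕ) : ℤ) - (0 : ℕ) - 2 = (n : ℤ) - ((0 + 1 : ℕ) : ℤ) := by push_cast; ring
    rw [e1, e2, e3, e4]
    push_cast; ring
  | succ f ih =>
    refine ⟨ih.2, ?_⟩
    have h1 := ((SeqK.shift_iff.2 ih.2).sub (ih.2.smul 2)).sub ih.1
    refine h1.congr fun n => ?_
    have e1 := hrec n (((n + 1 : ℕ) : ℤ) - ((f + 1 : ℕ) : ℤ))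
    have e2 : ((n + 1 : ℕ) : ℤ) - ((f + 1 : ℕ) : ℤ) = (n : ℤ) - f := by push_cast; ring
    have e3 : ((n + 1 : ℕ) : ℤ) - ((f + 1 : ℕ) : ℤ) - 1 = (n : ℤ) - ((f + 1 : ℕ) : ℤ) := by
      push_cast; ring
    have e4 : ((n + 1 : ℕ) : ℤ) - ((f + 1 : ℕ) : ℤ) - 2 = (n : ℤ) - ((f + 1 + 1 : ℕ) : ℤ) := by
      push_cast; ring
    rw [e3, e4] at e1
    rw [e1, e2]
    push_cast; ring

theorem seqK_B (f : ℤ) : SeqK (fun n => (chz (2 * n) ((n : ℤ) - f) : ℚ)) := by
  rcases le_total 0 f with h | h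
  · obtain ⟨k, rfl⟩ := Int.eq_ofNat_of_zero_le h
    exact (seqK_B_aux k).1
  · obtain ⟨k, hk⟩ := Int.eq_ofNat_of_zero_le (show 0 ≤ -f by omega)
    refine (seqK_B_aux k).1.congr fun n => ?_
    rw [← chz_symm]
    congr 2
    push_cast; omega

theorem seqK_B' (f : ℤ) : SeqK (fun n => (chz (2 * n + 1) ((n : ℤ) - f) : ℚ)) := by
  have key : ∀ k : ℕ, SeqK (fun n => (chz (2 * n + 1) ((n : ℤ) - k) : ℚ)) := by
    intro k
    induction k with
    | zero =>
      refine ((SeqK.shift_iff.2 (seqK_B 0)).smul (1 / 2)).congr fun n => ?_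
      have : 2 * (n + 1) = 2 * n + 1 + 1 := by ring
      rw [this, chz_succ]
      have e1 : chz (2 * n + 1) (((n + 1 : ℕ) : ℤ) - 0) = chz (2 * n + 1) ((n : ℤ) - (0 : ℕ)) := by
        rw [← chz_symm]; congr 1; push_cast; ring
      have e2 : ((n + 1 : ℕ) : ℤ) - 0 - 1 = (n : ℤ) - (0 : ℕ) := by push_cast; ring
      rw [e1, e2]; push_cast; ring
    | succ k ih =>
      refine ((SeqK.shift_iff.2 (seqK_B (k + 1 : ℕ))).sub ih).congr fun n => ?_
      have : 2 * (n + 1) = 2 * n + 1 + 1 := by ring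
      rw [this, chz_succ]
      have e1 : ((n + 1 : ℕ) : ℤ) - ((k + 1 : ℕ) : ℤ) = (n : ℤ) - k := by push_cast; ring
      have e2 : ((n + 1 : ℕ) : ℤ) - ((k + 1 : ℕ) : ℤ) - 1 = (n : ℤ) - ((k + 1 : ℕ) : ℤ) := by
        push_cast; ring
      rw [e2, e1]; push_cast; ring
  rcases le_total 0 f with h | h
  · obtain ⟨k, rfl⟩ := Int.eq_ofNat_of_zero_le h
    exact key k
  · rcases eq_or_lt_of_le h with rfl | h
    · exact key 0
    obtain ⟨k, hk⟩ := Int.eq_ofNat_of_zero_le (show 0 ≤ -1 - f by omega)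
    refine (key k).congr fun n => ?_
    rw [← chz_symm]
    congr 2
    push_cast; omega

theorem seqK_chz (e : ℕ) (f : ℤ) : SeqK (fun n => (chz (2 * n - e) ((n : ℤ) - f) : ℚ)) := by
  rcases Nat.even_or_odd' e with ⟨k, rfl | rfl⟩
  · rw [← SeqK.shift_iff' k]
    refine (seqK_B (f - k)).congr fun n => ?_
    have : 2 * (n + k) - 2 * k = 2 * n := by omega
    rw [this]
    congr 2
    push_cast; ring
  · rw [← SeqK.shift_iff' (k + 1)]
    refine (seqK_B' (f - (k + 1))).congr fun n => ?_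
    have : 2 * (n + (k + 1)) - (2 * k + 1) = 2 * n + 1 := by omega
    rw [this]
    congr 2
    push_cast; ring

theorem vandermonde_chz (N N' : ℕ) (j j' A B : ℤ) (hA : A ≤ -j) (hB : (N : ℤ) - j ≤ B) :
    ∑ b ∈ Icc A B, chz N (b + j) * chz N' (b + j') = chz (N + N') (N' - (j' - j)) := by
  -- reindex
  have h1 : ∑ b ∈ Icc A B, chz N (b + j) * chz N' (b + j') =
      ∑ u ∈ range (N + 1), N.choose u * chz N' (N' - (j' - j) - u) := by
    symm
    rw [← Finset.sum_subset (s₁ := (Icc (-j) (N - j)))]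
    · refine Finset.sum_bij (fun (u : ℕ) _ => (u : ℤ) - j) ?_ ?_ ?_ ?_
      · intro u hu; simp at hu ⊢; omega
      · intro u _ v _ h; simpa using h
      · intro b hb
        simp only [mem_Icc] at hb
        refine ⟨(b + j).toNat, ?_, ?_⟩
        · simp; omega
        · omega
      · intro u hu
        have e1 : (u : ℤ) - j + j = u := by ring
        rw [e1, chz_nat]
        congr 1
        rw [← chz_symm]
        congr 1; ring
    · intro b hb; simp only [mem_Icc] at hb ⊢; omega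
    · intro b hb hb'
      simp only [mem_Icc] at hb hb'
      rcases lt_or_ge (b + j) 0 with h | h
      · rw [chz_neg h, zero_mul]
      · rw [chz_gt (y := b + j) (by omega), zero_mul]
  rw [h1]
  set M := (N' : ℤ) - (j' - j) with hM
  rcases lt_or_ge M 0 with h | h
  · rw [chz_neg h]
    refine Finset.sum_eq_zero fun u _ => ?_
    rw [chz_neg (by omega), mul_zero]
  · obtain ⟨k, hk⟩ := Int.eq_ofNat_of_zero_le h
    rw [hk, chz_nat, Nat.add_choose_eq, Finset.Nat.sum_antidiagonal_eq_sum_range_succ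
      (fun a b => N.choose a * N'.choose b)]
    -- compare ranges
    have h2 : ∀ u, N.choose u * chz N' ((k : ℤ) - u) =
        if u ≤ k then N.choose u * N'.choose (k - u) else 0 := by
      intro u
      split_ifs with hu
      · have : (k : ℤ) - u = ((k - u : ℕ) : ℤ) := by omega
        rw [this, chz_nat]
      · rw [chz_neg (by omega), mul_zero]
    simp only [h2]
    rw [← Finset.sum_subset (s₁ := range (min (N + 1) (k + 1)))]
    · rw [← Finset.sum_subset (s₁ := range (min (N + 1) (k + 1))) (s₂ := range k.succ)]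
      · refine Finset.sum_congr rfl fun u hu => ?_
        simp only [mem_range] at hu
        rw [if_pos (by omega)]
      · intro u hu; simp only [mem_range] at hu ⊢; omega
      · intro u hu hu'
        simp only [mem_range] at hu hu'
        rw [Nat.choose_eq_zero_of_lt (by omega), zero_mul]
    · intro u hu; simp only [mem_range] at hu ⊢; omega
    · intro u hu hu'
      simp only [mem_range] at hu hu'
      rw [if_neg (by omega)]

theorem fact_ifac (x y : ℤ) (d n : ℕ) (hdn : d ≤ n) (h : x + y + d = n) :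
    (n.factorial : ℚ) * (ifac x * ifac y) = (n.descFactorial d : ℚ) * (chz (n - d) y : ℚ) := by
  rcases lt_or_ge y 0 with hy | hy
  · rw [ifac_neg hy, chz_neg hy]; simp
  rcases lt_or_ge x 0 with hx | hx
  · rw [ifac_neg hx, chz_gt (by omega)]; simp
  obtain ⟨u, rfl⟩ := Int.eq_ofNat_of_zero_le hx
  obtain ⟨v, rfl⟩ := Int.eq_ofNat_of_zero_le hy
  have hn : n = u + v + d := by omega
  subst hn
  rw [ifac_nat, ifac_nat, chz_nat]
  have h1 : u + v + d - d = u + v := by omega
  have h2 := Nat.factorial_mul_descFactorial (show d ≤ u + v + d by omega)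
  have h3 := Nat.choose_mul_factorial_mul_factorial (show v ≤ u + v by omega)
  rw [h1] at h2 ⊢
  have h4 : u + v - v = u := by omega
  rw [h4] at h3
  have hu : (u.factorial : ℚ) ≠ 0 := by positivity
  have hv : (v.factorial : ℚ) ≠ 0 := by positivity
  rw [← h2]
  push_cast
  rw [← h3]
  push_cast
  field_simp

theorem SeqK.mul_descFactorial {a : ℕ → ℚ} (d : ℕ) (h : SeqK a) :
    SeqK (fun n => (n.descFactorial d : ℚ) * a n) := by
  refine (h.mul_poly (descPochhammer ℚ d)).congr fun n => ?_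
  rw [descPochhammer_eval_eq_descFactorial]

end Pool.Agent.Work.MP_9eb367_co
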