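import Pool.Agent.Work.MP_9eb367_co.Part321

open Finset

namespace Pool.Agent.Work.MP_9eb367_co

/-- `π` contains the pattern `σ`. -/
def Contains {k n : ℕ} (σ : Equiv.Perm (Fin k)) (π : Equiv.Perm (Fin n)) : Prop :=
  ∃ f : Fin k ↪o Fin n, ∀ i j, σ i < σ j ↔ π (f i) < π (f j)

/-- Deleting at most `t` entries of `π` leaves a permutation avoiding `β`. -/
def AlmostAv {k : ℕ} (β : Equiv.Perm (Fin k)) (t : ℕ) {n : ℕ} (π : Equiv.Perm (Fin n)) : Prop :=
  ∃ (m : ℕ) (ρ : Equiv.Perm (Fin m)), n ≤ m + t ∧ Contains ρ π ∧ ¬ Contains β ρ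

/-- one-line notation -/
def wd {n : ℕ} (π : Equiv.Perm (Fin n)) : List ℕ := List.ofFn (fun i => (π i : ℕ))

theorem wd_mem {n : ℕ} (π : Equiv.Perm (Fin n)) : wd π ∈ pm n := by
  rw [mem_pm]
  unfold wd
  rw [List.perm_ext_iff_of_nodup]
  · intro a
    rw [List.mem_ofFn, List.mem_range]
    constructor
    · rintro ⟨i, rfl⟩; exact (π i).2
    · intro ha
      exact ⟨π.symm ⟨a, ha⟩, by simp⟩
  · rw [List.nodup_ofFn]
    intro i j h
    exact π.injective (Fin.ext h)
  · exact List.nodup_range

theorem card_perm_eq {n : ℕ} (P : Equiv.Perm (Fin n) → Prop) (Q : List ℕ → Prop)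
    [DecidablePred Q] (h : ∀ π, P π ↔ Q (wd π)) :
    Nat.card {π : Equiv.Perm (Fin n) // P π} = ((pm n).filter Q).card := by
  classical
  rw [Nat.card_eq_fintype_card, Fintype.card_subtype]
  refine Finset.card_bij (fun π _ => wd π) ?_ ?_ ?_
  · intro π hπ
    rw [mem_filter] at hπ ⊢
    exact ⟨wd_mem π, (h π).1 hπ.2⟩
  · intro π _ π' _ heq
    ext i
    have := congrFun (List.ofFn_injective heq) i
    exact this
  · intro w hw
    rw [mem_filter, mem_pm] at hw
    have hlen : w.length = n := by simpa using hw.1.length_eq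
    have hnd : w.Nodup := hw.1.nodup_iff.2 List.nodup_range
    have hlt : ∀ i : Fin n, w[(i : ℕ)]'(by rw [hlen]; exact i.2) < n := by
      intro i
      have := hw.1.mem_iff.1 (List.getElem_mem (l := w) (n := (i : ℕ)) (by rw [hlen]; exact i.2))
      rwa [List.mem_range] at this
    let f : Fin n → Fin n := fun i => ⟨w[(i : ℕ)]'(by rw [hlen]; exact i.2), hlt i⟩
    have hf : Function.Injective f := by
      intro i j hij
      have := congrArg Fin.val hij
      simp only [f] at this
      exact Fin.ext ((List.Nodup.getElem_inj_iff hnd).1 this)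
    let π : Equiv.Perm (Fin n) := Equiv.ofBijective f (Finite.injective_iff_bijective.1 hf)
    have hwd : wd π = w := by
      unfold wd
      apply List.ext_getElem
      · simp [hlen]
      · intro i h1 h2
        simp [π, f]
    refine ⟨π, ?_, hwd⟩
    rw [mem_filter, h π, hwd]
    exact ⟨mem_univ _, hw.2⟩

/-- `w` has no occurrence of `R` outside of `D`. -/
def AvW (R : ℕ → ℕ → ℕ → Prop) (w : List ℕ) (D : Finset ℕ) : Prop :=
  ∀ x y z, [x, y, z].Sublist w → x ∉ D → y ∉ D → z ∉ D → ¬ R x y z

theorem sublist_wd {n : ℕ} (π : Equiv.Perm (Fin n)) (x y z : ℕ) :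
    [x, y, z].Sublist (wd π) ↔ ∃ f : Fin 3 ↪o Fin n, x = π (f 0) ∧ y = π (f 1) ∧ z = π (f 2) := by
  have hlen : (wd π).length = n := by simp [wd]
  rw [List.sublist_iff_exists_fin_orderEmbedding_get_eq]
  constructor
  · rintro ⟨f, hf⟩
    refine ⟨f.trans (Fin.castOrderIso hlen).toOrderEmbedding, ?_, ?_, ?_⟩
    · have := hf ⟨0, by simp⟩
      simp only [List.get_eq_getElem, List.getElem_cons_zero] at this
      rw [this]
      simp [wd]
      rfl
    · have := hf ⟨1, by simp⟩
      simp only [List.get_eq_getElem, List.getElem_cons_succ, List.getElem_cons_zero] at this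
      rw [this]
      simp [wd]
      rfl
    · have := hf ⟨2, by simp⟩
      simp only [List.get_eq_getElem, List.getElem_cons_succ, List.getElem_cons_zero] at this
      rw [this]
      simp [wd]
      rfl
  · rintro ⟨f, h0, h1, h2⟩
    refine ⟨f.trans (Fin.castOrderIso hlen.symm).toOrderEmbedding, ?_⟩
    intro i
    fin_cases i
    · simp [wd, h0]; rfl
    · simp [wd, h1]; rfl
    · simp [wd, h2]; rfl

/-- Standardisation. -/
theorem exists_std {m n : ℕ} (g : Fin m → Fin n) (hg : Function.Injective g) :
    ∃ ρ : Equiv.Perm (Fin m), ∀ i j, ρ i < ρ j ↔ g i < g j := by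
  classical
  have hc : (univ.image g).card = m := by
    rw [Finset.card_image_of_injective _ hg]; simp
  let e := (univ.image g).orderIsoOfFin hc
  let f : Fin m → Fin m := fun i => e.symm ⟨g i, Finset.mem_image_of_mem g (mem_univ i)⟩
  have hf : Function.Injective f := by
    intro i j hij
    have := e.symm.injective hij
    exact hg (by simpa using this)
  refine ⟨Equiv.ofBijective f (Finite.injective_iff_bijective.1 hf), fun i j => ?_⟩
  simp only [Equiv.ofBijective_apply, f]
  rw [OrderIso.lt_iff_lt]
  simp

theorem almostAv_iff (β : Equiv.Perm (Fin 3)) (R : ℕ → ℕ → ℕ → Prop)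
    (hR : ∀ v : Fin 3 → ℕ, Function.Injective v →
      ((∀ i j, β i < β j ↔ v i < v j) ↔ R (v 0) (v 1) (v 2)))
    (t : ℕ) {n : ℕ} (π : Equiv.Perm (Fin n)) :
    AlmostAv β t π ↔ ∃ D : Finset ℕ, D ⊆ range n ∧ D.card ≤ t ∧ AvW R (wd π) D := by
  classical
  constructor
  · rintro ⟨m, ρ, hmn, ⟨f, hf⟩, hρ⟩
    refine ⟨(univ.filter (fun i : Fin n => i ∉ Set.range f)).image (fun i => (π i : ℕ)),
      ?_, ?_, ?_⟩
    · intro a ha
      rw [Finset.mem_image] at ha
      obtain ⟨i, _, rfl⟩ := ha
      rw [mem_range]; exact (π i).2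
    · refine Finset.card_image_le.trans ?_
      have h1 : (univ.filter (fun i : Fin n => i ∉ Set.range f)) = (univ.image f)ᶜ := by
        ext i; simp
      rw [h1, Finset.card_compl, Finset.card_image_of_injective _ f.injective]
      simp; omega
    · intro x y z hs hx hy hz hRR
      rw [sublist_wd] at hs
      obtain ⟨g, rfl, rfl, rfl⟩ := hs
      apply hρ
      have hmem : ∀ i : Fin 3, g i ∈ Set.range f := by
        have key : ∀ i : Fin n, (π i : ℕ) ∉ (univ.filter (fun i : Fin n =>
            i ∉ Set.range f)).image (fun i => (π i : ℕ)) → i ∈ Set.range f := by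
          intro i hi
          by_contra hc
          apply hi
          rw [Finset.mem_image]
          exact ⟨i, by rw [mem_filter]; exact ⟨mem_univ _, hc⟩, rfl⟩
        intro i
        fin_cases i
        · exact key _ hx
        · exact key _ hy
        · exact key _ hz
      choose g' hg' using hmem
      have hmono : StrictMono g' := by
        intro i j hij
        rw [← f.lt_iff_lt, hg', hg']
        exact g.strictMono hij
      refine ⟨OrderEmbedding.ofStrictMono g' hmono, ?_⟩
      have hinj : Function.Injective (fun i : Fin 3 => (π (g i) : ℕ)) := by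
        intro i j hij
        exact g.injective (π.injective (Fin.ext hij))
      have := (hR (fun i : Fin 3 => (π (g i) : ℕ)) hinj).2 hRR
      intro i j
      rw [this i j]
      simp only [OrderEmbedding.coe_ofStrictMono]
      rw [hf, hg', hg']
      rfl
  · rintro ⟨D, hDn, hDt, hD⟩
    set E : Finset (Fin n) := univ.filter (fun i => (π i : ℕ) ∉ D) with hE
    have hcard : n ≤ E.card + t := by
      have h1 : Eᶜ.card ≤ D.card := by
        refine Finset.card_le_card_of_injOn (fun i => (π i : ℕ)) ?_ ?_
        · intro i hi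
          simp [hE] at hi ⊢
          exact hi
        · intro i _ j _ h
          exact π.injective (Fin.ext h)
      have h2 := Finset.card_compl E
      have h3 := Finset.card_le_univ E
      simp at h2 h3
      omega
    let f := E.orderEmbOfFin rfl
    obtain ⟨ρ, hρ⟩ := exists_std (fun i => π (f i)) (fun i j h => f.injective (π.injective h))
    refine ⟨E.card, ρ, hcard, ⟨f, fun i j => hρ i j⟩, ?_⟩
    rintro ⟨g, hg⟩
    have hmem : ∀ i, (π (f i) : ℕ) ∉ D := by
      intro i
      have h1 : f i ∈ E := Finset.orderEmbOfFin_mem E rfl i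
      have h2 : f i ∈ univ.filter (fun i => (π i : ℕ) ∉ D) := h1
      exact (mem_filter.1 h2).2
    refine hD (π (f (g 0))) (π (f (g 1))) (π (f (g 2))) ?_ (hmem _) (hmem _) (hmem _) ?_
    · rw [sublist_wd]
      exact ⟨g.trans f, rfl, rfl, rfl⟩
    · have hinj : Function.Injective (fun i : Fin 3 => (π (f (g i)) : ℕ)) := by
        intro i j hij
        exact g.injective (f.injective (π.injective (Fin.ext hij)))
      refine (hR (fun i : Fin 3 => (π (f (g i)) : ℕ)) hinj).1 ?_
      intro i j
      rw [hg, hρ]
      rfl

/-- Splitting a word whose kept letters avoid 321. -/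
theorem split_of_avoid (D : Finset ℕ) : ∀ (w : List ℕ) (M : ℕ), w.Nodup →
    AvW (fun x y z => z < y ∧ y < x) w D →
    (∀ y z, [y, z].Sublist w → y ∉ D → z ∉ D → z < y → M ≤ y) →
    ∃ I J, Spl w I J ∧ I.Pairwise (· < ·) ∧ J.Pairwise (· < ·) ∧ (∀ a ∈ I, M ≤ a) ∧
      (∀ a ∈ I ++ J, a ∉ D) ∧ (∀ a ∈ I ++ J, a ∈ w) ∧
      (w.filter (fun a => a ∉ D)).length = I.length + J.length := by
  intro w
  induction w with
  | nil => intro M _ _ _; exact ⟨[], [], Spl.nil, by simp, by simp, by simp, by simp, by simp, by simp⟩
  | cons a w ih =>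
    intro M hnd hav hM
    have hnd' := List.nodup_cons.1 hnd
    have hav' : AvW (fun x y z => z < y ∧ y < x) w D :=
      fun x y z hs => hav x y z (hs.trans (List.sublist_cons_self a w))
    by_cases haD : a ∈ D
    · obtain ⟨I, J, h1, h2, h3, h4, h5, h6, h7⟩ := ih M hnd'.2 hav'
        (fun y z hs => hM y z (hs.trans (List.sublist_cons_self a w)))
      refine ⟨I, J, Spl.skip a h1, h2, h3, h4, h5, fun b hb => List.mem_cons_of_mem _ (h6 b hb), ?_⟩
      rw [List.filter_cons_of_neg (by simpa using haD), h7]
    · by_cases haM : a < M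
      · obtain ⟨I, J, h1, h2, h3, h4, h5, h6, h7⟩ := ih M hnd'.2 hav'
          (fun y z hs => hM y z (hs.trans (List.sublist_cons_self a w)))
        refine ⟨I, a :: J, Spl.right a h1, h2, ?_, h4, ?_, ?_, ?_⟩
        · rw [List.pairwise_cons]
          refine ⟨fun b hb => ?_, h3⟩
          have hbw : b ∈ w := h6 b (by simp [hb])
          have hbD : b ∉ D := h5 b (by simp [hb])
          have hab : a ≠ b := fun e => hnd'.1 (e ▸ hbw)
          by_contra hlt
          have := hM a b (by
            rw [List.cons_sublist_cons]; exact List.singleton_sublist.2 hbw) haD hbD (by omega)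
          omega
        · intro b hb
          rw [List.mem_append, List.mem_cons] at hb
          rcases hb with hb | rfl | hb
          · exact h5 b (by simp [hb])
          · exact haD
          · exact h5 b (by simp [hb])
        · intro b hb
          rw [List.mem_append, List.mem_cons] at hb
          rcases hb with hb | rfl | hb
          · exact List.mem_cons_of_mem _ (h6 b (by simp [hb]))
          · simp
          · exact List.mem_cons_of_mem _ (h6 b (by simp [hb]))
        · rw [List.filter_cons_of_pos (by simpa using haD), List.length_cons, h7,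
            List.length_cons]; omega
      · obtain ⟨I, J, h1, h2, h3, h4, h5, h6, h7⟩ := ih (a + 1) hnd'.2 hav' (by
          intro y z hs hy hz hzy
          by_contra hc
          have hyw : y ∈ w := hs.subset (by simp)
          have hay : a ≠ y := fun e => hnd'.1 (e ▸ hyw)
          refine hav a y z ?_ haD hy hz ⟨hzy, by omega⟩
          rw [List.cons_sublist_cons]; exact hs)
        refine ⟨a :: I, J, Spl.left a h1, ?_, h3, ?_, ?_, ?_, ?_⟩
        · rw [List.pairwise_cons]
          exact ⟨fun b hb => h4 b hb, h2⟩
        · intro b hb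
          rw [List.mem_cons] at hb
          rcases hb with rfl | hb
          · omega
          · have := h4 b hb; omega
        · intro b hb
          rw [List.cons_append, List.mem_cons] at hb
          rcases hb with rfl | hb
          · exact haD
          · exact h5 b hb
        · intro b hb
          rw [List.cons_append, List.mem_cons] at hb
          rcases hb with rfl | hb
          · simp
          · exact List.mem_cons_of_mem _ (h6 b hb)
        · rw [List.filter_cons_of_pos (by simpa using haD), List.length_cons, h7,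
            List.length_cons]; omega

theorem Spl.sublist_left {w I J : List ℕ} (h : Spl w I J) : I.Sublist w := by
  induction h with
  | nil => exact List.Sublist.refl _
  | left a _ ih => exact ih.cons_cons a
  | right a _ ih => exact ih.cons a
  | skip a _ ih => exact ih.cons a

theorem Spl.subperm {w I J : List ℕ} (h : Spl w I J) : (I ++ J).Subperm w := by
  induction h with
  | nil => exact List.Subperm.refl _
  | @left a w I J h ih => exact (List.subperm_cons a).2 ih
  | @right a w I J h ih =>
    have : (I ++ a :: J).Perm (a :: (I ++ J)) := List.perm_middle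
    exact this.subperm.trans ((List.subperm_cons a).2 ih)
  | @skip a w I J h ih => exact ih.trans (List.sublist_cons_self a w).subperm

theorem lt_of_pair {w I : List ℕ} (h : I.Sublist w) (hnd : w.Nodup)
    (hs : I.Pairwise (· < ·)) {x y : ℕ} (hx : x ∈ I) (hy : y ∈ I) (hxy : [x, y].Sublist w) :
    x < y := by
  induction h with
  | slnil => simp at hx
  | @cons I w a h ih =>
    have hnd' := List.nodup_cons.1 hnd
    rw [List.sublist_cons_iff] at hxy
    rcases hxy with hxy | ⟨r, hr, _⟩
    · exact ih hnd'.2 hs hx hy hxy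
    · simp only [List.cons.injEq] at hr
      exfalso
      exact hnd'.1 (hr.1 ▸ h.subset hx)
  | @cons_cons I w a h ih =>
    have hnd' := List.nodup_cons.1 hnd
    have hs' := List.pairwise_cons.1 hs
    rw [List.sublist_cons_iff] at hxy
    rcases hxy with hxy | ⟨r, hr, hrw⟩
    · have hxw : x ∈ w := hxy.subset (by simp)
      have hyw : y ∈ w := hxy.subset (by simp)
      have hxa : x ≠ a := fun e => hnd'.1 (e ▸ hxw)
      have hya : y ≠ a := fun e => hnd'.1 (e ▸ hyw)
      have hx' : x ∈ I := by
        rcases List.mem_cons.1 hx with h | h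
        · exact absurd h hxa
        · exact h
      have hy' : y ∈ I := by
        rcases List.mem_cons.1 hy with h | h
        · exact absurd h hya
        · exact h
      exact ih hnd'.2 hs'.2 hx' hy' hxy
    · simp only [List.cons.injEq] at hr
      obtain ⟨rfl, rfl⟩ := hr
      have hyw : y ∈ w := hrw.subset (by simp)
      have hya : y ≠ x := fun e => hnd'.1 (e ▸ hyw)
      have hy' : y ∈ I := by
        rcases List.mem_cons.1 hy with h | h
        · exact absurd h hya
        · exact h
      exact hs'.1 y hy'

theorem almostW_321_iff {n t : ℕ} {w : List ℕ} (hw : w ∈ pm n) :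
    (∃ D : Finset ℕ, D ⊆ range n ∧ D.card ≤ t ∧ AvW (fun x y z => z < y ∧ y < x) w D) ↔
      n - t ≤ sh (Pt w) 0 + sh (Pt w) 1 := by
  rw [mem_pm] at hw
  have hnd : w.Nodup := hw.nodup_iff.2 List.nodup_range
  have hlen : w.length = n := by simpa using hw.length_eq
  rw [← greene_two hnd]
  constructor
  · rintro ⟨D, hDn, hDt, hD⟩
    obtain ⟨I, J, h1, h2, h3, h4, h5, h6, h7⟩ := split_of_avoid D w 0 hnd hD (fun _ _ _ _ _ _ => by omega)
    refine ⟨I, J, h1, h2, h3, ?_⟩
    rw [← h7]
    have h8 : (w.filter (fun a => a ∈ D)).length ≤ D.card := by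
      rw [← List.toFinset_card_of_nodup (hnd.filter _)]
      apply Finset.card_le_card
      intro a ha
      rw [List.mem_toFinset, List.mem_filter] at ha
      simpa using ha.2
    have h9 := List.length_eq_length_filter_add (l := w) (fun a => decide (a ∈ D))
    have h10 : (w.filter (fun a => !decide (a ∈ D))) = w.filter (fun a => decide (a ∉ D)) := by
      congr 1
      funext a
      simp
    rw [h10] at h9
    omega
  · rintro ⟨I, J, hs, hI, hJ, hm⟩
    have hsp := hs.subperm
    have hnd' : (I ++ J).Nodup := by
      obtain ⟨l, hl1, hl2⟩ := hsp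
      exact hl1.nodup_iff.1 (hnd.sublist hl2)
    have hsub : (I ++ J).toFinset ⊆ range n := by
      intro a ha
      rw [List.mem_toFinset] at ha
      have := hw.mem_iff.1 (hsp.subset ha)
      simpa using this
    refine ⟨range n \ (I ++ J).toFinset, Finset.sdiff_subset, ?_, ?_⟩
    · rw [Finset.card_sdiff_of_subset hsub, List.toFinset_card_of_nodup hnd', card_range,
        List.length_append]
      omega
    · intro x y z hxyz hx hy hz hR
      have hmem : ∀ a ∈ w, a ∉ range n \ (I ++ J).toFinset → a ∈ I ∨ a ∈ J := by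
        intro a ha ha'
        have h1 : a ∈ range n := by
          have := hw.mem_iff.1 ha
          simpa using this
        by_contra hc
        apply ha'
        rw [Finset.mem_sdiff]
        refine ⟨h1, ?_⟩
        rw [List.mem_toFinset, List.mem_append]
        exact hc
      have hx' := hmem x (hxyz.subset (by simp)) hx
      have hy' := hmem y (hxyz.subset (by simp)) hy
      have hz' := hmem z (hxyz.subset (by simp)) hz
      have s1 : [x, y].Sublist w := List.Sublist.trans (by simp) hxyz
      have s2 : [y, z].Sublist w := List.Sublist.trans (by simp) hxyz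
      have s3 : [x, z].Sublist w := List.Sublist.trans (by simp) hxyz
      have lI := fun {a b} => lt_of_pair (x := a) (y := b) hs.sublist_left hnd hI
      have lJ := fun {a b} => lt_of_pair (x := a) (y := b) hs.symm.sublist_left hnd hJ
      rcases hx' with hx' | hx' <;> rcases hy' with hy' | hy' <;> rcases hz' with hz' | hz'
      · have := lI hx' hy' s1; omega
      · have := lI hx' hy' s1; omega
      · have := lI hx' hz' s3; omega
      · have := lJ hy' hz' s2; omega
      · have := lI hy' hz' s2; omega
      · have := lJ hx' hz' s3; omega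
      · have := lJ hx' hy' s1; omega
      · have := lJ hx' hy' s1; omega

/-- The pattern 321. -/
def p321 : Equiv.Perm (Fin 3) := Fin.revPerm

/-- The pattern 231. -/
def p231 : Equiv.Perm (Fin 3) := finRotate 3

theorem p321_R (v : Fin 3 → ℕ) (_ : Function.Injective v) :
    (∀ i j, p321 i < p321 j ↔ v i < v j) ↔ (v 2 < v 1 ∧ v 1 < v 0) := by
  constructor
  · intro h
    exact ⟨(h 2 1).1 (by decide), (h 1 0).1 (by decide)⟩
  · rintro ⟨h1, h2⟩ i j
    have e : ∀ i j : Fin 3, p321 i < p321 j ↔
        ((i = 2 ∧ j = 1) ∨ (i = 1 ∧ j = 0) ∨ (i = 2 ∧ j = 0)) := by decide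
    rw [e]
    fin_cases i <;> fin_cases j <;> simp <;> omega

theorem p231_R (v : Fin 3 → ℕ) (_ : Function.Injective v) :
    (∀ i j, p231 i < p231 j ↔ v i < v j) ↔ (v 2 < v 0 ∧ v 0 < v 1) := by
  constructor
  · intro h
    exact ⟨(h 2 0).1 (by decide), (h 0 1).1 (by decide)⟩
  · rintro ⟨h1, h2⟩ i j
    have e : ∀ i j : Fin 3, p231 i < p231 j ↔
        ((i = 0 ∧ j = 1) ∨ (i = 2 ∧ j = 0) ∨ (i = 2 ∧ j = 1)) := by decide
    rw [e]
    fin_cases i <;> fin_cases j <;> simp <;> omega

theorem seqK_perm_321 (t : ℕ) :
    SeqK (fun n => (Nat.card {π : Equiv.Perm (Fin n) // AlmostAv p321 t π} : ℚ)) := by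
  refine (seqK_321 t).congr fun n => ?_
  rw [card_perm_eq (fun π => AlmostAv p321 t π)
    (fun w => n - t ≤ sh (Pt w) 0 + sh (Pt w) 1)]
  intro π
  rw [almostAv_iff p321 (fun x y z => z < y ∧ y < x) p321_R, almostW_321_iff (wd_mem π)]

end Pool.Agent.Work.MP_9eb367_co
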