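import Pool.Agent.Work.MP_9eb367_co.Trees
import Pool.Agent.Work.MP_9eb367_co.Bridge

open Finset

namespace Pool.Agent.Work.MP_9eb367_co

namespace MT

/-- Number of value slots covered. -/
def wt (D : MT) : ℕ := sz D + lb D

theorem wt_leaf (a : ℕ) : wt (leaf a) = 0 := rfl

theorem wt_node (L : MT) (b : ℕ) (R : MT) : wt (node L b R) = wt L + wt R + b + 1 := by
  simp only [wt, sz, lb]; omega

/-- Word of a tree: `lo` is the value offset, `M` the list of mark letters in position order. -/
def pw : MT → ℕ → List ℕ → List ℕ
  | leaf a, _, M => M.take a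
  | node L b R, lo, M => pw L lo (M.take (la L)) ++
      (lo + wt L + wt R + b) :: pw R (lo + wt L) (M.drop (la L))

/-- Mark letters in value order (those below some node). -/
def gm : MT → ℕ → List ℕ
  | leaf _, _ => []
  | node L b R, lo => gm L lo ++ gm R (lo + wt L) ++ List.range' (lo + wt L + wt R) b

/-- Nodes in position order with their values and cells. -/
def nd : MT → ℕ → ℕ → ℕ → List (ℕ × Cell)
  | leaf _, _, _, _ => []
  | node L b R, lo, i0, j0 => nd L lo i0 j0 ++
      (lo + wt L + wt R + b, (i0 + la L, j0 + (lb L + lb R + b))) ::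
      nd R (lo + wt L) (i0 + la L) (j0 + lb L)

theorem gm_length (D : MT) (lo : ℕ) : (gm D lo).length = lb D := by
  induction D generalizing lo with
  | leaf a => rfl
  | node L b R ihL ihR => simp [gm, lb, ihL, ihR]; omega

theorem nd_length (D : MT) (lo i j : ℕ) : (nd D lo i j).length = sz D := by
  induction D generalizing lo i j with
  | leaf a => rfl
  | node L b R ihL ihR => simp [nd, sz, ihL, ihR]; omega

theorem gm_bound {D : MT} {lo x : ℕ} (h : x ∈ gm D lo) : lo ≤ x ∧ x < lo + wt D := by
  induction D generalizing lo with
  | leaf a => simp [gm] at h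
  | node L b R ihL ihR =>
    simp only [gm, List.mem_append, List.mem_range'_1] at h
    rw [wt_node]
    rcases h with (h | h) | h
    · have := ihL h; omega
    · have := ihR h; omega
    · omega

theorem nd_bound {D : MT} {lo i j : ℕ} {x : ℕ × Cell} (h : x ∈ nd D lo i j) :
    lo ≤ x.1 ∧ x.1 < lo + wt D := by
  induction D generalizing lo i j with
  | leaf a => simp [nd] at h
  | node L b R ihL ihR =>
    simp only [nd, List.mem_append, List.mem_cons] at h
    rw [wt_node]
    rcases h with h | rfl | h
    · have := ihL h; omega
    · simp only; omega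
    · have := ihR h; omega

/-- (A) nodes and marks fill the value interval. -/
theorem nd_gm_perm (D : MT) (lo i j : ℕ) :
    ((nd D lo i j).map Prod.fst ++ gm D lo).Perm (List.range' lo (wt D)) := by
  induction D generalizing lo i j with
  | leaf a => simp [nd, gm, wt_leaf]
  | node L b R ihL ihR =>
    have hL := ihL lo i j
    have hR := ihR (lo + wt L) (i + la L) (j + lb L)
    simp only [nd, gm, List.map_append, List.map_cons]
    have e : List.range' lo (wt (node L b R)) = List.range' lo (wt L) ++
        (List.range' (lo + wt L) (wt R) ++ (List.range' (lo + wt L + wt R) b ++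
          [lo + wt L + wt R + b])) := by
      rw [wt_node]
      have e1 := List.range'_append (s := lo + wt L + wt R) (m := b) (n := 1) (step := 1)
      have e2 := List.range'_append (s := lo + wt L) (m := wt R) (n := b + 1) (step := 1)
      have e3 := List.range'_append (s := lo) (m := wt L) (n := wt R + (b + 1)) (step := 1)
      simp only [one_mul, List.range'_one] at e1 e2 e3
      rw [e1, e2, e3]
      congr 1; omega
    rw [e]
    refine List.Perm.trans ?_ (List.Perm.append hL (List.Perm.append hR (List.Perm.refl _)))
    rw [← Multiset.coe_eq_coe]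
    simp only [← Multiset.coe_add, ← Multiset.cons_coe]
    simp only [← Multiset.singleton_add, Multiset.coe_nil]
    abel

/-- (B) the word consists of the nodes and the marks. -/
theorem pw_perm (D : MT) (lo i j : ℕ) (M : List ℕ) (hM : M.length = la D) :
    (pw D lo M).Perm ((nd D lo i j).map Prod.fst ++ M) := by
  induction D generalizing lo i j M with
  | leaf a =>
    simp only [la] at hM
    simp [pw, nd, ← hM]
  | node L b R ihL ihR =>
    simp only [la] at hM
    have hL := ihL lo i j (M.take (la L)) (by simp; omega)
    have hR := ihR (lo + wt L) (i + la L) (j + lb L) (M.drop (la L)) (by simp; omega)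
    simp only [pw, nd, List.map_append, List.map_cons]
    refine (List.Perm.append hL (List.Perm.cons _ hR)).trans ?_
    conv_rhs => rw [← List.take_append_drop (la L) M]
    rw [← Multiset.coe_eq_coe]
    simp only [← Multiset.coe_add, ← Multiset.cons_coe]
    simp only [← Multiset.singleton_add, Multiset.coe_nil]
    abel

/-- (C) marks are sorted. -/
theorem gm_sorted (D : MT) (lo : ℕ) : (gm D lo).Pairwise (· < ·) := by
  induction D generalizing lo with
  | leaf a => simp [gm]
  | node L b R ihL ihR =>
    simp only [gm]
    rw [List.pairwise_append, List.pairwise_append]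
    refine ⟨⟨ihL lo, ihR _, ?_⟩, List.pairwise_lt_range' .., ?_⟩
    · intro x hx y hy
      have := gm_bound hx; have := gm_bound hy; omega
    · intro x hx y hy
      rw [List.mem_range'_1] at hy
      rw [List.mem_append] at hx
      rcases hx with hx | hx
      · have := gm_bound hx; omega
      · have := gm_bound hx; omega

/-- (E) number of marks below a node. -/
theorem nd_split_gm {D : MT} {lo i0 j0 v : ℕ} {c : Cell} (h : (v, c) ∈ nd D lo i0 j0) :
    ∃ G1 G2, gm D lo = G1 ++ G2 ∧ c.2 = j0 + G1.length ∧ (∀ g ∈ G1, g < v) ∧
      (∀ g ∈ G2, v < g) := by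
  induction D generalizing lo i0 j0 with
  | leaf a => simp [nd] at h
  | node L b R ihL ihR =>
    simp only [nd, List.mem_append, List.mem_cons, Prod.mk.injEq] at h
    rcases h with h | ⟨rfl, rfl⟩ | h
    · obtain ⟨G1, G2, h1, h2, h3, h4⟩ := ihL h
      have hv := nd_bound h
      refine ⟨G1, G2 ++ gm R (lo + wt L) ++ List.range' (lo + wt L + wt R) b, ?_, h2, h3, ?_⟩
      · simp [gm, h1]
      · intro g hg
        simp only [List.mem_append, List.mem_range'_1] at hg
        simp only at hv
        rcases hg with (hg | hg) | hg
        · exact h4 g hg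
        · have := gm_bound hg; omega
        · omega
    · refine ⟨gm (node L b R) lo, [], by simp, ?_, ?_, by simp⟩
      · rw [gm_length]; rfl
      · intro g hg
        simp only [gm, List.mem_append, List.mem_range'_1] at hg
        rcases hg with (hg | hg) | hg
        · have := gm_bound hg; omega
        · have := gm_bound hg; omega
        · omega
    · obtain ⟨G1, G2, h1, h2, h3, h4⟩ := ihR h
      have hv := nd_bound h
      simp only at hv
      refine ⟨gm L lo ++ G1, G2 ++ List.range' (lo + wt L + wt R) b, ?_, ?_, ?_, ?_⟩
      · simp [gm, h1]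
      · rw [List.length_append, gm_length, h2]; omega
      · intro g hg
        rw [List.mem_append] at hg
        rcases hg with hg | hg
        · have := gm_bound hg; omega
        · exact h3 g hg
      · intro g hg
        rw [List.mem_append, List.mem_range'_1] at hg
        rcases hg with hg | hg
        · exact h4 g hg
        · omega

/-- (F) marks to the left and to the right of a node. -/
theorem nd_split_pw {D : MT} {lo i0 j0 v : ℕ} {c : Cell} (h : (v, c) ∈ nd D lo i0 j0)
    (M : List ℕ) (hM : M.length = la D) :
    ∃ k w1 w2, c.1 = i0 + k ∧ k ≤ la D ∧ pw D lo M = w1 ++ v :: w2 ∧ (M.take k).Sublist w1 ∧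
      (M.drop k).Sublist w2 := by
  have hsub : ∀ (D : MT) (lo : ℕ) (M : List ℕ), M.length = la D → M.Sublist (pw D lo M) := by
    intro D
    induction D with
    | leaf a => intro lo M hM; simp only [la] at hM; simp [pw, ← hM]
    | node L b R ihL ihR =>
      intro lo M hM
      simp only [la] at hM
      simp only [pw]
      conv_lhs => rw [← List.take_append_drop (la L) M]
      refine List.Sublist.append (ihL _ _ (by simp; omega)) ?_
      exact (ihR _ _ (by simp; omega)).cons _
  induction D generalizing lo i0 j0 M with
  | leaf a => simp [nd] at h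
  | node L b R ihL ihR =>
    simp only [la] at hM
    have lL : (M.take (la L)).length = la L := by simp; omega
    have lR : (M.drop (la L)).length = la R := by simp; omega
    simp only [nd, List.mem_append, List.mem_cons, Prod.mk.injEq] at h
    simp only [pw, la]
    rcases h with h | ⟨rfl, rfl⟩ | h
    · obtain ⟨k, w1, w2, h1, h2, h3, h4, h5⟩ := ihL h (M.take (la L)) lL
      refine ⟨k, w1, w2 ++ (lo + wt L + wt R + b) :: pw R (lo + wt L) (M.drop (la L)), h1,
        by omega, by rw [h3]; simp, ?_, ?_⟩
      · rw [List.take_take] at h4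
        rwa [min_eq_left h2] at h4
      · have : M.drop k = (M.take (la L)).drop k ++ M.drop (la L) := by
          conv_lhs => rw [← List.take_append_drop (la L) M]
          rw [List.drop_append_of_le_length (by rw [lL]; exact h2)]
        rw [this]
        exact h5.append ((hsub R _ _ lR).cons _)
    · refine ⟨la L, _, _, rfl, by omega, rfl, hsub L _ _ lL, hsub R _ _ lR⟩
    · obtain ⟨k, w1, w2, h1, h2, h3, h4, h5⟩ := ihR h (M.drop (la L)) lR
      refine ⟨la L + k, pw L lo (M.take (la L)) ++ (lo + wt L + wt R + b) :: w1, w2, ?_,
        by omega, by rw [h3]; simp, ?_, ?_⟩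
      · rw [h1]; omega
      · rw [List.take_add]
        exact (hsub L _ _ lL).append (h4.cons _)
      · rwa [List.drop_drop] at h5

/-- (G) marks appear in order. -/
theorem marks_sublist : ∀ (D : MT) (lo : ℕ) (M : List ℕ), M.length = la D →
    M.Sublist (pw D lo M) := by
  intro D
  induction D with
  | leaf a => intro lo M hM; simp only [la] at hM; simp [pw, ← hM]
  | node L b R ihL ihR =>
    intro lo M hM
    simp only [la] at hM
    simp only [pw]
    conv_lhs => rw [← List.take_append_drop (la L) M]
    refine List.Sublist.append (ihL _ _ (by simp; omega)) ?_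
    exact (ihR _ _ (by simp; omega)).cons _

theorem nodes_sublist : ∀ (D : MT) (lo i j : ℕ) (M : List ℕ), M.length = la D →
    ((nd D lo i j).map Prod.fst).Sublist (pw D lo M) := by
  intro D
  induction D with
  | leaf a => intro lo i j M hM; simp [nd]
  | node L b R ihL ihR =>
    intro lo i j M hM
    simp only [la] at hM
    simp only [pw, nd, List.map_append, List.map_cons]
    refine List.Sublist.append (ihL _ _ _ _ (by simp; omega)) ?_
    exact (ihR _ _ _ _ (by simp; omega)).cons_cons _

theorem nd_cell_bound {D : MT} {lo i0 j0 : ℕ} {x : ℕ × Cell} (h : x ∈ nd D lo i0 j0) :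
    i0 ≤ x.2.1 ∧ j0 ≤ x.2.2 := by
  induction D generalizing lo i0 j0 with
  | leaf a => simp [nd] at h
  | node L b R ihL ihR =>
    simp only [nd, List.mem_append, List.mem_cons] at h
    rcases h with h | rfl | h
    · exact ihL h
    · simp only; omega
    · have := ihR h; omega

/-- (H) types in terms of nodes. -/
theorem mem_tp_one {D : MT} {c : Cell} (lo i0 j0 : ℕ) :
    c ∈ (tp D).1 ↔ ∃ v, (v, sft i0 j0 c) ∈ nd D lo i0 j0 := by
  induction D generalizing lo i0 j0 c with
  | leaf a => simp [tp, nd]
  | node L b R ihL ihR =>
    simp only [tp, comp, nd, mem_union, mem_singleton, mem_image, List.mem_append, List.mem_cons,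
      Prod.mk.injEq, exists_or]
    rw [ihL lo i0 j0]
    constructor
    · rintro ((⟨v, hv⟩ | rfl) | ⟨c', hc', rfl⟩)
      · exact Or.inl ⟨v, hv⟩
      · exact Or.inr (Or.inl ⟨_, rfl, by simp [sft]⟩)
      · rw [ihR (lo + wt L) (i0 + la L) (j0 + lb L)] at hc'
        obtain ⟨v, hv⟩ := hc'
        refine Or.inr (Or.inr ⟨v, ?_⟩)
        have : sft i0 j0 (sft (la L) (lb L) c') = sft (i0 + la L) (j0 + lb L) c' := by
          simp [sft, add_assoc]
        rw [this]; exact hv
    · rintro (⟨v, hv⟩ | ⟨v, _, hc⟩ | ⟨v, hv⟩)
      · exact Or.inl (Or.inl ⟨v, hv⟩)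
      · refine Or.inl (Or.inr ?_)
        simp only [sft, Prod.mk.injEq] at hc
        exact Prod.ext (by simpa using hc.1) (by simpa using hc.2)
      · have hb := nd_cell_bound hv
        refine Or.inr ⟨(c.1 - la L, c.2 - lb L), ?_, ?_⟩
        · rw [ihR (lo + wt L) (i0 + la L) (j0 + lb L)]
          refine ⟨v, ?_⟩
          have : sft (i0 + la L) (j0 + lb L) (c.1 - la L, c.2 - lb L) = sft i0 j0 c := by
            simp only [sft, Prod.mk.injEq] at hb ⊢
            omega
          rw [this]; exact hv
        · simp only [sft] at hb ⊢
          apply Prod.ext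
          · simp only; omega
          · simp only; omega

theorem sft_sft (i0 j0 i j : ℕ) (c : Cell) : sft i0 j0 (sft i j c) = sft (i0 + i) (j0 + j) c := by
  simp [sft, add_assoc]

theorem sft_inj {i j : ℕ} {c c' : Cell} (h : sft i j c = sft i j c') : c = c' := by
  simp only [sft, Prod.mk.injEq] at h
  exact Prod.ext (by omega) (by omega)

theorem exists_unsft {i j : ℕ} {c : Cell} (h1 : i ≤ c.1) (h2 : j ≤ c.2) :
    ∃ c', c = sft i j c' := by
  refine ⟨(c.1 - i, c.2 - j), ?_⟩
  simp only [sft]
  exact Prod.ext (by simp only; omega) (by simp only; omega)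

theorem mem_tp_two {D : MT} {c c' : Cell} {β : Bool} (lo i0 j0 : ℕ) :
    (c, c', β) ∈ (tp D).2 ↔ ∃ v v', [(v, sft i0 j0 c), (v', sft i0 j0 c')].Sublist
      (nd D lo i0 j0) ∧ β = decide (v < v') := by
  induction D generalizing lo i0 j0 c c' β with
  | leaf a => simp [tp, nd]
  | node L b R ihL ihR =>
    have hone : ∀ (D : MT) (lo i0 j0 : ℕ) (c : Cell), c ∈ (tp D).1 ↔
        ∃ v, (v, sft i0 j0 c) ∈ nd D lo i0 j0 := fun D lo i0 j0 c => mem_tp_one lo i0 j0
    simp only [tp, comp, mem_union, mem_image, mem_product]
    constructor
    · rintro ((((h | ⟨⟨x, y, γ⟩, hx, h⟩) | ⟨x, hx, h⟩) | ⟨⟨x, y⟩, ⟨hx, hy⟩, h⟩) | ⟨x, hx, h⟩)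
      · obtain ⟨v, v', hs, hβ⟩ := (ihL lo i0 j0).1 h
        refine ⟨v, v', ?_, hβ⟩
        simp only [nd]
        exact hs.trans (List.sublist_append_left _ _)
      · simp only [Prod.mk.injEq] at h
        obtain ⟨rfl, rfl, rfl⟩ := h
        obtain ⟨v, v', hs, hβ⟩ := (ihR (lo + wt L) (i0 + la L) (j0 + lb L)).1 hx
        refine ⟨v, v', ?_, hβ⟩
        simp only [nd, sft_sft]
        exact hs.trans ((List.sublist_cons_self _ _).trans (List.sublist_append_right _ _))
      · simp only [Prod.mk.injEq] at h
        obtain ⟨rfl, rfl, rfl⟩ := h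
        obtain ⟨v, hv⟩ := (hone L lo i0 j0 x).1 hx
        have hb := nd_bound hv
        simp only at hb
        refine ⟨v, lo + wt L + wt R + b, ?_, by symm; rw [decide_eq_true_iff]; omega⟩
        simp only [nd]
        have : [(v, sft i0 j0 x), (lo + wt L + wt R + b, sft i0 j0 (la L, lb L + lb R + b))] =
            [(v, sft i0 j0 x)] ++ [(lo + wt L + wt R + b, sft i0 j0 (la L, lb L + lb R + b))] := rfl
        rw [this]
        refine List.Sublist.append (List.singleton_sublist.2 hv) ?_
        rw [List.singleton_sublist]
        simp [sft]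
      · simp only [Prod.mk.injEq] at h
        obtain ⟨rfl, rfl, rfl⟩ := h
        obtain ⟨v, hv⟩ := (hone L lo i0 j0 x).1 hx
        obtain ⟨v', hv'⟩ := (hone R (lo + wt L) (i0 + la L) (j0 + lb L) y).1 hy
        have hb := nd_bound hv
        have hb' := nd_bound hv'
        simp only at hb hb'
        refine ⟨v, v', ?_, by symm; rw [decide_eq_true_iff]; omega⟩
        simp only [nd, sft_sft]
        have : [(v, sft i0 j0 x), (v', sft (i0 + la L) (j0 + lb L) y)] =
            [(v, sft i0 j0 x)] ++ [(v', sft (i0 + la L) (j0 + lb L) y)] := rfl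
        rw [this]
        refine List.Sublist.append (List.singleton_sublist.2 hv) ?_
        rw [List.singleton_sublist]
        exact List.mem_cons_of_mem _ hv'
      · simp only [Prod.mk.injEq] at h
        obtain ⟨rfl, rfl, rfl⟩ := h
        obtain ⟨v', hv'⟩ := (hone R (lo + wt L) (i0 + la L) (j0 + lb L) x).1 hx
        have hb' := nd_bound hv'
        simp only at hb'
        refine ⟨lo + wt L + wt R + b, v', ?_, by symm; rw [decide_eq_false_iff_not]; omega⟩
        simp only [nd, sft_sft]
        refine List.Sublist.trans ?_ (List.sublist_append_right _ _)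
        have : (lo + wt L + wt R + b, sft i0 j0 (la L, lb L + lb R + b)) =
            (lo + wt L + wt R + b, (i0 + la L, j0 + (lb L + lb R + b))) := by simp [sft]
        rw [this, List.cons_sublist_cons, List.singleton_sublist]
        exact hv'
    · rintro ⟨v, v', hs, hβ⟩
      simp only [nd] at hs
      rw [List.sublist_append_iff] at hs
      obtain ⟨l1, l2, he, hs1, hs2⟩ := hs
      rcases l1 with _ | ⟨a, _ | ⟨a', _ | ⟨a'', l1⟩⟩⟩
      · -- both in root :: R
        simp only [List.nil_append] at he
        subst he
        rw [List.sublist_cons_iff] at hs2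
        rcases hs2 with hs2 | ⟨r, hr, hs2⟩
        · have m1 := nd_cell_bound (hs2.subset (by simp : (v, sft i0 j0 c) ∈ _))
          have m2 := nd_cell_bound (hs2.subset (by simp : (v', sft i0 j0 c') ∈ _))
          simp only [sft] at m1 m2
          obtain ⟨x, rfl⟩ := exists_unsft (i := la L) (j := lb L) (c := c) (by omega) (by omega)
          obtain ⟨y, rfl⟩ := exists_unsft (i := la L) (j := lb L) (c := c') (by omega) (by omega)
          rw [sft_sft, sft_sft] at hs2
          left; left; left; right
          exact ⟨(x, y, β), (ihR (lo + wt L) (i0 + la L) (j0 + lb L)).2 ⟨v, v', hs2, hβ⟩, rfl⟩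
        · simp only [List.cons.injEq, Prod.mk.injEq] at hr
          obtain ⟨⟨hv, hc⟩, rfl⟩ := hr
          rw [List.singleton_sublist] at hs2
          have hb' := nd_bound hs2
          have m2 := nd_cell_bound hs2
          simp only [sft] at m2 hb'
          obtain ⟨y, rfl⟩ := exists_unsft (i := la L) (j := lb L) (c := c') (by omega) (by omega)
          rw [sft_sft] at hs2
          have hc' : c = (la L, lb L + lb R + b) := by
            simp only [sft, Prod.mk.injEq] at hc
            exact Prod.ext (by omega) (by omega)
          right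
          refine ⟨y, (hone R (lo + wt L) (i0 + la L) (j0 + lb L) y).2 ⟨v', hs2⟩, ?_⟩
          rw [hc', hβ]
          congr 2
          symm
          rw [decide_eq_false_iff_not]; omega
      · simp only [List.cons_append, List.nil_append, List.cons.injEq] at he
        obtain ⟨rfl, rfl⟩ := he
        rw [List.singleton_sublist] at hs1
        have hb := nd_bound hs1
        have hc := (hone L lo i0 j0 c).2 ⟨v, hs1⟩
        rw [List.singleton_sublist, List.mem_cons] at hs2
        simp only at hb
        rcases hs2 with hs2 | hs2
        · simp only [Prod.mk.injEq] at hs2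
          obtain ⟨rfl, hc2⟩ := hs2
          have hc' : c' = (la L, lb L + lb R + b) := by
            simp only [sft, Prod.mk.injEq] at hc2
            exact Prod.ext (by omega) (by omega)
          left; left; right
          refine ⟨c, hc, ?_⟩
          rw [hc', hβ]
          congr 2
          symm
          rw [decide_eq_true_iff]; omega
        · have m2 := nd_cell_bound hs2
          have hb' := nd_bound hs2
          simp only [sft] at m2 hb'
          obtain ⟨y, rfl⟩ := exists_unsft (i := la L) (j := lb L) (c := c') (by omega) (by omega)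
          rw [sft_sft] at hs2
          left; right
          refine ⟨(c, y), ⟨hc, (hone R (lo + wt L) (i0 + la L) (j0 + lb L) y).2 ⟨v', hs2⟩⟩, ?_⟩
          simp only
          rw [hβ]
          congr 2
          symm
          rw [decide_eq_true_iff]; omega
      · simp only [List.cons_append, List.nil_append, List.cons.injEq] at he
        obtain ⟨rfl, rfl, rfl⟩ := he
        left; left; left; left
        exact (ihL lo i0 j0).2 ⟨v, v', hs1, hβ⟩
      · simp at he

/-- (I) the node values avoid 231. -/
theorem nd_avoid (D : MT) (lo i j : ℕ) :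
    ((nd D lo i j).map Prod.fst).Triplewise (fun x y z => ¬ (z < x ∧ x < y)) := by
  induction D generalizing lo i j with
  | leaf a => simp [nd, List.Triplewise]
  | node L b R ihL ihR =>
    have bL : ∀ x ∈ (nd L lo i j).map Prod.fst, lo ≤ x ∧ x < lo + wt L := by
      intro x hx
      rw [List.mem_map] at hx
      obtain ⟨y, hy, rfl⟩ := hx
      exact nd_bound hy
    have bR : ∀ x ∈ (nd R (lo + wt L) (i + la L) (j + lb L)).map Prod.fst,
        lo + wt L ≤ x ∧ x < lo + wt L + wt R := by
      intro x hx
      rw [List.mem_map] at hx
      obtain ⟨y, hy, rfl⟩ := hx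
      exact nd_bound hy
    simp only [nd, List.map_append, List.map_cons]
    rw [List.triplewise_append, List.triplewise_cons]
    refine ⟨ihL _ _ _, ⟨?_, ihR _ _ _⟩, ?_, ?_⟩
    · rw [List.pairwise_iff_forall_sublist]
      intro x y hxy
      have := bR x (hxy.subset (by simp))
      omega
    · intro x hx
      have h1 := bL x hx
      rw [List.pairwise_cons]
      refine ⟨?_, ?_⟩
      · intro z hz
        have := bR z hz
        omega
      · rw [List.pairwise_iff_forall_sublist]
        intro y z hyz
        have := bR z (hyz.subset (by simp))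
        omega
    · intro z hz
      rw [List.pairwise_iff_forall_sublist]
      intro x y hxy
      have h1 := bL x (hxy.subset (by simp))
      rw [List.mem_cons] at hz
      rcases hz with rfl | hz
      · omega
      · have := bR z hz; omega

end MT

end Pool.Agent.Work.MP_9eb367_co
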