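import Pool.Agent.Work.MP_9eb367_co.RSKTabs

set_option linter.unusedTactic false
set_option linter.unusedVariables false

namespace Pool.Agent.Work.MP_9eb367_co

/-- `I` and `J` are disjoint subsequences of `w`. -/
inductive Spl : List ℕ → List ℕ → List ℕ → Prop
  | nil : Spl [] [] []
  | left (a : ℕ) {w I J : List ℕ} : Spl w I J → Spl (a :: w) (a :: I) J
  | right (a : ℕ) {w I J : List ℕ} : Spl w I J → Spl (a :: w) I (a :: J)
  | skip (a : ℕ) {w I J : List ℕ} : Spl w I J → Spl (a :: w) I J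

theorem Spl.symm {w I J : List ℕ} (h : Spl w I J) : Spl w J I := by
  induction h with
  | nil => exact Spl.nil
  | left a _ ih => exact Spl.right a ih
  | right a _ ih => exact Spl.left a ih
  | skip a _ ih => exact Spl.skip a ih

theorem Spl.append {w I J w' I' J' : List ℕ} (h : Spl w I J) (h' : Spl w' I' J') :
    Spl (w ++ w') (I ++ I') (J ++ J') := by
  induction h with
  | nil => exact h'
  | left a _ ih => exact Spl.left a ih
  | right a _ ih => exact Spl.right a ih
  | skip a _ ih => exact Spl.skip a ih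

theorem Spl.of_append {w w' : List ℕ} : ∀ {I J : List ℕ}, Spl (w ++ w') I J →
    ∃ I1 I2 J1 J2, I = I1 ++ I2 ∧ J = J1 ++ J2 ∧ Spl w I1 J1 ∧ Spl w' I2 J2 := by
  induction w with
  | nil => intro I J h; exact ⟨[], I, [], J, rfl, rfl, Spl.nil, h⟩
  | cons a w ih =>
    intro I J h
    rw [List.cons_append] at h
    cases h with
    | left _ h =>
      obtain ⟨I1, I2, J1, J2, e1, e2, h1, h2⟩ := ih h
      exact ⟨a :: I1, I2, J1, J2, by simp [e1], e2, Spl.left a h1, h2⟩
    | right _ h =>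
      obtain ⟨I1, I2, J1, J2, e1, e2, h1, h2⟩ := ih h
      exact ⟨I1, I2, a :: J1, J2, e1, by simp [e2], Spl.right a h1, h2⟩
    | skip _ h =>
      obtain ⟨I1, I2, J1, J2, e1, e2, h1, h2⟩ := ih h
      exact ⟨I1, I2, J1, J2, e1, e2, Spl.skip a h1, h2⟩

/-- `w` contains two disjoint increasing subsequences of total length at least `m`. -/
def TwoInc (w : List ℕ) (m : ℕ) : Prop :=
  ∃ I J, Spl w I J ∧ I.Pairwise (· < ·) ∧ J.Pairwise (· < ·) ∧ m ≤ I.length + J.length

/-- Middle part analysis: `x z y` versus `z x y`. -/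
theorem spl_mid1 {x z y : ℕ} {I J : List ℕ} (hxy : x < y) (hyz : y < z)
    (h : Spl [x, z, y] I J) (hI : I.Pairwise (· < ·)) (hJ : J.Pairwise (· < ·)) :
    Spl [z, x, y] I J ∨ (I = [x, z] ∧ J = [y]) ∨ (I = [x, z] ∧ J = []) ∨
      (J = [x, z] ∧ I = [y]) ∨ (J = [x, z] ∧ I = []) := by
  rcases h with _ | ⟨_, h⟩ | ⟨_, h⟩ | ⟨_, h⟩ <;> rcases h with _ | ⟨_, h⟩ | ⟨_, h⟩ | ⟨_, h⟩ <;>
    rcases h with _ | ⟨_, h⟩ | ⟨_, h⟩ | ⟨_, h⟩ <;> cases h <;>
    (try simp only [List.pairwise_cons, List.mem_cons, forall_eq_or_imp] at hI) <;>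
    (try simp only [List.pairwise_cons, List.mem_cons, forall_eq_or_imp] at hJ)
  all_goals first
    | (exfalso; omega)
    | (right; simp; done)
    | (left; exact Spl.left _ (Spl.left _ (Spl.left _ Spl.nil)))
    | (left; exact Spl.left _ (Spl.left _ (Spl.right _ Spl.nil)))
    | (left; exact Spl.left _ (Spl.left _ (Spl.skip _ Spl.nil)))
    | (left; exact Spl.left _ (Spl.right _ (Spl.left _ Spl.nil)))
    | (left; exact Spl.left _ (Spl.right _ (Spl.right _ Spl.nil)))
    | (left; exact Spl.left _ (Spl.right _ (Spl.skip _ Spl.nil)))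
    | (left; exact Spl.left _ (Spl.skip _ (Spl.left _ Spl.nil)))
    | (left; exact Spl.left _ (Spl.skip _ (Spl.right _ Spl.nil)))
    | (left; exact Spl.left _ (Spl.skip _ (Spl.skip _ Spl.nil)))
    | (left; exact Spl.right _ (Spl.left _ (Spl.left _ Spl.nil)))
    | (left; exact Spl.right _ (Spl.left _ (Spl.right _ Spl.nil)))
    | (left; exact Spl.right _ (Spl.left _ (Spl.skip _ Spl.nil)))
    | (left; exact Spl.right _ (Spl.right _ (Spl.left _ Spl.nil)))
    | (left; exact Spl.right _ (Spl.right _ (Spl.right _ Spl.nil)))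
    | (left; exact Spl.right _ (Spl.right _ (Spl.skip _ Spl.nil)))
    | (left; exact Spl.right _ (Spl.skip _ (Spl.left _ Spl.nil)))
    | (left; exact Spl.right _ (Spl.skip _ (Spl.right _ Spl.nil)))
    | (left; exact Spl.right _ (Spl.skip _ (Spl.skip _ Spl.nil)))
    | (left; exact Spl.skip _ (Spl.left _ (Spl.left _ Spl.nil)))
    | (left; exact Spl.skip _ (Spl.left _ (Spl.right _ Spl.nil)))
    | (left; exact Spl.skip _ (Spl.left _ (Spl.skip _ Spl.nil)))
    | (left; exact Spl.skip _ (Spl.right _ (Spl.left _ Spl.nil)))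
    | (left; exact Spl.skip _ (Spl.right _ (Spl.right _ Spl.nil)))
    | (left; exact Spl.skip _ (Spl.right _ (Spl.skip _ Spl.nil)))
    | (left; exact Spl.skip _ (Spl.skip _ (Spl.left _ Spl.nil)))
    | (left; exact Spl.skip _ (Spl.skip _ (Spl.right _ Spl.nil)))
    | (left; exact Spl.skip _ (Spl.skip _ (Spl.skip _ Spl.nil)))

theorem spl_mid2 {x z y : ℕ} {I J : List ℕ} (hxy : x < y) (hyz : y < z)
    (h : Spl [y, x, z] I J) (hI : I.Pairwise (· < ·)) (hJ : J.Pairwise (· < ·)) :
    Spl [y, z, x] I J ∨ (I = [x, z] ∧ J = [y]) ∨ (I = [x, z] ∧ J = []) ∨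
      (J = [x, z] ∧ I = [y]) ∨ (J = [x, z] ∧ I = []) := by
  rcases h with _ | ⟨_, h⟩ | ⟨_, h⟩ | ⟨_, h⟩ <;> rcases h with _ | ⟨_, h⟩ | ⟨_, h⟩ | ⟨_, h⟩ <;>
    rcases h with _ | ⟨_, h⟩ | ⟨_, h⟩ | ⟨_, h⟩ <;> cases h <;>
    (try simp only [List.pairwise_cons, List.mem_cons, forall_eq_or_imp] at hI) <;>
    (try simp only [List.pairwise_cons, List.mem_cons, forall_eq_or_imp] at hJ)
  all_goals first
    | (exfalso; omega)
    | (right; simp; done)
    | (left; exact Spl.left _ (Spl.left _ (Spl.left _ Spl.nil)))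
    | (left; exact Spl.left _ (Spl.left _ (Spl.right _ Spl.nil)))
    | (left; exact Spl.left _ (Spl.left _ (Spl.skip _ Spl.nil)))
    | (left; exact Spl.left _ (Spl.right _ (Spl.left _ Spl.nil)))
    | (left; exact Spl.left _ (Spl.right _ (Spl.right _ Spl.nil)))
    | (left; exact Spl.left _ (Spl.right _ (Spl.skip _ Spl.nil)))
    | (left; exact Spl.left _ (Spl.skip _ (Spl.left _ Spl.nil)))
    | (left; exact Spl.left _ (Spl.skip _ (Spl.right _ Spl.nil)))
    | (left; exact Spl.left _ (Spl.skip _ (Spl.skip _ Spl.nil)))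
    | (left; exact Spl.right _ (Spl.left _ (Spl.left _ Spl.nil)))
    | (left; exact Spl.right _ (Spl.left _ (Spl.right _ Spl.nil)))
    | (left; exact Spl.right _ (Spl.left _ (Spl.skip _ Spl.nil)))
    | (left; exact Spl.right _ (Spl.right _ (Spl.left _ Spl.nil)))
    | (left; exact Spl.right _ (Spl.right _ (Spl.right _ Spl.nil)))
    | (left; exact Spl.right _ (Spl.right _ (Spl.skip _ Spl.nil)))
    | (left; exact Spl.right _ (Spl.skip _ (Spl.left _ Spl.nil)))
    | (left; exact Spl.right _ (Spl.skip _ (Spl.right _ Spl.nil)))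
    | (left; exact Spl.right _ (Spl.skip _ (Spl.skip _ Spl.nil)))
    | (left; exact Spl.skip _ (Spl.left _ (Spl.left _ Spl.nil)))
    | (left; exact Spl.skip _ (Spl.left _ (Spl.right _ Spl.nil)))
    | (left; exact Spl.skip _ (Spl.left _ (Spl.skip _ Spl.nil)))
    | (left; exact Spl.skip _ (Spl.right _ (Spl.left _ Spl.nil)))
    | (left; exact Spl.skip _ (Spl.right _ (Spl.right _ Spl.nil)))
    | (left; exact Spl.skip _ (Spl.right _ (Spl.skip _ Spl.nil)))
    | (left; exact Spl.skip _ (Spl.skip _ (Spl.left _ Spl.nil)))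
    | (left; exact Spl.skip _ (Spl.skip _ (Spl.right _ Spl.nil)))
    | (left; exact Spl.skip _ (Spl.skip _ (Spl.skip _ Spl.nil)))

theorem spl_rev1 {x z y : ℕ} {I J : List ℕ} (hxz : x < z)
    (h : Spl [z, x, y] I J) (hI : I.Pairwise (· < ·)) (hJ : J.Pairwise (· < ·)) :
    Spl [x, z, y] I J := by
  rcases h with _ | ⟨_, h⟩ | ⟨_, h⟩ | ⟨_, h⟩ <;> rcases h with _ | ⟨_, h⟩ | ⟨_, h⟩ | ⟨_, h⟩ <;>
    rcases h with _ | ⟨_, h⟩ | ⟨_, h⟩ | ⟨_, h⟩ <;> cases h <;>
    (try simp only [List.pairwise_cons, List.mem_cons, forall_eq_or_imp] at hI) <;>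
    (try simp only [List.pairwise_cons, List.mem_cons, forall_eq_or_imp] at hJ)
  all_goals first
    | (exfalso; omega)
    | exact Spl.left _ (Spl.left _ (Spl.left _ Spl.nil))
    | exact Spl.left _ (Spl.left _ (Spl.right _ Spl.nil))
    | exact Spl.left _ (Spl.left _ (Spl.skip _ Spl.nil))
    | exact Spl.left _ (Spl.right _ (Spl.left _ Spl.nil))
    | exact Spl.left _ (Spl.right _ (Spl.right _ Spl.nil))
    | exact Spl.left _ (Spl.right _ (Spl.skip _ Spl.nil))
    | exact Spl.left _ (Spl.skip _ (Spl.left _ Spl.nil))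
    | exact Spl.left _ (Spl.skip _ (Spl.right _ Spl.nil))
    | exact Spl.left _ (Spl.skip _ (Spl.skip _ Spl.nil))
    | exact Spl.right _ (Spl.left _ (Spl.left _ Spl.nil))
    | exact Spl.right _ (Spl.left _ (Spl.right _ Spl.nil))
    | exact Spl.right _ (Spl.left _ (Spl.skip _ Spl.nil))
    | exact Spl.right _ (Spl.right _ (Spl.left _ Spl.nil))
    | exact Spl.right _ (Spl.right _ (Spl.right _ Spl.nil))
    | exact Spl.right _ (Spl.right _ (Spl.skip _ Spl.nil))
    | exact Spl.right _ (Spl.skip _ (Spl.left _ Spl.nil))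
    | exact Spl.right _ (Spl.skip _ (Spl.right _ Spl.nil))
    | exact Spl.right _ (Spl.skip _ (Spl.skip _ Spl.nil))
    | exact Spl.skip _ (Spl.left _ (Spl.left _ Spl.nil))
    | exact Spl.skip _ (Spl.left _ (Spl.right _ Spl.nil))
    | exact Spl.skip _ (Spl.left _ (Spl.skip _ Spl.nil))
    | exact Spl.skip _ (Spl.right _ (Spl.left _ Spl.nil))
    | exact Spl.skip _ (Spl.right _ (Spl.right _ Spl.nil))
    | exact Spl.skip _ (Spl.right _ (Spl.skip _ Spl.nil))
    | exact Spl.skip _ (Spl.skip _ (Spl.left _ Spl.nil))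
    | exact Spl.skip _ (Spl.skip _ (Spl.right _ Spl.nil))
    | exact Spl.skip _ (Spl.skip _ (Spl.skip _ Spl.nil))

theorem spl_rev2 {x z y : ℕ} {I J : List ℕ} (hxz : x < z)
    (h : Spl [y, z, x] I J) (hI : I.Pairwise (· < ·)) (hJ : J.Pairwise (· < ·)) :
    Spl [y, x, z] I J := by
  rcases h with _ | ⟨_, h⟩ | ⟨_, h⟩ | ⟨_, h⟩ <;> rcases h with _ | ⟨_, h⟩ | ⟨_, h⟩ | ⟨_, h⟩ <;>
    rcases h with _ | ⟨_, h⟩ | ⟨_, h⟩ | ⟨_, h⟩ <;> cases h <;>
    (try simp only [List.pairwise_cons, List.mem_cons, forall_eq_or_imp] at hI) <;>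
    (try simp only [List.pairwise_cons, List.mem_cons, forall_eq_or_imp] at hJ)
  all_goals first
    | (exfalso; omega)
    | exact Spl.left _ (Spl.left _ (Spl.left _ Spl.nil))
    | exact Spl.left _ (Spl.left _ (Spl.right _ Spl.nil))
    | exact Spl.left _ (Spl.left _ (Spl.skip _ Spl.nil))
    | exact Spl.left _ (Spl.right _ (Spl.left _ Spl.nil))
    | exact Spl.left _ (Spl.right _ (Spl.right _ Spl.nil))
    | exact Spl.left _ (Spl.right _ (Spl.skip _ Spl.nil))
    | exact Spl.left _ (Spl.skip _ (Spl.left _ Spl.nil))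
    | exact Spl.left _ (Spl.skip _ (Spl.right _ Spl.nil))
    | exact Spl.left _ (Spl.skip _ (Spl.skip _ Spl.nil))
    | exact Spl.right _ (Spl.left _ (Spl.left _ Spl.nil))
    | exact Spl.right _ (Spl.left _ (Spl.right _ Spl.nil))
    | exact Spl.right _ (Spl.left _ (Spl.skip _ Spl.nil))
    | exact Spl.right _ (Spl.right _ (Spl.left _ Spl.nil))
    | exact Spl.right _ (Spl.right _ (Spl.right _ Spl.nil))
    | exact Spl.right _ (Spl.right _ (Spl.skip _ Spl.nil))
    | exact Spl.right _ (Spl.skip _ (Spl.left _ Spl.nil))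
    | exact Spl.right _ (Spl.skip _ (Spl.right _ Spl.nil))
    | exact Spl.right _ (Spl.skip _ (Spl.skip _ Spl.nil))
    | exact Spl.skip _ (Spl.left _ (Spl.left _ Spl.nil))
    | exact Spl.skip _ (Spl.left _ (Spl.right _ Spl.nil))
    | exact Spl.skip _ (Spl.left _ (Spl.skip _ Spl.nil))
    | exact Spl.skip _ (Spl.right _ (Spl.left _ Spl.nil))
    | exact Spl.skip _ (Spl.right _ (Spl.right _ Spl.nil))
    | exact Spl.skip _ (Spl.right _ (Spl.skip _ Spl.nil))
    | exact Spl.skip _ (Spl.skip _ (Spl.left _ Spl.nil))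
    | exact Spl.skip _ (Spl.skip _ (Spl.right _ Spl.nil))
    | exact Spl.skip _ (Spl.skip _ (Spl.skip _ Spl.nil))

/-- Context-closed invariance of `TwoInc`. -/
def KE (w w' : List ℕ) : Prop := ∀ u v m, TwoInc (u ++ w ++ v) m ↔ TwoInc (u ++ w' ++ v) m

theorem KE.refl (w : List ℕ) : KE w w := fun _ _ _ => Iff.rfl

theorem KE.symm {w w' : List ℕ} (h : KE w w') : KE w' w := fun u v m => (h u v m).symm

theorem KE.trans {w w' w'' : List ℕ} (h : KE w w') (h' : KE w' w'') : KE w w'' :=
  fun u v m => (h u v m).trans (h' u v m)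

theorem KE.ctx {w w' : List ℕ} (a b : List ℕ) (h : KE w w') : KE (a ++ w ++ b) (a ++ w' ++ b) := by
  intro u v m
  have := h (u ++ a) (b ++ v) m
  simpa [List.append_assoc] using this

theorem KE.cons {w w' : List ℕ} (a : ℕ) (h : KE w w') : KE (a :: w) (a :: w') := by
  simpa using KE.ctx [a] [] h

theorem KE.append_left {w w' : List ℕ} (a : List ℕ) (h : KE w w') : KE (a ++ w) (a ++ w') := by
  simpa using KE.ctx a [] h

theorem KE.append_right {w w' : List ℕ} (b : List ℕ) (h : KE w w') : KE (w ++ b) (w' ++ b) := by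
  simpa using KE.ctx [] b h

theorem glue {A C : List ℕ} {x : ℕ} : (A ++ [x] ++ C).Pairwise (· < ·) ↔
    (A ++ [x]).Pairwise (· < ·) ∧ (x :: C).Pairwise (· < ·) := by
  constructor
  · intro h
    refine ⟨(List.pairwise_append.1 h).1, ?_⟩
    rw [List.append_assoc] at h
    exact (List.pairwise_append.1 h).2.1
  · rintro ⟨h1, h2⟩
    have h2' := List.pairwise_cons.1 h2
    rw [List.pairwise_append]
    refine ⟨h1, h2'.2, ?_⟩
    intro a ha c hc
    have hxc := h2'.1 c hc
    rw [List.mem_append, List.mem_singleton] at ha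
    rcases ha with ha | rfl
    · have := (List.pairwise_append.1 h1).2.2 a ha x (by simp)
      omega
    · exact hxc

theorem sorted_raise {A : List ℕ} {x y : ℕ} (h : (A ++ [x]).Pairwise (· < ·)) (hxy : x < y) :
    (A ++ [y]).Pairwise (· < ·) := by
  rw [List.pairwise_append] at h ⊢
  refine ⟨h.1, by simp, ?_⟩
  intro a ha b hb
  rw [List.mem_singleton] at hb
  subst hb
  have := h.2.2 a ha x (by simp)
  omega

theorem sorted_lower {D : List ℕ} {x y : ℕ} (h : (y :: D).Pairwise (· < ·)) (hxy : x < y) :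
    (x :: D).Pairwise (· < ·) := by
  rw [List.pairwise_cons] at h ⊢
  exact ⟨fun a ha => hxy.trans (h.1 a ha), h.2⟩

theorem sorted_cons {D : List ℕ} {x y : ℕ} (h : (y :: D).Pairwise (· < ·)) (hxy : x < y) :
    (x :: y :: D).Pairwise (· < ·) := by
  rw [List.pairwise_cons (a := x)]
  refine ⟨?_, h⟩
  intro a ha
  rcases List.mem_cons.1 ha with rfl | ha
  · exact hxy
  · exact hxy.trans ((List.pairwise_cons.1 h).1 a ha)

theorem glue2 {A C : List ℕ} {x z : ℕ} : (A ++ [x, z] ++ C).Pairwise (· < ·) ↔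
    (A ++ [x]).Pairwise (· < ·) ∧ x < z ∧ (z :: C).Pairwise (· < ·) := by
  have e : A ++ [x, z] ++ C = A ++ [x] ++ (z :: C) := by simp
  rw [e, glue]
  constructor
  · rintro ⟨h1, h2⟩
    exact ⟨h1, (List.pairwise_cons.1 h2).1 z (by simp), (List.pairwise_cons.1 h2).2⟩
  · rintro ⟨h1, h2, h3⟩
    exact ⟨h1, sorted_cons h3 h2⟩

/-- Transfer principle for the middle part. -/
theorem twoInc_of_mid {w w' : List ℕ}
    (h : ∀ I J, Spl w I J → I.Pairwise (· < ·) → J.Pairwise (· < ·) →
      Spl w' I J ∨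
      (∃ x z y, x < y ∧ y < z ∧ I = [x, z] ∧ J = [y] ∧
        (Spl w' [x, y] [z] ∨ Spl w' [x] [y, z])) ∨
      (∃ x z y, x < y ∧ y < z ∧ I = [x, z] ∧ J = [] ∧ (Spl w' [x, y] [] ∨ Spl w' [y, z] [])) ∨
      (∃ x z y, x < y ∧ y < z ∧ J = [x, z] ∧ I = [y] ∧
        (Spl w' [x, y] [z] ∨ Spl w' [x] [y, z])) ∨
      (∃ x z y, x < y ∧ y < z ∧ J = [x, z] ∧ I = [] ∧ (Spl w' [x, y] [] ∨ Spl w' [y, z] [])))
    (u v : List ℕ) (m : ℕ) (hm : TwoInc (u ++ w ++ v) m) : TwoInc (u ++ w' ++ v) m := by
  obtain ⟨I, J, hs, hI, hJ, hlen⟩ := hm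
  obtain ⟨I12, I3, J12, J3, rfl, rfl, h12, h3⟩ := Spl.of_append hs
  obtain ⟨I1, I2, J1, J2, rfl, rfl, h1, h2⟩ := Spl.of_append h12
  have hI2 : I2.Pairwise (· < ·) :=
    (List.pairwise_append.1 (List.pairwise_append.1 hI).1).2.1
  have hJ2 : J2.Pairwise (· < ·) :=
    (List.pairwise_append.1 (List.pairwise_append.1 hJ).1).2.1
  have key : ∀ (A B C D : List ℕ) (x z y : ℕ), x < y → y < z →
      Spl u A B → Spl v C D →
      (A ++ [x, z] ++ C).Pairwise (· < ·) → (B ++ [y] ++ D).Pairwise (· < ·) →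
      m ≤ (A ++ [x, z] ++ C).length + (B ++ [y] ++ D).length →
      (Spl w' [x, y] [z] ∨ Spl w' [x] [y, z]) → TwoInc (u ++ w' ++ v) m := by
    intro A B C D x z y hxy hyz hu hv p1 p2 hl hw
    rw [glue2] at p1
    rw [glue] at p2
    rcases hw with hw | hw
    · refine ⟨A ++ [x, y] ++ D, B ++ [z] ++ C, (hu.append hw).append hv.symm, ?_, ?_, ?_⟩
      · rw [glue2]; exact ⟨p1.1, hxy, p2.2⟩
      · rw [glue]; exact ⟨sorted_raise p2.1 hyz, p1.2.2⟩
      · simp only [List.length_append, List.length_cons, List.length_nil] at hl ⊢; omega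
    · refine ⟨A ++ [x] ++ D, B ++ [y, z] ++ C, (hu.append hw).append hv.symm, ?_, ?_, ?_⟩
      · rw [glue]; exact ⟨p1.1, sorted_lower p2.2 hxy⟩
      · rw [glue2]; exact ⟨p2.1, hyz, p1.2.2⟩
      · simp only [List.length_append, List.length_cons, List.length_nil] at hl ⊢; omega
  have key2 : ∀ (A B C D : List ℕ) (x z y : ℕ), x < y → y < z →
      Spl u A B → Spl v C D →
      (A ++ [x, z] ++ C).Pairwise (· < ·) → (B ++ [] ++ D).Pairwise (· < ·) →
      m ≤ (A ++ [x, z] ++ C).length + (B ++ [] ++ D).length →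
      (Spl w' [x, y] [] ∨ Spl w' [y, z] []) → TwoInc (u ++ w' ++ v) m := by
    intro A B C D x z y hxy hyz hu hv p1 p2 hl hw
    rw [glue2] at p1
    rcases hw with hw | hw
    · refine ⟨A ++ [x, y] ++ C, B ++ [] ++ D, (hu.append hw).append hv, ?_, p2, ?_⟩
      · rw [glue2]; exact ⟨p1.1, hxy, sorted_lower p1.2.2 hyz⟩
      · simp only [List.length_append, List.length_cons, List.length_nil] at hl ⊢; omega
    · refine ⟨A ++ [y, z] ++ C, B ++ [] ++ D, (hu.append hw).append hv, ?_, p2, ?_⟩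
      · rw [glue2]; exact ⟨sorted_raise p1.1 hxy, hyz, p1.2.2⟩
      · simp only [List.length_append, List.length_cons, List.length_nil] at hl ⊢; omega
  rcases h I2 J2 h2 hI2 hJ2 with hw | ⟨x, z, y, hxy, hyz, rfl, rfl, hw⟩ |
    ⟨x, z, y, hxy, hyz, rfl, rfl, hw⟩ | ⟨x, z, y, hxy, hyz, rfl, rfl, hw⟩ |
    ⟨x, z, y, hxy, hyz, rfl, rfl, hw⟩
  · exact ⟨I1 ++ I2 ++ I3, J1 ++ J2 ++ J3, (h1.append hw).append h3, hI, hJ, hlen⟩
  · exact key I1 J1 I3 J3 x z y hxy hyz h1 h3 hI hJ hlen hw
  · exact key2 I1 J1 I3 J3 x z y hxy hyz h1 h3 hI hJ hlen hw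
  · exact key J1 I1 J3 I3 x z y hxy hyz h1.symm h3.symm hJ hI (by omega) hw
  · exact key2 J1 I1 J3 I3 x z y hxy hyz h1.symm h3.symm hJ hI (by omega) hw

theorem KE.knuth1 {x y z : ℕ} (hxy : x < y) (hyz : y < z) : KE [x, z, y] [z, x, y] := by
  intro u v m
  constructor
  · apply twoInc_of_mid
    intro I J h hI hJ
    rcases spl_mid1 hxy hyz h hI hJ with h | ⟨e1, e2⟩ | ⟨e1, e2⟩ | ⟨e1, e2⟩ | ⟨e1, e2⟩
    · exact Or.inl h
    · exact Or.inr (Or.inl ⟨x, z, y, hxy, hyz, e1, e2, Or.inl
        (Spl.right _ (Spl.left _ (Spl.left _ Spl.nil)))⟩)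
    · exact Or.inr (Or.inr (Or.inl ⟨x, z, y, hxy, hyz, e1, e2, Or.inl
        (Spl.skip _ (Spl.left _ (Spl.left _ Spl.nil)))⟩))
    · exact Or.inr (Or.inr (Or.inr (Or.inl ⟨x, z, y, hxy, hyz, e1, e2, Or.inl
        (Spl.right _ (Spl.left _ (Spl.left _ Spl.nil)))⟩)))
    · exact Or.inr (Or.inr (Or.inr (Or.inr ⟨x, z, y, hxy, hyz, e1, e2, Or.inl
        (Spl.skip _ (Spl.left _ (Spl.left _ Spl.nil)))⟩)))
  · apply twoInc_of_mid
    intro I J h hI hJ
    exact Or.inl (spl_rev1 (hxy.trans hyz) h hI hJ)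

theorem KE.knuth2 {x y z : ℕ} (hxy : x < y) (hyz : y < z) : KE [y, x, z] [y, z, x] := by
  intro u v m
  constructor
  · apply twoInc_of_mid
    intro I J h hI hJ
    rcases spl_mid2 hxy hyz h hI hJ with h | ⟨e1, e2⟩ | ⟨e1, e2⟩ | ⟨e1, e2⟩ | ⟨e1, e2⟩
    · exact Or.inl h
    · exact Or.inr (Or.inl ⟨x, z, y, hxy, hyz, e1, e2, Or.inr
        (Spl.right _ (Spl.right _ (Spl.left _ Spl.nil)))⟩)
    · exact Or.inr (Or.inr (Or.inl ⟨x, z, y, hxy, hyz, e1, e2, Or.inr
        (Spl.left _ (Spl.left _ (Spl.skip _ Spl.nil)))⟩))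
    · exact Or.inr (Or.inr (Or.inr (Or.inl ⟨x, z, y, hxy, hyz, e1, e2, Or.inr
        (Spl.right _ (Spl.right _ (Spl.left _ Spl.nil)))⟩)))
    · exact Or.inr (Or.inr (Or.inr (Or.inr ⟨x, z, y, hxy, hyz, e1, e2, Or.inr
        (Spl.left _ (Spl.left _ (Spl.skip _ Spl.nil)))⟩)))
  · apply twoInc_of_mid
    intro I J h hI hJ
    exact Or.inl (spl_rev2 (hxy.trans hyz) h hI hJ)

theorem KE.move_left (x : ℕ) : ∀ (r : List ℕ) (a : ℕ), (a :: r).Pairwise (· < ·) → x < a →
    KE (a :: r ++ [x]) (a :: x :: r) := by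
  intro r
  induction r with
  | nil => intro a _ _; exact KE.refl _
  | cons z r ih =>
    intro a hs hxa
    have haz : a < z := (List.pairwise_cons.1 hs).1 z (by simp)
    have h1 := (ih z (List.Pairwise.of_cons hs) (hxa.trans haz)).cons a
    have h2 : KE (a :: z :: x :: r) (a :: x :: z :: r) := by
      have := (KE.knuth2 hxa haz).symm.append_right r
      simpa using this
    exact h1.trans h2

theorem KE.row (r : List ℕ) (x : ℕ) (hs : r.Pairwise (· < ·)) (hx : x ∉ r) :
    KE (r ++ [x]) ((ri r x).2.toList ++ (ri r x).1) := by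
  induction r with
  | nil => simpa [ri] using KE.refl [x]
  | cons a r ih =>
    by_cases h : x < a
    · simp only [ri, if_pos h, Option.toList]
      exact KE.move_left x r a hs h
    · have hxa : x ≠ a := fun e => hx (by simp [e])
      have hxr : x ∉ r := fun e => hx (by simp [e])
      have hs' := List.Pairwise.of_cons hs
      have ih' := (ih hs' hxr).cons a
      simp only [ri, if_neg h]
      rcases ri_cases r x hs' hxr with ⟨h1, h2⟩ | ⟨u, y, v, h1, h2, h3, h4⟩
      · rw [h1] at ih' ⊢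
        simpa using ih'
      · rw [h2] at ih' ⊢
        simp only [Option.toList] at ih' ⊢
        have hay : a < y := (List.pairwise_cons.1 hs).1 y (by rw [h1]; simp)
        refine ih'.trans ?_
        cases u with
        | nil =>
          have := (KE.knuth1 (show a < x by omega) h4).append_right v
          simpa using this
        | cons c u =>
          have hac : a < c := (List.pairwise_cons.1 hs).1 c (by rw [h1]; simp)
          have hcx := h3 c (by simp)
          have := (KE.knuth1 hac (hcx.trans h4)).append_right (u ++ x :: v)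
          simpa using this

/-- Reading word, last row first. -/
def rdw : List (List ℕ) → List ℕ
  | [] => []
  | r :: T => rdw T ++ r

theorem KE.tab (T : List (List ℕ)) (x : ℕ) (hT : IsTab T) (hn : T.flatten.Nodup)
    (hx : x ∉ T.flatten) : KE (rdw T ++ [x]) (rdw (ti T x)) := by
  induction T generalizing x with
  | nil => exact KE.refl _
  | cons r T ih =>
    obtain ⟨h1, h2, h3, h4⟩ := hT
    have hxr : x ∉ r := fun e => hx (by simp [e])
    have hnd : T.flatten.Nodup := by
      rw [List.flatten_cons, List.nodup_append] at hn; exact hn.2.1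
    have hrow := (KE.row r x h2 hxr).append_left (rdw T)
    simp only [rdw]
    rw [List.append_assoc]
    refine hrow.trans ?_
    rcases ri_cases r x h2 hxr with ⟨e1, e2⟩ | ⟨u, y, v, e1, e2, e3, e4⟩
    · unfold ti
      simp only [e1, Option.toList, rdw]
      exact KE.refl _
    · unfold ti
      simp only [e2, Option.toList, rdw]
      have hyr : y ∈ r := by rw [e1]; simp
      have hyT : y ∉ T.flatten := by
        rw [List.flatten_cons, List.nodup_append] at hn
        intro hy
        exact hn.2.2 y hyr y hy rfl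
      have := (ih y h4 hnd hyT).append_right (u ++ x :: v)
      simpa using this

theorem KE.word {w : List ℕ} (hw : w.Nodup) : KE w (rdw (Pt w)) := by
  induction w using List.reverseRecOn with
  | nil => exact KE.refl _
  | append_singleton w x ih =>
    rw [List.nodup_append] at hw
    have hp := Pt_perm w
    rw [Pt_append]
    refine ((ih hw.1).append_right [x]).trans ?_
    refine KE.tab _ x (isTab_Pt hw.1) (hp.nodup_iff.2 hw.1) ?_
    intro hx
    exact hw.2.2 x (hp.mem_iff.1 hx) x (by simp) rfl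

theorem Spl.skip_all (w : List ℕ) : Spl w [] [] := by
  induction w with
  | nil => exact Spl.nil
  | cons a w ih => exact Spl.skip a ih

theorem Spl.left_all (w : List ℕ) : Spl w w [] := by
  induction w with
  | nil => exact Spl.nil
  | cons a w ih => exact Spl.left a ih

theorem twoInc_rdw_of_le {T : List (List ℕ)} (hT : IsTab T) {m : ℕ} (h : m ≤ sh T 0 + sh T 1) :
    TwoInc (rdw T) m := by
  cases T with
  | nil => exact ⟨[], [], Spl.nil, List.Pairwise.nil, List.Pairwise.nil, by simpa [sh] using h⟩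
  | cons r T =>
    cases T with
    | nil =>
      refine ⟨r, [], ?_, hT.2.1, List.Pairwise.nil, by simpa [sh] using h⟩
      simpa [rdw] using Spl.left_all r
    | cons s T =>
      refine ⟨r, s, ?_, hT.2.1, hT.2.2.2.2.1, by simpa [sh] using h⟩
      simp only [rdw]
      have h1 := ((Spl.skip_all (rdw T)).append (Spl.left_all s).symm).append (Spl.left_all r)
      simpa using h1

/-- number of entries smaller than `e` -/
def cnt (r : List ℕ) (e : ℕ) : ℕ := r.countP (fun a => decide (a < e))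

theorem cnt_le_of_dom : ∀ {r s : List ℕ} (e : ℕ), Dom r s → cnt s e ≤ cnt r e
  | _, [], _, _ => by simp [cnt]
  | [], _ :: _, _, h => h.elim
  | a :: r, b :: s, e, h => by
    have ih := cnt_le_of_dom e h.2
    have hab := h.1
    unfold cnt at ih ⊢
    rw [List.countP_cons, List.countP_cons]
    by_cases hb : b < e
    · have : a < e := by omega
      simp [hb, this, ih]
    · simp only [hb, decide_false, Bool.false_eq_true, if_false, add_zero]
      omega

theorem cnt_mono (r : List ℕ) {e f : ℕ} (h : e ≤ f) : cnt r e ≤ cnt r f := by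
  unfold cnt
  apply List.countP_mono_left
  intro a _ ha
  simp only [decide_eq_true_eq] at ha ⊢
  omega

/-- Disjoint parts of a row with entries in `[e, f)`. -/
theorem spl_row_bound {r I J : List ℕ} (h : Spl r I J) {e f : ℕ} (hef : e ≤ f)
    (hI : ∀ a ∈ I, e ≤ a ∧ a < f) (hJ : ∀ a ∈ J, e ≤ a ∧ a < f) :
    I.length + J.length + cnt r e ≤ cnt r f := by
  induction h with
  | nil => simp [cnt]
  | left a _ ih =>
    have ih' := ih (fun b hb => hI b (by simp [hb])) hJ
    have ha := hI a (by simp)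
    unfold cnt at ih' ⊢
    rw [List.countP_cons, List.countP_cons]
    simp only [ha.2, decide_true, if_true, List.length_cons]
    rw [if_neg (by simp; omega)]
    omega
  | right a _ ih =>
    have ih' := ih hI (fun b hb => hJ b (by simp [hb]))
    have ha := hJ a (by simp)
    unfold cnt at ih' ⊢
    rw [List.countP_cons, List.countP_cons]
    simp only [ha.2, decide_true, if_true, List.length_cons]
    rw [if_neg (by simp; omega)]
    omega
  | skip a _ ih =>
    have ih' := ih hI hJ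
    unfold cnt at ih' ⊢
    rw [List.countP_cons, List.countP_cons]
    by_cases h1 : a < e
    · have h2 : a < f := by omega
      simp only [h1, h2, decide_true, if_true]
      omega
    · simp only [h1, decide_false, Bool.false_eq_true, if_false]
      omega

theorem sorted_append_bound {A B : List ℕ} (h : (A ++ B).Pairwise (· < ·)) (f : ℕ)
    (hf : ∀ a ∈ A ++ B, a < f) :
    ∃ e, e ≤ f ∧ (∀ a ∈ A, a < e) ∧ (∀ b ∈ B, e ≤ b) := by
  rcases List.eq_nil_or_concat A with rfl | ⟨A', x, rfl⟩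
  · exact ⟨0, by omega, by simp, fun _ _ => by omega⟩
  · refine ⟨x + 1, hf x (by simp), ?_, ?_⟩
    · intro a ha
      rw [List.pairwise_append] at h
      rw [List.concat_eq_append, List.mem_append, List.mem_singleton] at ha
      rcases ha with ha | rfl
      · have h1 := h.1
        rw [List.concat_eq_append, List.pairwise_append] at h1
        have := h1.2.2 a ha x (by simp)
        omega
      · omega
    · intro b hb
      rw [List.pairwise_append] at h
      exact h.2.2 x (by simp) b hb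

theorem Spl.drop_right {w I J : List ℕ} (h : Spl w I J) : Spl w I [] := by
  induction h with
  | nil => exact Spl.nil
  | left a _ ih => exact Spl.left a ih
  | right a _ ih => exact Spl.skip a ih
  | skip a _ ih => exact Spl.skip a ih

theorem one_inc_bound : ∀ {T : List (List ℕ)}, IsTab T → ∀ {I J : List ℕ}, Spl (rdw T) I J →
    I.Pairwise (· < ·) → ∀ e, (∀ a ∈ I, a < e) → I.length ≤ cnt (T.headD []) e := by
  intro T
  induction T with
  | nil =>
    intro _ I J h _ e _
    simp only [rdw] at h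
    cases h
    simp
  | cons r T ih =>
    intro hT I J h hI e he
    simp only [rdw] at h
    obtain ⟨I1, I2, J1, J2, rfl, rfl, h1, h2⟩ := Spl.of_append h
    obtain ⟨e', hee, hA, hB⟩ := sorted_append_bound hI e he
    have hI' := List.pairwise_append.1 hI
    have b1 := ih hT.2.2.2 h1 hI'.1 e' hA
    have b2 := cnt_le_of_dom e' hT.2.2.1
    have h2' : Spl r I2 [] := h2.drop_right
    have b3 := spl_row_bound h2' hee (fun a ha => ⟨hB a ha, he a (by simp [ha])⟩) (by simp)
    simp only [List.headD_cons, List.length_append, List.length_nil] at b3 ⊢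
    omega

theorem two_inc_bound {T : List (List ℕ)} (hT : IsTab T) {I J : List ℕ} (h : Spl (rdw T) I J)
    (hI : I.Pairwise (· < ·)) (hJ : J.Pairwise (· < ·)) (f : ℕ) (hIf : ∀ a ∈ I, a < f)
    (hJf : ∀ a ∈ J, a < f) :
    I.length + J.length ≤ cnt (T.headD []) f + cnt (T.tail.headD []) f := by
  cases T with
  | nil =>
    simp only [rdw] at h
    cases h
    simp
  | cons r T =>
    simp only [rdw] at h
    obtain ⟨I1, I2, J1, J2, rfl, rfl, h1, h2⟩ := Spl.of_append h
    obtain ⟨e1, he1, hA, hB⟩ := sorted_append_bound hI f hIf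
    obtain ⟨e2, he2, hC, hD⟩ := sorted_append_bound hJ f hJf
    have hI' := List.pairwise_append.1 hI
    have hJ' := List.pairwise_append.1 hJ
    have b1 := one_inc_bound hT.2.2.2 h1 hI'.1 e1 hA
    have b2 := one_inc_bound hT.2.2.2 h1.symm hJ'.1 e2 hC
    have d1 := cnt_le_of_dom e1 hT.2.2.1
    have d2 := cnt_le_of_dom e2 hT.2.2.1
    have m1 := cnt_mono (T.headD []) he1
    have m2 := cnt_mono (T.headD []) he2
    simp only [List.headD_cons, List.tail_cons, List.length_append]
    rcases le_total e1 e2 with hle | hle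
    · have b3 := spl_row_bound h2 (e := e1) (f := f) he1
        (fun a ha => ⟨hB a ha, hIf a (by simp [ha])⟩)
        (fun a ha => ⟨hle.trans (hD a ha), hJf a (by simp [ha])⟩)
      omega
    · have b3 := spl_row_bound h2 (e := e2) (f := f) he2
        (fun a ha => ⟨hle.trans (hB a ha), hIf a (by simp [ha])⟩)
        (fun a ha => ⟨hD a ha, hJf a (by simp [ha])⟩)
      omega

theorem cnt_le_length (r : List ℕ) (e : ℕ) : cnt r e ≤ r.length := List.countP_le_length

theorem twoInc_rdw {T : List (List ℕ)} (hT : IsTab T) (m : ℕ) :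
    TwoInc (rdw T) m ↔ m ≤ sh T 0 + sh T 1 := by
  constructor
  · rintro ⟨I, J, hs, hI, hJ, hm⟩
    have h := two_inc_bound hT hs hI hJ (I.sum + J.sum + 1)
      (fun a ha => by have := List.single_le_sum (fun x _ => Nat.zero_le x) a ha; omega)
      (fun a ha => by have := List.single_le_sum (fun x _ => Nat.zero_le x) a ha; omega)
    have e0 : (T.headD []).length = sh T 0 := by cases T <;> simp [sh]
    have e1 : (T.tail.headD []).length = sh T 1 := by
      cases T with
      | nil => simp [sh]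
      | cons r T => cases T <;> simp [sh]
    have c0 := cnt_le_length (T.headD []) (I.sum + J.sum + 1)
    have c1 := cnt_le_length (T.tail.headD []) (I.sum + J.sum + 1)
    omega
  · exact twoInc_rdw_of_le hT

/-- Greene's theorem for two increasing subsequences. -/
theorem greene_two {w : List ℕ} (hw : w.Nodup) (m : ℕ) :
    TwoInc w m ↔ m ≤ sh (Pt w) 0 + sh (Pt w) 1 := by
  have h := KE.word hw [] [] m
  simp only [List.nil_append, List.append_nil] at h
  rw [h, twoInc_rdw (isTab_Pt hw)]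

end Pool.Agent.Work.MP_9eb367_co
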