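import Mathlib

open PowerSeries

namespace Pool.Agent.Work.MP_9eb367_co

/-- The power series `√(1-4x) = 1 - 2 x c(x)`. -/
noncomputable def S : PowerSeries ℚ :=
  1 - 2 * X * (catalanSeries.map (Nat.castRingHom ℚ))

theorem S_sq : S ^ 2 = 1 - 4 * X := by
  have h : (catalanSeries.map (Nat.castRingHom ℚ)) ^ 2 * X + 1 =
      catalanSeries.map (Nat.castRingHom ℚ) := by
    have := congrArg (PowerSeries.map (Nat.castRingHom ℚ)) catalanSeries_sq_mul_X_add_one
    simpa using this
  unfold S
  set c := catalanSeries.map (Nat.castRingHom ℚ)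
  linear_combination (4 * X) * h

/-- Membership in `ℚ(x, √(1-4x))`. -/
def InK (F : PowerSeries ℚ) : Prop :=
  ∃ p q r : Polynomial ℚ, r ≠ 0 ∧ (r : PowerSeries ℚ) * F = p + q * S

theorem InK.poly (p : Polynomial ℚ) : InK (p : PowerSeries ℚ) :=
  ⟨p, 0, 1, one_ne_zero, by simp⟩

theorem InK.sq4 : InK S := ⟨0, 1, 1, one_ne_zero, by simp⟩

theorem InK.add {F G : PowerSeries ℚ} (hF : InK F) (hG : InK G) : InK (F + G) := by
  obtain ⟨p, q, r, hr, h⟩ := hF
  obtain ⟨p', q', r', hr', h'⟩ := hG
  refine ⟨r' * p + r * p', r' * q + r * q', r * r', mul_ne_zero hr hr', ?_⟩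
  push_cast
  linear_combination (r' : PowerSeries ℚ) * h + (r : PowerSeries ℚ) * h'

theorem one_sub_coe : ((1 - 4 * Polynomial.X : Polynomial ℚ) : PowerSeries ℚ) = 1 - 4 * X := by
  have h4 : ((4 : Polynomial ℚ) : PowerSeries ℚ) = 4 := by
    have : (4 : Polynomial ℚ) = Polynomial.C 4 := (map_ofNat Polynomial.C 4).symm
    rw [this, Polynomial.coe_C]; exact map_ofNat _ 4
  rw [Polynomial.coe_sub, Polynomial.coe_one, Polynomial.coe_mul, Polynomial.coe_X, h4]

theorem InK.mul {F G : PowerSeries ℚ} (hF : InK F) (hG : InK G) : InK (F * G) := by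
  obtain ⟨p, q, r, hr, h⟩ := hF
  obtain ⟨p', q', r', hr', h'⟩ := hG
  refine ⟨p * p' + q * q' * (1 - 4 * Polynomial.X), p * q' + q * p', r * r',
    mul_ne_zero hr hr', ?_⟩
  have e := one_sub_coe
  rw [Polynomial.coe_add, Polynomial.coe_mul, Polynomial.coe_mul, Polynomial.coe_mul, e,
    Polynomial.coe_mul, Polynomial.coe_add, Polynomial.coe_mul, Polynomial.coe_mul]
  have hS := S_sq
  have : (r : PowerSeries ℚ) * r' * (F * G) = (r * F) * (r' * G) := by ring
  rw [this, h, h']
  linear_combination ((q : PowerSeries ℚ) * q') * hS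

theorem InK.neg {F : PowerSeries ℚ} (hF : InK F) : InK (-F) := by
  obtain ⟨p, q, r, hr, h⟩ := hF
  refine ⟨-p, -q, r, hr, ?_⟩
  push_cast
  linear_combination -h

theorem InK.one : InK 1 := by simpa using InK.poly 1

theorem InK.zero : InK 0 := by simpa using InK.poly 0

theorem InK.varX : InK (X : PowerSeries ℚ) := by simpa using InK.poly Polynomial.X

theorem InK.const (a : ℚ) : InK (PowerSeries.C a) := by
  simpa using InK.poly (Polynomial.C a)

/-- The ring `ℚ(x, √(1-4x)) ∩ ℚ[[x]]`. -/
noncomputable def KR : Subring (PowerSeries ℚ) where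
  carrier := {F | InK F}
  mul_mem' := fun h h' => InK.mul h h'
  one_mem' := InK.one
  add_mem' := fun h h' => InK.add h h'
  zero_mem' := InK.zero
  neg_mem' := fun h => InK.neg h

theorem mem_KR {F : PowerSeries ℚ} : F ∈ KR ↔ InK F := Iff.rfl

theorem InK.sub {F G : PowerSeries ℚ} (hF : InK F) (hG : InK G) : InK (F - G) :=
  KR.sub_mem (mem_KR.2 hF) (mem_KR.2 hG)

theorem InK.sum {ι : Type*} (s : Finset ι) (F : ι → PowerSeries ℚ)
    (h : ∀ i ∈ s, InK (F i)) : InK (∑ i ∈ s, F i) :=
  KR.sum_mem fun i hi => mem_KR.2 (h i hi)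

theorem norm_ne_zero {p q : Polynomial ℚ} (h : p ≠ 0 ∨ q ≠ 0) :
    p ^ 2 - q ^ 2 * (1 - 4 * Polynomial.X) ≠ 0 := by
  intro h0
  have h1 : p ^ 2 = q ^ 2 * (1 - 4 * Polynomial.X) := by linear_combination h0
  have hlin : (1 - 4 * Polynomial.X : Polynomial ℚ) = Polynomial.C (-4) * Polynomial.X +
      Polynomial.C 1 := by
    rw [map_neg, map_ofNat, map_one]; ring
  have hdeg : (1 - 4 * Polynomial.X : Polynomial ℚ).natDegree = 1 := by
    rw [hlin]; exact Polynomial.natDegree_linear (by norm_num)
  by_cases hq : q = 0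
  · subst hq
    rcases h with h | h
    · apply h
      have : p ^ 2 = 0 := by rw [h1]; ring
      exact pow_eq_zero_iff (two_ne_zero) |>.1 this
    · exact h rfl
  · have hne : (1 - 4 * Polynomial.X : Polynomial ℚ) ≠ 0 := by
      intro h'; rw [h'] at hdeg; simp at hdeg
    have := congrArg Polynomial.natDegree h1
    rw [Polynomial.natDegree_pow, Polynomial.natDegree_mul (pow_ne_zero 2 hq) hne,
      Polynomial.natDegree_pow, hdeg] at this
    omega

theorem InK.of_mul {F G : PowerSeries ℚ} (hG0 : G ≠ 0) (hG : InK G) (hFG : InK (F * G)) :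
    InK F := by
  obtain ⟨p, q, r, hr, h⟩ := hG
  obtain ⟨a, b, r', hr', h'⟩ := hFG
  have hpq : p ≠ 0 ∨ q ≠ 0 := by
    by_contra hcon
    push Not at hcon
    obtain ⟨rfl, rfl⟩ := hcon
    have : (r : PowerSeries ℚ) * G = 0 := by rw [h]; simp
    rcases mul_eq_zero.1 this with h1 | h1
    · exact hr (by exact_mod_cast h1)
    · exact hG0 h1
  have hN := norm_ne_zero hpq
  refine ⟨r * (a * p - b * q * (1 - 4 * Polynomial.X)), r * (b * p - a * q),
    (p ^ 2 - q ^ 2 * (1 - 4 * Polynomial.X)) * r', mul_ne_zero hN hr', ?_⟩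
  have e := one_sub_coe
  have hS := S_sq
  simp only [Polynomial.coe_mul, Polynomial.coe_sub, Polynomial.coe_pow] at *
  rw [e]
  -- F * N * r' = F (p + q S)(p - q S) r' = F r G (p - q S) r' = r (a + b S)(p - q S)
  have h1 : ((p : PowerSeries ℚ) ^ 2 - (q : PowerSeries ℚ) ^ 2 * (1 - 4 * X)) =
      ((r : PowerSeries ℚ) * G) * ((p : PowerSeries ℚ) - (q : PowerSeries ℚ) * S) := by
    rw [h]; linear_combination ((q : PowerSeries ℚ) ^ 2) * hS
  rw [h1]
  have h2 : (r : PowerSeries ℚ) * G * ((p : PowerSeries ℚ) - (q : PowerSeries ℚ) * S) *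
      (r' : PowerSeries ℚ) * F = (r : PowerSeries ℚ) * ((p : PowerSeries ℚ) -
        (q : PowerSeries ℚ) * S) * ((r' : PowerSeries ℚ) * (F * G)) := by
    ring
  rw [h2, h']
  linear_combination (-(r : PowerSeries ℚ) * b * q) * hS

theorem two_ne_zero' : (2 : PowerSeries ℚ) ≠ 0 := by
  intro h
  have := congrArg (PowerSeries.coeff 0) h
  have h2 : (2 : PowerSeries ℚ) = PowerSeries.C 2 := (map_ofNat PowerSeries.C 2).symm
  rw [h2] at this
  simp at this

theorem S_deriv : (1 - 4 * X) * PowerSeries.derivative ℚ S = -2 * S := by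
  have h := congrArg (PowerSeries.derivative ℚ) S_sq
  have h4 : PowerSeries.derivative ℚ (1 - 4 * X) = -4 := by
    have : (1 - 4 * X : PowerSeries ℚ) = ((1 - 4 * Polynomial.X : Polynomial ℚ) :
      PowerSeries ℚ) := one_sub_coe.symm
    rw [this, PowerSeries.derivative_coe]
    have : Polynomial.derivative (1 - 4 * Polynomial.X : Polynomial ℚ) = Polynomial.C (-4) := by
      rw [map_neg, map_ofNat]; simp
    rw [this, Polynomial.coe_C, map_neg, map_ofNat]
  rw [h4, PowerSeries.derivative_pow] at h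
  have h2 : S * PowerSeries.derivative ℚ S = -2 := by
    have : (2 : PowerSeries ℚ) * (S * PowerSeries.derivative ℚ S) = 2 * (-2) := by
      rw [show (2 : PowerSeries ℚ) * -2 = -4 by ring, ← h]
      push_cast
      ring
    exact mul_left_cancel₀ two_ne_zero' this
  rw [← S_sq]
  linear_combination S * h2

theorem InK.deriv {F : PowerSeries ℚ} (hF : InK F) : InK (PowerSeries.derivative ℚ F) := by
  obtain ⟨p, q, r, hr, h⟩ := hF
  have h1 := congrArg (PowerSeries.derivative ℚ) h
  simp only [map_add, Derivation.leibniz, PowerSeries.derivative_coe, smul_eq_mul] at h1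
  refine ⟨r * (1 - 4 * Polynomial.X) * p.derivative - (1 - 4 * Polynomial.X) * r.derivative * p,
    r * (1 - 4 * Polynomial.X) * q.derivative - 2 * r * q -
      (1 - 4 * Polynomial.X) * r.derivative * q, r ^ 2 * (1 - 4 * Polynomial.X), ?_, ?_⟩
  · refine mul_ne_zero (pow_ne_zero 2 hr) ?_
    have := norm_ne_zero (p := 0) (q := 1) (Or.inr one_ne_zero)
    intro h0
    apply this
    rw [h0]; ring
  · have e := one_sub_coe
    have h2 : ((2 : Polynomial ℚ) : PowerSeries ℚ) = 2 := by
      have : (2 : Polynomial ℚ) = Polynomial.C 2 := (map_ofNat Polynomial.C 2).symm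
      rw [this, Polynomial.coe_C]; exact map_ofNat _ 2
    have hS := S_deriv
    simp only [Polynomial.coe_mul, Polynomial.coe_sub, Polynomial.coe_pow, h2] at *
    rw [e]
    linear_combination (r * (1 - 4 * X)) * h1 + (r * q : PowerSeries ℚ) * hS
      - ((1 - 4 * X) * (r.derivative : PowerSeries ℚ)) * h

/-! ### Sequences -/

/-- The generating function of `a` is in `K`. -/
def SeqK (a : ℕ → ℚ) : Prop := InK (PowerSeries.mk a)

theorem SeqK.congr {a b : ℕ → ℚ} (h : SeqK a) (hab : ∀ n, a n = b n) : SeqK b := by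
  have : a = b := funext hab
  rwa [← this]

theorem SeqK.add {a b : ℕ → ℚ} (ha : SeqK a) (hb : SeqK b) : SeqK (fun n => a n + b n) := by
  have : PowerSeries.mk (fun n => a n + b n) = PowerSeries.mk a + PowerSeries.mk b := by
    ext n; simp
  unfold SeqK
  rw [this]
  exact InK.add ha hb

theorem SeqK.neg {a : ℕ → ℚ} (ha : SeqK a) : SeqK (fun n => - a n) := by
  have : PowerSeries.mk (fun n => - a n) = - PowerSeries.mk a := by
    ext n; simp
  unfold SeqK
  rw [this]
  exact InK.neg ha

theorem SeqK.sub {a b : ℕ → ℚ} (ha : SeqK a) (hb : SeqK b) : SeqK (fun n => a n - b n) :=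
  (ha.add hb.neg).congr fun _ => (sub_eq_add_neg _ _).symm

theorem SeqK.smul {a : ℕ → ℚ} (c : ℚ) (ha : SeqK a) : SeqK (fun n => c * a n) := by
  have : PowerSeries.mk (fun n => c * a n) = PowerSeries.C c * PowerSeries.mk a := by
    ext n; simp
  unfold SeqK
  rw [this]
  exact InK.mul (InK.const c) ha

theorem SeqK.zero : SeqK (fun _ => 0) := by
  have : PowerSeries.mk (fun _ : ℕ => (0 : ℚ)) = 0 := by ext n; simp
  unfold SeqK
  rw [this]
  exact InK.zero

theorem SeqK.sum {ι : Type*} (s : Finset ι) (a : ι → ℕ → ℚ) (h : ∀ i ∈ s, SeqK (a i)) :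
    SeqK (fun n => ∑ i ∈ s, a i n) := by
  classical
  induction s using Finset.induction_on with
  | empty => simpa using SeqK.zero
  | insert i s his ih =>
    have h1 := (h i (Finset.mem_insert_self i s)).add
      (ih fun j hj => h j (Finset.mem_insert_of_mem hj))
    exact h1.congr fun n => by rw [Finset.sum_insert his]

theorem SeqK.shift_iff {a : ℕ → ℚ} : SeqK (fun n => a (n + 1)) ↔ SeqK a := by
  have h : PowerSeries.mk a = PowerSeries.C (a 0) + X * PowerSeries.mk (fun n => a (n + 1)) := by
    ext n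
    cases n with
    | zero => simp
    | succ n => simp [PowerSeries.coeff_succ_X_mul]
  constructor
  · intro h1
    unfold SeqK
    rw [h]
    exact (InK.const _).add (InK.varX.mul h1)
  · intro h1
    unfold SeqK at *
    apply InK.of_mul (G := X) X_ne_zero InK.varX
    have : PowerSeries.mk (fun n => a (n + 1)) * X = PowerSeries.mk a - PowerSeries.C (a 0) := by
      rw [h]; ring
    rw [this]
    exact h1.sub (InK.const _)

theorem SeqK.shift_iff' {a : ℕ → ℚ} (k : ℕ) : SeqK (fun n => a (n + k)) ↔ SeqK a := by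
  induction k with
  | zero => rfl
  | succ k ih =>
    rw [← ih]
    have h := SeqK.shift_iff (a := fun n => a (n + k))
    have e : (fun n => a (n + 1 + k)) = fun n => a (n + (k + 1)) := by
      funext n; congr 1; omega
    rw [e] at h
    exact h

theorem SeqK.of_eventually {a b : ℕ → ℚ} (N : ℕ) (h : ∀ n, N ≤ n → a n = b n) (ha : SeqK a) :
    SeqK b := by
  rw [← SeqK.shift_iff' N] at ha ⊢
  exact ha.congr fun n => h _ (by omega)

/-- shift to the right -/
theorem SeqK.shiftRight {a : ℕ → ℚ} (k : ℕ) (h : SeqK a) :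
    SeqK (fun n => if k ≤ n then a (n - k) else 0) := by
  rw [← SeqK.shift_iff' k]
  exact h.congr fun n => by simp

theorem SeqK.mul_n {a : ℕ → ℚ} (h : SeqK a) : SeqK (fun n => (n : ℚ) * a n) := by
  have : PowerSeries.mk (fun n => (n : ℚ) * a n) =
      X * PowerSeries.derivative ℚ (PowerSeries.mk a) := by
    ext n
    cases n with
    | zero => simp
    | succ n =>
      rw [PowerSeries.coeff_mk, PowerSeries.coeff_succ_X_mul, PowerSeries.coeff_derivative,
        PowerSeries.coeff_mk]
      push_cast; ring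
  unfold SeqK
  rw [this]
  exact InK.varX.mul (InK.deriv h)

theorem SeqK.mul_poly {a : ℕ → ℚ} (p : Polynomial ℚ) (h : SeqK a) :
    SeqK (fun n => p.eval (n : ℚ) * a n) := by
  induction p using Polynomial.induction_on with
  | C c => exact (h.smul c).congr fun n => by simp
  | add p q hp hq => exact (hp.add hq).congr fun n => by simp [add_mul]
  | monomial k c ih => exact ih.mul_n.congr fun n => by simp; ring

theorem SeqK.const (c : ℚ) : SeqK (fun _ => c) := by
  unfold SeqK
  apply InK.of_mul (G := 1 - X)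
  · intro h
    have := congrArg (PowerSeries.coeff 0) h
    simp at this
  · exact InK.one.sub InK.varX
  · have : PowerSeries.mk (fun _ : ℕ => c) * (1 - X) = PowerSeries.C c := by
      ext n
      cases n with
      | zero => simp
      | succ n => simp [mul_sub, PowerSeries.coeff_succ_mul_X]
    rw [this]
    exact InK.const c

theorem SeqK.poly (p : Polynomial ℚ) : SeqK (fun n => p.eval (n : ℚ)) :=
  ((SeqK.const 1).mul_poly p).congr fun n => by simp

theorem SeqK.catalanNum : SeqK (fun n => (catalan n : ℚ)) := by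
  unfold SeqK
  have h : PowerSeries.mk (fun n => (catalan n : ℚ)) =
      catalanSeries.map (Nat.castRingHom ℚ) := by
    ext n; simp
  rw [h]
  apply InK.of_mul (G := 2 * X)
  · exact mul_ne_zero two_ne_zero' X_ne_zero
  · have : (2 : PowerSeries ℚ) = PowerSeries.C 2 := (map_ofNat PowerSeries.C 2).symm
    rw [this]
    exact (InK.const 2).mul InK.varX
  · have : (catalanSeries.map (Nat.castRingHom ℚ)) * (2 * X) = 1 - Pool.Agent.Work.MP_9eb367_co.S := by
      unfold Pool.Agent.Work.MP_9eb367_co.S; ring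
    rw [this]
    exact InK.one.sub InK.sq4

theorem SeqK.centralBin : SeqK (fun n => (Nat.centralBinom n : ℚ)) := by
  refine ((SeqK.catalanNum.mul_n).add SeqK.catalanNum).congr fun n => ?_
  have h := succ_mul_catalan_eq_centralBinom n
  rw [← h]; push_cast; ring

/-! ### Linear systems -/

theorem InK.det {ι : Type*} [Fintype ι] [DecidableEq ι] (M : Matrix ι ι (PowerSeries ℚ))
    (h : ∀ i j, InK (M i j)) : InK M.det := by
  rw [Matrix.det_apply]
  apply InK.sum
  intro σ _
  rw [Units.smul_def]
  exact KR.zsmul_mem (KR.prod_mem fun i _ => mem_KR.2 (h _ _)) _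

theorem linear_system {ι : Type*} [Fintype ι] (M : ι → ι → PowerSeries ℚ)
    (b F : ι → PowerSeries ℚ) (hM : ∀ i j, InK (M i j)) (hb : ∀ i, InK (b i))
    (hF : ∀ i, F i = b i + X * ∑ j, M i j * F j) (i : ι) : InK (F i) := by
  classical
  set A : Matrix ι ι (PowerSeries ℚ) := 1 - Matrix.of (fun i j => X * M i j) with hA
  have hAF : A.mulVec F = b := by
    funext i
    rw [hA, Matrix.sub_mulVec, Matrix.one_mulVec]
    simp only [Pi.sub_apply, Matrix.mulVec, dotProduct, Matrix.of_apply]
    rw [hF i, Finset.mul_sum]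
    simp only [mul_assoc]
    rw [← Finset.mul_sum]
    ring
  have hAK : ∀ i j, InK (A i j) := by
    intro i j
    rw [hA]
    simp only [Matrix.sub_apply, Matrix.of_apply, Matrix.one_apply]
    refine InK.sub ?_ (InK.varX.mul (hM i j))
    split_ifs
    · exact InK.one
    · exact InK.zero
  have hdet0 : A.det ≠ 0 := by
    intro h0
    have h1 : PowerSeries.constantCoeff A.det = 1 := by
      rw [RingHom.map_det]
      have : (PowerSeries.constantCoeff).mapMatrix A = (1 : Matrix ι ι ℚ) := by
        ext i j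
        rw [hA]
        simp only [RingHom.mapMatrix_apply, Matrix.map_apply, Matrix.sub_apply, Matrix.of_apply,
          map_sub, map_mul, PowerSeries.constantCoeff_X, zero_mul, sub_zero, Matrix.one_apply]
        split_ifs <;> simp
      rw [this, Matrix.det_one]
    rw [h0] at h1
    simp at h1
  apply InK.of_mul (G := A.det) hdet0 (InK.det A hAK)
  have h2 : A.adjugate.mulVec b = A.det • F := by
    rw [← hAF, Matrix.mulVec_mulVec, Matrix.adjugate_mul, Matrix.smul_mulVec, Matrix.one_mulVec]
  have h3 := congrFun h2 i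
  simp only [Pi.smul_apply, smul_eq_mul] at h3
  rw [mul_comm, ← h3]
  simp only [Matrix.mulVec, dotProduct]
  apply InK.sum
  intro j _
  refine InK.mul ?_ (hb j)
  rw [Matrix.adjugate_apply]
  apply InK.det
  intro k l
  by_cases hk : k = j
  · subst hk
    rw [Matrix.updateRow_self]
    by_cases hl : l = i
    · subst hl; rw [Pi.single_eq_same]; exact InK.one
    · rw [Pi.single_eq_of_ne hl]; exact InK.zero
  · rw [Matrix.updateRow_ne hk]
    exact hAK k l

end Pool.Agent.Work.MP_9eb367_co
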