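import Pool.Agent.Work.MP_9eb367_co.Assemble

open Finset

namespace Pool.Agent.Work.MP_9eb367_co

open MT

open Classical in
theorem sel_card {U : Finset ℕ} {s : ℕ} (hU : U.card = s) (A : Finset (Fin s)) :
    (sel U A).card = A.card := by
  unfold sel
  exact Finset.card_image_of_injective _ (enu_strictMono hU).injective

theorem sel_erase {U : Finset ℕ} {s : ℕ} (hU : U.card = s) (A : Finset (Fin s)) (p : Fin s) :
    sel U (A.erase p) = (sel U A).erase (enu U p) := by
  unfold sel
  ext x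
  rw [mem_image, mem_erase, mem_image]
  constructor
  · rintro ⟨k, hk, rfl⟩
    rw [mem_erase] at hk
    exact ⟨fun e => hk.1 ((enu_strictMono hU).injective e), k, hk.2, rfl⟩
  · rintro ⟨hne, k, hk, rfl⟩
    exact ⟨k, by rw [mem_erase]; exact ⟨fun e => hne (by rw [e]), hk⟩, rfl⟩

theorem sel_injective {U : Finset ℕ} {s : ℕ} (hU : U.card = s) :
    Function.Injective (sel U (s := s)) := by
  intro A B h
  unfold sel at h
  exact Finset.image_injective (enu_strictMono hU).injective h

theorem sel_surj {U : Finset ℕ} {s : ℕ} (hU : U.card = s) {X : Finset ℕ} (hX : X ⊆ U) :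
    ∃ A : Finset (Fin s), sel U A = X := by
  classical
  refine ⟨univ.filter (fun k => enu U k ∈ X), ?_⟩
  unfold sel
  ext x
  rw [mem_image]
  constructor
  · rintro ⟨k, hk, rfl⟩
    rw [mem_filter] at hk
    exact hk.2
  · intro hx
    have := hX hx
    rw [← image_enu hU, mem_image] at this
    obtain ⟨k, _, rfl⟩ := this
    exact ⟨k, by rw [mem_filter]; exact ⟨mem_univ _, hx⟩, rfl⟩

theorem AvW.mono {R : ℕ → ℕ → ℕ → Prop} {w : List ℕ} {D D' : Finset ℕ} (h : AvW R w D)
    (hD : D ⊆ D') : AvW R w D' :=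
  fun x y z hs hx hy hz => h x y z hs (fun e => hx (hD e)) (fun e => hy (hD e))
    (fun e => hz (hD e))

def GoodW (t : ℕ) {s : ℕ} (F : Finset (Finset (Fin s))) (w : List ℕ) (U : Finset ℕ) : Prop :=
  ∀ A ∈ F, A.card ≤ t ∧ AvW R231 w (sel U A) ∧ ∀ p ∈ A, ¬ AvW R231 w (sel U (A.erase p))

def GoodT (t : ℕ) {s : ℕ} (F : Finset (Finset (Fin s))) (q : Ty) (ρ : Equiv.Perm (Fin s)) :
    Prop :=
  ∀ A ∈ F, A.card ≤ t ∧ ¬ Bad q ρ A ∧ ∀ p ∈ A, Bad q ρ (A.erase p)

theorem goodW_iff {t s : ℕ} {F : Finset (Finset (Fin s))} {D : MT} (ha : la D = s)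
    (hb : lb D ≤ s) (ρ : Equiv.Perm (Fin s)) :
    GoodW t F (Wd D s ρ) (Us D s) ↔ GoodT t F (tp D) ρ := by
  unfold GoodW GoodT
  simp only [avW_Wd ha hb, not_not]

open Classical in
theorem count_good (t s : ℕ) (F : Finset (Finset (Fin s))) (hF : F.Nonempty) (m : ℕ) :
    ((pm (m + s) ×ˢ powersetCard s (range (m + s))).filter
      (fun x => GoodW t F x.1 x.2)).card =
    ∑ ρ : Equiv.Perm (Fin s), ∑ j ∈ range (s + 1),
      ((trees m s j).filter (fun D => GoodT t F (tp D) ρ)).card := by
  set TS := (range (s + 1)).biUnion (fun j => trees m s j) with hTS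
  have hmemTS : ∀ D, D ∈ TS ↔ sz D = m ∧ la D = s ∧ lb D ≤ s := by
    intro D
    rw [hTS, mem_biUnion]
    constructor
    · rintro ⟨j, hj, hD⟩
      rw [mem_range] at hj
      rw [mem_trees] at hD
      omega
    · rintro ⟨h1, h2, h3⟩
      exact ⟨lb D, by rw [mem_range]; omega, by rw [mem_trees]; exact ⟨h1, h2, rfl⟩⟩
  have h1 : ∀ ρ : Equiv.Perm (Fin s), ∑ j ∈ range (s + 1),
      ((trees m s j).filter (fun D => GoodT t F (tp D) ρ)).card =
      (TS.filter (fun D => GoodT t F (tp D) ρ)).card := by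
    intro ρ
    simp only [Finset.card_filter]
    rw [hTS, Finset.sum_biUnion]
    intro j _ j' _ hjj
    rw [Function.onFun, Finset.disjoint_left]
    intro D hD hD'
    rw [mem_trees] at hD hD'
    omega
  simp only [h1]
  have h2 : ∑ ρ : Equiv.Perm (Fin s), (TS.filter (fun D => GoodT t F (tp D) ρ)).card =
      (((univ : Finset (Equiv.Perm (Fin s))) ×ˢ TS).filter
        (fun x => GoodT t F (tp x.2) x.1)).card := by
    simp only [Finset.card_filter]
    rw [Finset.sum_product]
  rw [h2]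
  symm
  refine Finset.card_bij (fun x _ => (Wd x.2 s x.1, Us x.2 s)) ?_ ?_ ?_
  · rintro ⟨ρ, D⟩ hx
    rw [mem_filter, mem_product, hmemTS] at hx
    obtain ⟨⟨_, g1, g2, g3⟩, g4⟩ := hx
    simp only at g1 g2 g3 g4 ⊢
    rw [mem_filter, mem_product]
    have hmem := Wd_mem g2 g3 ρ
    rw [g1] at hmem
    refine ⟨⟨hmem, ?_⟩, (goodW_iff g2 g3 ρ).2 g4⟩
    rw [mem_powersetCard]
    refine ⟨?_, Us_card g3⟩
    intro x hx
    have h5 : x ∈ Ml D s ρ := (mem_Ml g3).2 hx
    have h6 : x ∈ Wd D s ρ := (marks_sublist D 0 _ (by rw [Ml_length, g2])).subset h5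
    rw [mem_pm] at hmem
    have := hmem.mem_iff.1 h6
    rw [mem_range]; rwa [List.mem_range] at this
  · rintro ⟨ρ, D⟩ hx ⟨ρ', D'⟩ hx' he
    rw [mem_filter, mem_product, hmemTS] at hx hx'
    simp only [Prod.mk.injEq] at he
    obtain ⟨e1, e2⟩ := Wd_inj hx.1.2.2.1 hx.1.2.2.2 hx'.1.2.2.1 hx'.1.2.2.2 he.2 he.1
    exact Prod.ext e2 e1
  · rintro ⟨w, U⟩ hx
    rw [mem_filter, mem_product] at hx
    obtain ⟨⟨hw, hU⟩, hG⟩ := hx
    simp only at hw hU hG
    obtain ⟨A, hA⟩ := hF
    have hUc := (mem_powersetCard.1 hU).2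
    have hav : AvW R231 w U := (hG A hA).2.1.mono (sel_subset hUc A)
    obtain ⟨D, ρ, g1, g2, g3, g4, g5⟩ := exists_tree hw hU hav
    refine ⟨(ρ, D), ?_, ?_⟩
    · rw [mem_filter, mem_product, hmemTS]
      refine ⟨⟨mem_univ _, by simp only; omega, g1, g2⟩, ?_⟩
      simp only
      rw [← goodW_iff g1 g2 ρ, g4, g5]
      exact hG
    · simp only
      rw [g4, g5]

open Classical in
theorem seqK_trees (t s j : ℕ) (F : Finset (Finset (Fin s))) (ρ : Equiv.Perm (Fin s)) :
    SeqK (fun m => ((((trees m s j).filter (fun D => GoodT t F (tp D) ρ)).card : ℕ) : ℚ)) := by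
  have h : SeqK (fun m => ∑ q ∈ (TT s j).filter (fun q => GoodT t F q ρ), (cnum m s j q : ℚ)) := by
    apply SeqK.sum
    intro q _
    exact GF_InK (s + j) s j rfl q
  refine h.congr fun m => ?_
  rw [← Nat.cast_sum]
  congr 1
  symm
  rw [Finset.card_eq_sum_card_fiberwise (f := tp)
    (t := (TT s j).filter (fun q => GoodT t F q ρ))]
  · refine Finset.sum_congr rfl fun q hq => ?_
    rw [mem_filter] at hq
    unfold cnum
    congr 1
    ext D
    rw [mem_filter, mem_filter, mem_filter]
    constructor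
    · exact fun h => ⟨h.1.1, h.2⟩
    · exact fun h => ⟨⟨h.1, by rw [h.2]; exact hq.2⟩, h.2⟩
  · intro D hD
    rw [mem_coe, mem_filter, mem_trees] at hD
    rw [mem_coe, mem_filter]
    refine ⟨?_, hD.2⟩
    have := tp_mem D
    rwa [hD.1.2.1, hD.1.2.2] at this

open Classical in
theorem seqK_good (t s : ℕ) (F : Finset (Finset (Fin s))) (hF : F.Nonempty) :
    SeqK (fun n => ((((pm n ×ˢ powersetCard s (range n)).filter
      (fun x => GoodW t F x.1 x.2)).card : ℕ) : ℚ)) := by
  rw [← SeqK.shift_iff' s]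
  have h : SeqK (fun m => ∑ ρ : Equiv.Perm (Fin s), ∑ j ∈ range (s + 1),
      ((((trees m s j).filter (fun D => GoodT t F (tp D) ρ)).card : ℕ) : ℚ)) := by
    apply SeqK.sum
    intro ρ _
    apply SeqK.sum
    intro j _
    exact seqK_trees t s j F ρ
  refine h.congr fun m => ?_
  rw [count_good t s F hF m]
  push_cast
  rfl

/-! ### Minimal hitting sets -/

open Classical in
noncomputable def Minw (t n : ℕ) (w : List ℕ) : Finset (Finset ℕ) :=
  ((range n).powerset).filter (fun S => S.card ≤ t ∧ AvW R231 w S ∧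
    ∀ p ∈ S, ¬ AvW R231 w (S.erase p))

theorem minw_nonempty {t n : ℕ} {w : List ℕ} :
    (Minw t n w).Nonempty ↔ ∃ D : Finset ℕ, D ⊆ range n ∧ D.card ≤ t ∧ AvW R231 w D := by
  classical
  constructor
  · rintro ⟨S, hS⟩
    unfold Minw at hS
    rw [mem_filter, mem_powerset] at hS
    exact ⟨S, hS.1, hS.2.1, hS.2.2.1⟩
  · rintro ⟨D, h1, h2, h3⟩
    -- take a hitting set of minimal cardinality
    have hex : ∃ k, ∃ S : Finset ℕ, S ⊆ range n ∧ S.card ≤ t ∧ AvW R231 w S ∧ S.card = k :=
      ⟨D.card, D, h1, h2, h3, rfl⟩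
    obtain ⟨S, s1, s2, s3, s4⟩ := Nat.find_spec hex
    refine ⟨S, ?_⟩
    unfold Minw
    rw [mem_filter, mem_powerset]
    refine ⟨s1, s2, s3, fun p hp hc => ?_⟩
    have hlt : (S.erase p).card < Nat.find hex := by
      rw [← s4]; exact Finset.card_erase_lt_of_mem hp
    exact Nat.find_min hex hlt ⟨S.erase p, (Finset.erase_subset _ _).trans s1,
      (Finset.card_le_card (Finset.erase_subset _ _)).trans s2, hc, rfl⟩

theorem minw_bound_aux {t n : ℕ} {w : List ℕ} (k : ℕ) : ∀ D0 : Finset ℕ,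
    ((Minw t n w).filter (fun S => D0 ⊆ S ∧ S.card ≤ D0.card + k)).card ≤ 3 ^ k := by
  classical
  have hmin : ∀ S ∈ Minw t n w, AvW R231 w S ∧ ∀ p ∈ S, ¬ AvW R231 w (S.erase p) := by
    intro S hS
    unfold Minw at hS
    rw [mem_filter] at hS
    exact hS.2.2
  induction k with
  | zero =>
    intro D0
    refine (Finset.card_le_card (t := {D0}) ?_).trans (by simp)
    intro S hS
    rw [mem_filter] at hS
    rw [mem_singleton]
    exact (Finset.eq_of_subset_of_card_le hS.2.1 (by omega)).symm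
  | succ k ih =>
    intro D0
    by_cases hD : AvW R231 w D0
    · refine (Finset.card_le_card (t := {D0}) ?_).trans (by simp [Nat.one_le_pow])
      intro S hS
      rw [mem_filter] at hS
      rw [mem_singleton]
      by_contra hne
      obtain ⟨p, hp, hpD⟩ : ∃ p ∈ S, p ∉ D0 := by
        by_contra hc
        push Not at hc
        exact hne (Finset.Subset.antisymm hc hS.2.1)
      refine (hmin S hS.1).2 p hp (hD.mono ?_)
      intro x hx
      rw [mem_erase]
      exact ⟨fun e => hpD (e ▸ hx), hS.2.1 hx⟩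
    · unfold AvW at hD
      push Not at hD
      obtain ⟨x, y, z, hs, hx, hy, hz, hR⟩ := hD
      have hsub : (Minw t n w).filter (fun S => D0 ⊆ S ∧ S.card ≤ D0.card + (k + 1)) ⊆
          (Minw t n w).filter (fun S => insert x D0 ⊆ S ∧ S.card ≤ (insert x D0).card + k) ∪
          ((Minw t n w).filter (fun S => insert y D0 ⊆ S ∧ S.card ≤ (insert y D0).card + k) ∪
          (Minw t n w).filter (fun S => insert z D0 ⊆ S ∧ S.card ≤ (insert z D0).card + k)) := by
        intro S hS
        rw [mem_filter] at hS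
        obtain ⟨hS1, hS2, hS3⟩ := hS
        simp only [mem_union, mem_filter]
        have hhit : x ∈ S ∨ y ∈ S ∨ z ∈ S := by
          by_contra hc
          push Not at hc
          exact (hmin S hS1).1 x y z hs hc.1 hc.2.1 hc.2.2 hR
        rcases hhit with h | h | h
        · left
          refine ⟨hS1, Finset.insert_subset h hS2, ?_⟩
          rw [Finset.card_insert_of_notMem hx]; omega
        · right; left
          refine ⟨hS1, Finset.insert_subset h hS2, ?_⟩
          rw [Finset.card_insert_of_notMem hy]; omega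
        · right; right
          refine ⟨hS1, Finset.insert_subset h hS2, ?_⟩
          rw [Finset.card_insert_of_notMem hz]; omega
      have h1 := Finset.card_le_card hsub
      have h2 := ih (insert x D0)
      have h3 := ih (insert y D0)
      have h4 := ih (insert z D0)
      refine h1.trans ((Finset.card_union_le _ _).trans ?_)
      have h5 := Finset.card_union_le
        ((Minw t n w).filter (fun S => insert y D0 ⊆ S ∧ S.card ≤ (insert y D0).card + k))
        ((Minw t n w).filter (fun S => insert z D0 ⊆ S ∧ S.card ≤ (insert z D0).card + k))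
      rw [pow_succ]
      omega

theorem minw_union (t n : ℕ) (w : List ℕ) : ((Minw t n w).biUnion id).card ≤ 3 ^ t * t := by
  classical
  have h1 : (Minw t n w).card ≤ 3 ^ t := by
    refine le_trans (Finset.card_le_card ?_) (minw_bound_aux t (∅ : Finset ℕ) (n := n) (w := w)
      (t := t))
    intro S hS
    rw [mem_filter]
    refine ⟨hS, by simp, ?_⟩
    unfold Minw at hS
    rw [mem_filter] at hS
    simp only [Finset.card_empty, zero_add]
    exact hS.2.1
  have h2 : ((Minw t n w).biUnion id).card ≤ (Minw t n w).card * t := by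
    refine Finset.card_biUnion_le_card_mul _ _ _ ?_
    intro S hS
    unfold Minw at hS
    rw [mem_filter] at hS
    exact hS.2.1
  exact h2.trans (Nat.mul_le_mul_right t h1)

/-! ### Inclusion–exclusion -/

open Classical in
noncomputable def Fam (s : ℕ) : Finset (Finset (Finset (Fin s))) :=
  univ.filter (fun F => F.Nonempty ∧ F.biUnion id = univ)

open Classical in
theorem indicator_eq (n M : ℕ) (𝓜 : Finset (Finset ℕ)) (h𝓜 : ∀ S ∈ 𝓜, S ⊆ range n)
    (hM : (𝓜.biUnion id).card ≤ M) :
    (if 𝓜.Nonempty then (1 : ℚ) else 0) = ∑ s ∈ range (M + 1), ∑ F ∈ Fam s,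
      (-1 : ℚ) ^ (F.card + 1) *
        (((powersetCard s (range n)).filter (fun U => ∀ A ∈ F, sel U A ∈ 𝓜)).card : ℚ) := by
  -- left side as alternating sum
  have hL : (if 𝓜.Nonempty then (1 : ℚ) else 0) =
      ∑ 𝓢 ∈ 𝓜.powerset.filter (fun 𝓢 => 𝓢.Nonempty), (-1 : ℚ) ^ (𝓢.card + 1) := by
    have h1 := Finset.sum_powerset_neg_one_pow_card (x := 𝓜)
    have h2 : ∑ 𝓢 ∈ 𝓜.powerset, (-1 : ℚ) ^ (𝓢.card) = if 𝓜 = ∅ then 1 else 0 := by
      have := congrArg (fun z : ℤ => (z : ℚ)) h1
      push_cast at this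
      exact this
    have h3 : ∑ 𝓢 ∈ 𝓜.powerset, (-1 : ℚ) ^ (𝓢.card) =
        1 + ∑ 𝓢 ∈ 𝓜.powerset.filter (fun 𝓢 => 𝓢.Nonempty), (-1 : ℚ) ^ (𝓢.card) := by
      rw [← Finset.sum_filter_add_sum_filter_not 𝓜.powerset (fun 𝓢 => 𝓢.Nonempty)]
      rw [add_comm]
      congr 1
      have : 𝓜.powerset.filter (fun 𝓢 => ¬ 𝓢.Nonempty) = {∅} := by
        ext 𝓢
        rw [mem_filter, mem_powerset, mem_singleton, Finset.not_nonempty_iff_eq_empty]
        constructor
        · exact fun h => h.2
        · rintro rfl; simp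
      rw [this]; simp
    have h4 : ∑ 𝓢 ∈ 𝓜.powerset.filter (fun 𝓢 => 𝓢.Nonempty), (-1 : ℚ) ^ (𝓢.card + 1) =
        - ∑ 𝓢 ∈ 𝓜.powerset.filter (fun 𝓢 => 𝓢.Nonempty), (-1 : ℚ) ^ (𝓢.card) := by
      rw [← Finset.sum_neg_distrib]
      refine Finset.sum_congr rfl fun _ _ => ?_
      rw [pow_succ]; ring
    rw [h4]
    rw [h3] at h2
    by_cases he : 𝓜 = ∅
    · rw [if_pos he] at h2
      rw [if_neg (by rw [he]; simp)]
      linarith
    · rw [if_neg he] at h2
      rw [if_pos (Finset.nonempty_iff_ne_empty.2 he)]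
      linarith
  rw [hL]
  -- right side
  have hR : ∀ s ∈ range (M + 1), ∑ F ∈ Fam s, (-1 : ℚ) ^ (F.card + 1) *
        (((powersetCard s (range n)).filter (fun U => ∀ A ∈ F, sel U A ∈ 𝓜)).card : ℚ) =
      ∑ U ∈ powersetCard s (range n),
        ∑ 𝓢 ∈ (𝓜.powerset.filter (fun 𝓢 => 𝓢.Nonempty)).filter (fun 𝓢 => 𝓢.biUnion id = U),
          (-1 : ℚ) ^ (𝓢.card + 1) := by
    intro s _
    have h1 : ∀ F ∈ Fam s, (-1 : ℚ) ^ (F.card + 1) *
        (((powersetCard s (range n)).filter (fun U => ∀ A ∈ F, sel U A ∈ 𝓜)).card : ℚ) =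
        ∑ U ∈ powersetCard s (range n), if (∀ A ∈ F, sel U A ∈ 𝓜) then
          (-1 : ℚ) ^ (F.card + 1) else 0 := by
      intro F _
      rw [← Finset.sum_filter, Finset.sum_const, nsmul_eq_mul, mul_comm]
    rw [Finset.sum_congr rfl h1, Finset.sum_comm]
    refine Finset.sum_congr rfl fun U hU => ?_
    rw [mem_powersetCard] at hU
    obtain ⟨hUn, hUs⟩ := hU
    rw [← Finset.sum_filter]
    refine Finset.sum_bij (fun F _ => F.image (sel U)) ?_ ?_ ?_ ?_
    · intro F hF
      rw [mem_filter] at hF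
      obtain ⟨hF1, hF2⟩ := hF
      unfold Fam at hF1
      rw [mem_filter] at hF1
      rw [mem_filter, mem_filter, mem_powerset]
      refine ⟨⟨?_, hF1.2.1.image _⟩, ?_⟩
      · intro S hS
        rw [mem_image] at hS
        obtain ⟨A, hA, rfl⟩ := hS
        exact hF2 A hA
      · have hu := hF1.2.2
        have hUe := image_enu hUs
        ext x
        have hxU : x ∈ U ↔ x ∈ (univ : Finset (Fin s)).image (fun k : Fin s => enu U k) := by
          rw [hUe]
        rw [hxU, mem_biUnion, mem_image]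
        constructor
        · rintro ⟨S, hS, hxS⟩
          rw [mem_image] at hS
          obtain ⟨A, hA, rfl⟩ := hS
          simp only [id] at hxS
          unfold sel at hxS
          rw [mem_image] at hxS
          obtain ⟨k, _, hk⟩ := hxS
          exact ⟨k, mem_univ _, hk⟩
        · rintro ⟨k, _, rfl⟩
          have hk : k ∈ F.biUnion id := by rw [hu]; exact mem_univ _
          rw [mem_biUnion] at hk
          obtain ⟨A, hA, hkA⟩ := hk
          refine ⟨sel U A, mem_image_of_mem _ hA, ?_⟩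
          simp only [id] at hkA ⊢
          unfold sel
          exact mem_image_of_mem _ hkA
    · intro F _ F' _ he
      exact Finset.image_injective (sel_injective hUs) he
    · intro 𝓢 h𝓢
      rw [mem_filter, mem_filter, mem_powerset] at h𝓢
      obtain ⟨⟨g1, g2⟩, g3⟩ := h𝓢
      have hsubU : ∀ S ∈ 𝓢, S ⊆ U := by
        intro S hS
        rw [← g3]
        exact Finset.subset_biUnion_of_mem id hS
      refine ⟨univ.filter (fun A : Finset (Fin s) => sel U A ∈ 𝓢), ?_, ?_⟩
      · rw [mem_filter]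
        refine ⟨?_, ?_⟩
        · unfold Fam
          rw [mem_filter]
          refine ⟨mem_univ _, ?_, ?_⟩
          · obtain ⟨S, hS⟩ := g2
            obtain ⟨A, hA⟩ := sel_surj hUs (hsubU S hS)
            exact ⟨A, by rw [mem_filter, hA]; exact ⟨mem_univ _, hS⟩⟩
          · ext k
            rw [mem_biUnion]
            constructor
            · intro _; exact mem_univ _
            · intro _
              have hk : enu U k ∈ 𝓢.biUnion id := by rw [g3]; exact enu_mem hUs k
              rw [mem_biUnion] at hk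
              obtain ⟨S, hS, hkS⟩ := hk
              obtain ⟨A, hA⟩ := sel_surj hUs (hsubU S hS)
              refine ⟨A, by rw [mem_filter, hA]; exact ⟨mem_univ _, hS⟩, ?_⟩
              simp only [id] at hkS ⊢
              rw [← hA] at hkS
              unfold sel at hkS
              rw [mem_image] at hkS
              obtain ⟨k', hk', he⟩ := hkS
              rwa [← (enu_strictMono hUs).injective he]
        · intro A hA
          rw [mem_filter] at hA
          exact g1 hA.2
      · ext S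
        rw [mem_image]
        constructor
        · rintro ⟨A, hA, rfl⟩
          rw [mem_filter] at hA
          exact hA.2
        · intro hS
          obtain ⟨A, hA⟩ := sel_surj hUs (hsubU S hS)
          exact ⟨A, by rw [mem_filter, hA]; exact ⟨mem_univ _, hS⟩, hA⟩
    · intro F _
      rw [Finset.card_image_of_injective _ (sel_injective hUs)]
  rw [Finset.sum_congr rfl hR]
  rw [← Finset.sum_fiberwise_of_maps_to (s := 𝓜.powerset.filter (fun 𝓢 => 𝓢.Nonempty))
    (t := (range (M + 1)).biUnion (fun s => powersetCard s (range n)))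
    (g := fun 𝓢 => 𝓢.biUnion id)]
  · rw [Finset.sum_biUnion]
    intro s _ s' _ hss
    rw [Function.onFun, Finset.disjoint_left]
    intro U hU hU'
    rw [mem_powersetCard] at hU hU'
    omega
  · intro 𝓢 h𝓢
    rw [mem_filter, mem_powerset] at h𝓢
    rw [mem_biUnion]
    have hsub : 𝓢.biUnion id ⊆ 𝓜.biUnion id := Finset.biUnion_subset_biUnion_of_subset_left _ h𝓢.1
    refine ⟨(𝓢.biUnion id).card, ?_, ?_⟩
    · rw [mem_range]
      have := Finset.card_le_card hsub
      omega
    · rw [mem_powersetCard]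
      refine ⟨?_, rfl⟩
      intro x hx
      rw [mem_biUnion] at hx
      obtain ⟨S, hS, hxS⟩ := hx
      exact h𝓜 S (h𝓢.1 hS) hxS

open Classical in
theorem seqK_231 (t : ℕ) : SeqK (fun n => ((((pm n).filter
    (fun w => ∃ D : Finset ℕ, D ⊆ range n ∧ D.card ≤ t ∧ AvW R231 w D)).card : ℕ) : ℚ)) := by
  have hK : SeqK (fun n => ∑ s ∈ range (3 ^ t * t + 1), ∑ F ∈ Fam s, (-1 : ℚ) ^ (F.card + 1) *
      ((((pm n ×ˢ powersetCard s (range n)).filter (fun x => GoodW t F x.1 x.2)).card : ℕ) : ℚ)) := by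
    apply SeqK.sum
    intro s _
    apply SeqK.sum
    intro F hF
    apply SeqK.smul
    unfold Fam at hF
    rw [mem_filter] at hF
    exact seqK_good t s F hF.2.1
  refine hK.congr fun n => ?_
  rw [Finset.card_filter]
  push_cast
  have h1 : ∀ w ∈ pm n, (if (∃ D : Finset ℕ, D ⊆ range n ∧ D.card ≤ t ∧ AvW R231 w D) then
      (1 : ℚ) else 0) = ∑ s ∈ range (3 ^ t * t + 1), ∑ F ∈ Fam s,
      (-1 : ℚ) ^ (F.card + 1) *
        (((powersetCard s (range n)).filter (fun U => ∀ A ∈ F, sel U A ∈ Minw t n w)).card : ℚ) := by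
    intro w _
    rw [← indicator_eq n (3 ^ t * t) (Minw t n w) ?_ (minw_union t n w)]
    · by_cases h : (Minw t n w).Nonempty
      · rw [if_pos h, if_pos (minw_nonempty.1 h)]
      · rw [if_neg h, if_neg (fun h' => h (minw_nonempty.2 h'))]
    · intro S hS
      unfold Minw at hS
      rw [mem_filter, mem_powerset] at hS
      exact hS.1
  rw [Finset.sum_congr rfl h1, Finset.sum_comm]
  refine Finset.sum_congr rfl fun s _ => ?_
  rw [Finset.sum_comm]
  refine Finset.sum_congr rfl fun F _ => ?_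
  rw [← Finset.mul_sum]
  congr 1
  rw [← Nat.cast_sum]
  congr 1
  rw [Finset.card_filter, Finset.sum_product]
  refine Finset.sum_congr rfl fun w _ => ?_
  rw [← Finset.card_filter]
  congr 1
  refine Finset.filter_congr fun U hU => ?_
  rw [mem_powersetCard] at hU
  obtain ⟨hUn, hUs⟩ := hU
  unfold GoodW
  refine forall₂_congr fun A _ => ?_
  unfold Minw
  rw [mem_filter, mem_powerset, sel_card hUs]
  constructor
  · rintro ⟨a1, a2, a3⟩
    refine ⟨(sel_subset hUs A).trans hUn, a1, a2, ?_⟩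
    intro x hx
    unfold sel at hx
    rw [mem_image] at hx
    obtain ⟨k, hk, rfl⟩ := hx
    rw [← sel_erase hUs]
    exact a3 k hk
  · rintro ⟨_, a1, a2, a3⟩
    refine ⟨a1, a2, ?_⟩
    intro k hk
    rw [sel_erase hUs]
    apply a3
    unfold sel
    exact mem_image_of_mem _ hk

theorem seqK_perm_231 (t : ℕ) :
    SeqK (fun n => (Nat.card {π : Equiv.Perm (Fin n) // AlmostAv p231 t π} : ℚ)) := by
  classical
  refine (seqK_231 t).congr fun n => ?_
  rw [card_perm_eq (fun π => AlmostAv p231 t π)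
    (fun w => ∃ D : Finset ℕ, D ⊆ range n ∧ D.card ≤ t ∧ AvW R231 w D)]
  intro π
  rw [almostAv_iff p231 R231 p231_R]

end Pool.Agent.Work.MP_9eb367_co
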