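import Pool.Agent.Work.MP_9eb367_co.Binom

open Finset Equiv

namespace Pool.Agent.Work.MP_9eb367_co

variable {t : ℕ}

/-- The vector `(a, b, μ_0, μ_1, …)`. -/
def lam (a b : ℤ) (μ : Fin t → ℕ) : Fin (t + 2) → ℤ :=
  Fin.cons a (Fin.cons b (fun i => (μ i : ℤ)))

def cc (μ : Fin t → ℕ) (σ : Perm (Fin (t + 2))) : ℚ :=
  ((Perm.sign σ : ℤ) : ℚ) *
    ∏ i : Fin t, ifac ((μ i : ℤ) - ((i : ℕ) + 2 : ℕ) + ((σ i.succ.succ : ℕ) : ℤ))

theorem DD_lam (a b : ℤ) (μ : Fin t → ℕ) :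
    DD (lam a b μ) = ∑ σ : Perm (Fin (t + 2)),
      cc μ σ * (ifac (a + ((σ 0 : ℕ) : ℤ)) * ifac (b - 1 + ((σ 1 : ℕ) : ℤ))) := by
  rw [DD_eq]
  refine Finset.sum_congr rfl fun σ _ => ?_
  rw [Fin.prod_univ_succ, Fin.prod_univ_succ]
  unfold cc lam
  simp only [Fin.cons_zero, Fin.cons_succ, Fin.val_zero, Nat.cast_zero, sub_zero, Fin.val_succ]
  have h1 : (Fin.succ (0 : Fin (t + 1))) = 1 := rfl
  rw [h1]
  have h2 : ((0 + 1 : ℕ) : ℤ) = 1 := by norm_num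
  rw [h2]
  have h3 : ∀ i : Fin t, ((i : ℕ) + 1 + 1 : ℕ) = (i : ℕ) + 2 := fun i => rfl
  simp only [h3]
  ring

theorem cc_ne_zero {μ : Fin t → ℕ} {σ : Perm (Fin (t + 2))} (h : cc μ σ ≠ 0) :
    ((σ 0 : ℕ) : ℤ) + ((σ 1 : ℕ) : ℤ) ≤ (∑ i, μ i : ℕ) + 1 := by
  have h1 : ∀ i : Fin t, 0 ≤ (μ i : ℤ) - ((i : ℕ) + 2 : ℕ) + ((σ i.succ.succ : ℕ) : ℤ) := by
    intro i
    by_contra hneg
    apply h
    unfold cc
    rw [Finset.prod_eq_zero (mem_univ i), mul_zero]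
    exact ifac_neg (by omega)
  have h2 := Finset.sum_nonneg (fun i (_ : i ∈ (univ : Finset (Fin t))) => h1 i)
  rw [Finset.sum_add_distrib, Finset.sum_sub_distrib] at h2
  have h3 : ∑ c : Fin (t + 2), ((σ c : ℕ) : ℤ) = ∑ c : Fin (t + 2), ((c : ℕ) : ℤ) :=
    Equiv.sum_comp σ (fun c : Fin (t + 2) => ((c : ℕ) : ℤ))
  rw [Fin.sum_univ_succ, Fin.sum_univ_succ, Fin.sum_univ_succ (fun c : Fin (t + 2) => ((c : ℕ) : ℤ)),
    Fin.sum_univ_succ] at h3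
  simp only [Fin.val_zero, Fin.val_succ] at h3
  have e1 : (Fin.succ (0 : Fin (t + 1))) = 1 := rfl
  rw [e1] at h3
  have h4 : ∀ i : Fin t, ((i : ℕ) + 1 + 1 : ℕ) = (i : ℕ) + 2 := fun i => rfl
  simp only [h4] at h3
  push_cast at h2 h3 ⊢
  linarith

def dd (μ : Fin t → ℕ) (σ : Perm (Fin (t + 2))) : ℕ :=
  (∑ i, μ i) + 1 - (σ 0 : ℕ) - (σ 1 : ℕ)

theorem dd_eq {μ : Fin t → ℕ} {σ : Perm (Fin (t + 2))} (h : cc μ σ ≠ 0) :
    (dd μ σ : ℤ) = (∑ i, μ i : ℕ) + 1 - ((σ 0 : ℕ) : ℤ) - ((σ 1 : ℕ) : ℤ) := by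
  have := cc_ne_zero h
  unfold dd
  omega

theorem dd_le (μ : Fin t → ℕ) (σ : Perm (Fin (t + 2))) : dd μ σ ≤ (∑ i, μ i) + 1 := by
  unfold dd; omega

/-- `n!` times the determinant. -/
def FF (μ : Fin t → ℕ) (n : ℕ) (b : ℤ) : ℚ :=
  (n.factorial : ℚ) * DD (lam ((n : ℤ) - (∑ i, μ i : ℕ) - b) b μ)

theorem FF_eq (μ : Fin t → ℕ) (n : ℕ) (b : ℤ) (hn : (∑ i, μ i) + 1 ≤ n) :
    FF μ n b = ∑ σ : Perm (Fin (t + 2)), cc μ σ * ((n.descFactorial (dd μ σ) : ℚ) *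
      (chz (n - dd μ σ) (b + (((σ 1 : ℕ) : ℤ) - 1)) : ℚ)) := by
  unfold FF
  rw [DD_lam, Finset.mul_sum]
  refine Finset.sum_congr rfl fun σ _ => ?_
  by_cases hc : cc μ σ = 0
  · rw [hc]; simp
  have h1 := dd_eq hc
  have h2 := fact_ifac ((n : ℤ) - (∑ i, μ i : ℕ) - b + ((σ 0 : ℕ) : ℤ)) (b - 1 + ((σ 1 : ℕ) : ℤ))
    (dd μ σ) n ((dd_le μ σ).trans hn) (by rw [h1]; ring)
  have h3 : b + (((σ 1 : ℕ) : ℤ) - 1) = b - 1 + ((σ 1 : ℕ) : ℤ) := by ring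
  rw [h3, ← h2]
  ring

/-- The sum over all `b`. -/
theorem seqK_all (μ : Fin t → ℕ) :
    SeqK (fun n => ∑ b ∈ Icc (-(t + 2 : ℤ)) ((n : ℤ) - (∑ i, μ i : ℕ) + 1 + (t + 2)),
      (FF μ n b) ^ 2) := by
  have hmain : SeqK (fun n => ∑ σ : Perm (Fin (t + 2)), ∑ σ' : Perm (Fin (t + 2)),
      (cc μ σ * cc μ σ') * ((n.descFactorial (dd μ σ) : ℚ) * ((n.descFactorial (dd μ σ') : ℚ) *
        (chz (2 * n - (dd μ σ + dd μ σ'))
          ((n : ℤ) - (dd μ σ' + ((((σ' 1 : ℕ) : ℤ) - 1) - (((σ 1 : ℕ) : ℤ) - 1)))) : ℚ)))) := by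
    apply SeqK.sum
    intro σ _
    apply SeqK.sum
    intro σ' _
    apply SeqK.smul
    apply SeqK.mul_descFactorial
    apply SeqK.mul_descFactorial
    exact seqK_chz _ _
  refine SeqK.of_eventually ((∑ i, μ i) + 1) (fun n hn => ?_) hmain
  have h1 : ∀ b : ℤ, (FF μ n b) ^ 2 = ∑ σ : Perm (Fin (t + 2)), ∑ σ' : Perm (Fin (t + 2)),
      (cc μ σ * cc μ σ') * ((n.descFactorial (dd μ σ) : ℚ) * ((n.descFactorial (dd μ σ') : ℚ) *
        ((chz (n - dd μ σ) (b + (((σ 1 : ℕ) : ℤ) - 1)) *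
          chz (n - dd μ σ') (b + (((σ' 1 : ℕ) : ℤ) - 1)) : ℕ) : ℚ))) := by
    intro b
    rw [FF_eq μ n b hn, sq, Finset.sum_mul_sum]
    refine Finset.sum_congr rfl fun σ _ => Finset.sum_congr rfl fun σ' _ => ?_
    push_cast; ring
  simp only [h1]
  symm
  rw [Finset.sum_comm]
  refine Finset.sum_congr rfl fun σ _ => ?_
  rw [Finset.sum_comm]
  refine Finset.sum_congr rfl fun σ' _ => ?_
  rw [← Finset.mul_sum, ← Finset.mul_sum, ← Finset.mul_sum]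
  rw [← Nat.cast_sum (R := ℚ)]
  by_cases hc : cc μ σ = 0
  · rw [hc]; simp
  have hd := dd_eq hc
  have hdl := dd_le μ σ
  have hdl' := dd_le μ σ'
  have hs0 := (σ 0).2
  have hs1 := (σ 1).2
  rw [vandermonde_chz (n - dd μ σ) (n - dd μ σ') (((σ 1 : ℕ) : ℤ) - 1) (((σ' 1 : ℕ) : ℤ) - 1)]
  · have e1 : n - dd μ σ + (n - dd μ σ') = 2 * n - (dd μ σ + dd μ σ') := by omega
    rw [e1]
    have e2 : ((n - dd μ σ' : ℕ) : ℤ) = (n : ℤ) - dd μ σ' := by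
      rw [Nat.cast_sub (by omega)]
    rw [e2]
    have e3 : (n : ℤ) - (dd μ σ' : ℤ) - ((((σ' 1 : ℕ) : ℤ) - 1) - (((σ 1 : ℕ) : ℤ) - 1)) =
        (n : ℤ) - ((dd μ σ' : ℤ) + ((((σ' 1 : ℕ) : ℤ) - 1) - (((σ 1 : ℕ) : ℤ) - 1))) := by ring
    rw [e3]
  · omega
  · rw [Nat.cast_sub (by omega), hd]; omega

theorem FF_swap (μ : Fin t → ℕ) (n : ℕ) (b : ℤ) :
    FF μ n ((n : ℤ) - (∑ i, μ i : ℕ) + 1 - b) = - FF μ n b := by
  unfold FF
  rw [DD_swap (lam ((n : ℤ) - (∑ i, μ i : ℕ) - b) b μ)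
    (lam ((n : ℤ) - (∑ i, μ i : ℕ) - ((n : ℤ) - (∑ i, μ i : ℕ) + 1 - b))
      ((n : ℤ) - (∑ i, μ i : ℕ) + 1 - b) μ) (i := 0) (j := 1)]
  · ring
  · exact Fin.zero_ne_one
  · unfold lam
    simp only [Fin.cons_zero, Fin.cons_one, Fin.val_zero, Fin.val_one]
    push_cast; ring
  · unfold lam
    simp only [Fin.cons_zero, Fin.cons_one, Fin.val_zero, Fin.val_one]
    push_cast; ring
  · intro c hc0 hc1
    obtain ⟨c', rfl⟩ := Fin.exists_succ_eq.2 hc0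
    have hc' : c' ≠ 0 := by
      rintro rfl; exact hc1 rfl
    obtain ⟨c'', rfl⟩ := Fin.exists_succ_eq.2 hc'
    unfold lam
    simp only [Fin.cons_succ]

theorem FF_poly (μ : Fin t → ℕ) (b : ℤ) : ∃ p : Polynomial ℚ, ∃ N : ℕ, ∀ n, N ≤ n →
    FF μ n b = p.eval (n : ℚ) := by
  set DDd : Perm (Fin (t + 2)) → ℕ := fun σ => ((∑ i, μ i : ℕ) + b - ((σ 0 : ℕ) : ℤ)).toNat
    with hDd
  refine ⟨∑ σ : Perm (Fin (t + 2)), Polynomial.C (cc μ σ * ifac (b - 1 + ((σ 1 : ℕ) : ℤ))) *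
    descPochhammer ℚ (DDd σ), ∑ σ : Perm (Fin (t + 2)), DDd σ, fun n hn => ?_⟩
  rw [Polynomial.eval_finsetSum]
  unfold FF
  rw [DD_lam, Finset.mul_sum]
  refine Finset.sum_congr rfl fun σ _ => ?_
  rw [Polynomial.eval_mul, Polynomial.eval_C, descPochhammer_eval_eq_descFactorial]
  by_cases hc : cc μ σ = 0
  · rw [hc]; simp
  by_cases hb : b - 1 + ((σ 1 : ℕ) : ℤ) < 0
  · rw [ifac_neg hb]; simp
  have h1 := cc_ne_zero hc
  have hle : DDd σ ≤ n := (Finset.single_le_sum (f := DDd) (fun _ _ => Nat.zero_le _)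
    (mem_univ σ)).trans hn
  have h2 : ((DDd σ : ℕ) : ℤ) = (∑ i, μ i : ℕ) + b - ((σ 0 : ℕ) : ℤ) := by
    rw [hDd]
    push_cast at h1 ⊢
    rw [Int.toNat_of_nonneg]
    omega
  have h3 : (n : ℤ) - (∑ i, μ i : ℕ) - b + ((σ 0 : ℕ) : ℤ) = ((n - DDd σ : ℕ) : ℤ) := by
    rw [Nat.cast_sub hle, h2]; ring
  rw [h3, ifac_nat]
  have h4 := Nat.factorial_mul_descFactorial hle
  have h5 : ((n - DDd σ).factorial : ℚ) ≠ 0 := by positivity
  rw [← h4]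
  push_cast
  field_simp

theorem seqK_fixed (μ : Fin t → ℕ) (b : ℤ) : SeqK (fun n => (FF μ n b) ^ 2) := by
  obtain ⟨p, N, h⟩ := FF_poly μ b
  refine SeqK.of_eventually N (fun n hn => ?_) (SeqK.poly (p ^ 2))
  rw [Polynomial.eval_pow, h n hn]

/-- The sum of `(f^λ)²` over `λ = (a, b, μ)` with fixed `μ`. -/
theorem seqK_mu (μ : Fin t → ℕ) :
    SeqK (fun n => ∑ b ∈ (range (n + 1)).filter
      (fun b => (∀ i, μ i ≤ b) ∧ (∑ i, μ i) + 2 * b ≤ n), (FF μ n b) ^ 2) := by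
  set m := ∑ i, μ i with hm
  set M := Finset.univ.sup μ with hM
  have hM' : ∀ b, (∀ i, μ i ≤ b) ↔ M ≤ b := by
    intro b; rw [hM, Finset.sup_le_iff]; simp
  have hK : SeqK (fun n => (1 / 2) * (∑ b ∈ Icc (-(t + 2 : ℤ)) ((n : ℤ) - (∑ i, μ i : ℕ) + 1 +
      (t + 2)), (FF μ n b) ^ 2) - ∑ b ∈ Ico (-(t + 2 : ℤ)) (M : ℤ), (FF μ n b) ^ 2) := by
    apply SeqK.sub
    · exact (seqK_all μ).smul _
    · apply SeqK.sum
      intro b _
      exact seqK_fixed μ b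
  refine SeqK.of_eventually (m + 2 * M + 1) (fun n hn => ?_) hK
  rw [← hm]
  -- split the full sum
  set I := Icc (-(t + 2 : ℤ)) ((n : ℤ) - (m : ℕ) + 1 + (t + 2)) with hI
  have hsplit : ∑ b ∈ I, (FF μ n b) ^ 2 =
      2 * ∑ b ∈ I.filter (fun b => (m : ℤ) + 2 * b ≤ n), (FF μ n b) ^ 2 := by
    rw [← Finset.sum_filter_add_sum_filter_not I (fun b => (m : ℤ) + 2 * b ≤ n), two_mul]
    congr 1
    have hz : ∑ b ∈ I.filter (fun b => ¬ (m : ℤ) + 2 * b ≤ n), (FF μ n b) ^ 2 =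
        ∑ b ∈ I.filter (fun b => (n : ℤ) + 2 ≤ (m : ℤ) + 2 * b), (FF μ n b) ^ 2 := by
      symm
      apply Finset.sum_subset
      · intro b hb
        simp only [mem_filter] at hb ⊢
        exact ⟨hb.1, by omega⟩
      · intro b hb hb'
        simp only [mem_filter, not_and] at hb hb'
        have hb2 := hb' hb.1
        have hb3 : (m : ℤ) + 2 * b = n + 1 := by omega
        have h0 : FF μ n b = 0 := by
          have := FF_swap μ n b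
          rw [← hm] at this
          rw [show (n : ℤ) - (m : ℕ) + 1 - b = b by omega] at this
          linarith
        rw [h0]; ring
    rw [hz]
    refine Finset.sum_nbij' (fun b => (n : ℤ) - m + 1 - b) (fun b => (n : ℤ) - m + 1 - b)
      ?_ ?_ ?_ ?_ ?_
    · intro b hb
      simp only [hI, mem_filter, mem_Icc] at hb ⊢
      omega
    · intro b hb
      simp only [hI, mem_filter, mem_Icc] at hb ⊢
      omega
    · intro b _; ring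
    · intro b _; ring
    · intro b _
      have := FF_swap μ n b
      rw [← hm] at this
      rw [this]; ring
  rw [hsplit]
  have hsplit2 : I.filter (fun b => (m : ℤ) + 2 * b ≤ n) =
      Ico (-(t + 2 : ℤ)) (M : ℤ) ∪
        ((range (n + 1)).filter (fun b => (∀ i, μ i ≤ b) ∧ m + 2 * b ≤ n)).map
          ⟨fun b : ℕ => (b : ℤ), Nat.cast_injective⟩ := by
    ext b
    simp only [hI, hM', mem_filter, mem_Icc, mem_union, mem_Ico, mem_map, mem_range,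
      Function.Embedding.coeFn_mk]
    constructor
    · rintro ⟨⟨h1, h2⟩, h3⟩
      rcases lt_or_ge b (M : ℤ) with h | h
      · left; exact ⟨h1, h⟩
      · right
        exact ⟨b.toNat, ⟨by omega, by omega, by omega⟩, by omega⟩
    · rintro (⟨h1, h2⟩ | ⟨c, ⟨h1, h2, h3⟩, rfl⟩)
      · omega
      · omega
  rw [hsplit2, Finset.sum_union, Finset.sum_map]
  · simp only [Function.Embedding.coeFn_mk]
    ring
  · rw [Finset.disjoint_left]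
    intro b hb hb'
    simp only [hM', mem_Ico, mem_map, mem_filter, mem_range, Function.Embedding.coeFn_mk] at hb hb'
    obtain ⟨c, ⟨_, h2, _⟩, rfl⟩ := hb'
    omega

end Pool.Agent.Work.MP_9eb367_co
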