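import Pool.Agent.Work.MP_9eb367_co.Greene
import Pool.Agent.Work.MP_9eb367_co.Sum321

open Finset

namespace Pool.Agent.Work.MP_9eb367_co

/-- The possible lower parts `μ` of shapes. -/
def Mus (t : ℕ) : Finset (Fin t → ℕ) :=
  (Fintype.piFinset (fun _ => range (t + 1))).filter (fun μ => Antitone μ ∧ ∑ i, μ i ≤ t)

def Bs {t : ℕ} (μ : Fin t → ℕ) (n : ℕ) : Finset ℕ :=
  (range (n + 1)).filter (fun b => (∀ i, μ i ≤ b) ∧ (∑ i, μ i) + 2 * b ≤ n)

def shp {t : ℕ} (μ : Fin t → ℕ) (n b : ℕ) : Fin (t + 2) → ℕ :=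
  Fin.cons (n - (∑ i, μ i) - b) (Fin.cons b μ)

theorem shp_antitone {t : ℕ} {μ : Fin t → ℕ} (hμ : Antitone μ) {n b : ℕ} (hb : b ∈ Bs μ n) :
    Antitone (shp μ n b) := by
  unfold Bs at hb
  rw [mem_filter] at hb
  obtain ⟨_, h1, h2⟩ := hb
  unfold shp
  intro i j hij
  induction i using Fin.cases with
  | zero =>
    rw [Fin.cons_zero]
    induction j using Fin.cases with
    | zero => rw [Fin.cons_zero]
    | succ j =>
      rw [Fin.cons_succ]
      induction j using Fin.cases with
      | zero => rw [Fin.cons_zero]; omega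
      | succ j => rw [Fin.cons_succ]; have := h1 j; omega
  | succ i =>
    rw [Fin.cons_succ]
    induction j using Fin.cases with
    | zero => simp [Fin.le_def] at hij
    | succ j =>
      rw [Fin.cons_succ]
      rw [Fin.succ_le_succ_iff] at hij
      induction i using Fin.cases with
      | zero =>
        rw [Fin.cons_zero]
        induction j using Fin.cases with
        | zero => rw [Fin.cons_zero]
        | succ j => rw [Fin.cons_succ]; exact h1 j
      | succ i =>
        rw [Fin.cons_succ]
        induction j using Fin.cases with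
        | zero => simp [Fin.le_def] at hij
        | succ j =>
          rw [Fin.cons_succ]
          exact hμ (Fin.succ_le_succ_iff.1 hij)

theorem shp_sum {t : ℕ} {μ : Fin t → ℕ} {n b : ℕ} (hb : b ∈ Bs μ n) :
    ∑ i, shp μ n b i = n := by
  unfold Bs at hb
  rw [mem_filter] at hb
  obtain ⟨_, h1, h2⟩ := hb
  unfold shp
  rw [Fin.sum_univ_succ, Fin.sum_univ_succ]
  simp only [Fin.cons_zero, Fin.cons_succ]
  omega

theorem NF_shp {t : ℕ} {μ : Fin t → ℕ} {n b : ℕ} (hb : b ∈ Bs μ n) :
    NF n (shp μ n b) = FF μ n b := by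
  unfold Bs at hb
  rw [mem_filter] at hb
  obtain ⟨_, h1, h2⟩ := hb
  unfold NF FF
  congr 2
  funext i
  unfold shp lam
  refine Fin.cases ?_ (fun i => ?_) i
  · simp only [Fin.cons_zero]
    omega
  · refine Fin.cases ?_ (fun i => ?_) i
    · simp only [Fin.cons_succ, Fin.cons_zero]
    · simp only [Fin.cons_succ]

theorem card_twoInc (t n : ℕ) :
    ((((pm n).filter (fun w => n - t ≤ sh (Pt w) 0 + sh (Pt w) 1)).card : ℕ) : ℚ) =
      ∑ μ ∈ Mus t, ∑ b ∈ Bs μ n, (FF μ n b) ^ 2 := by
  classical
  set SS := (Tabs n).filter (fun T => n - t ≤ sh T 0 + sh T 1) with hSS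
  -- step 1: group words by tableau
  have h1 : ((pm n).filter (fun w => n - t ≤ sh (Pt w) 0 + sh (Pt w) 1)).card =
      ∑ T ∈ SS, (wds T).card := by
    rw [Finset.card_eq_sum_card_fiberwise (f := Pt) (t := SS)]
    · refine Finset.sum_congr rfl fun T hT => ?_
      congr 1
      ext w
      rw [mem_filter, mem_filter, mem_wds]
      rw [hSS, mem_filter, mem_Tabs] at hT
      constructor
      · exact fun h => h.2
      · intro h
        refine ⟨⟨?_, by rw [h]; exact hT.2⟩, h⟩
        rw [mem_pm]
        have := Pt_perm w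
        rw [h] at this
        exact this.symm.trans hT.1.2
    · intro w hw
      rw [mem_coe, mem_filter] at hw
      rw [hSS, mem_coe, mem_filter]
      exact ⟨Finset.mem_image_of_mem _ hw.1, hw.2⟩
  rw [h1]
  push_cast
  have hprop : ∀ T ∈ SS, IsTab T ∧ T.flatten.Nodup ∧ T.flatten.Perm (List.range n) ∧
      n - t ≤ sh T 0 + sh T 1 ∧ T.length ≤ t + 2 ∧ T.flatten.length = n := by
    intro T hT
    rw [hSS, mem_filter, mem_Tabs] at hT
    obtain ⟨⟨h1, h2⟩, h3⟩ := hT
    have hlen : T.flatten.length = n := by simpa using h2.length_eq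
    refine ⟨h1, h2.nodup_iff.2 List.nodup_range, h2, h3, ?_, hlen⟩
    by_contra hc
    have h4 := sum_sh (le_refl T.length)
    obtain ⟨k, hk⟩ : ∃ k, T.length = k + (t + 3) := ⟨T.length - (t + 3), by omega⟩
    have h5 : sh T 0 + sh T 1 + (t + 1) ≤ ∑ i ∈ range T.length, sh T i := by
      have h6 : ∑ i ∈ range (t + 3), sh T i ≤ ∑ i ∈ range T.length, sh T i :=
        Finset.sum_le_sum_of_subset (by intro i hi; rw [mem_range] at hi ⊢; omega)
      refine le_trans ?_ h6
      rw [show t + 3 = (t + 1) + 1 + 1 by ring, Finset.sum_range_succ', Finset.sum_range_succ']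
      have h7 : (t + 1) ≤ ∑ i ∈ range (t + 1), sh T (i + 1 + 1) := by
        have : ∑ i ∈ range (t + 1), 1 ≤ ∑ i ∈ range (t + 1), sh T (i + 1 + 1) := by
          refine Finset.sum_le_sum fun i hi => ?_
          rw [mem_range] at hi
          exact sh_pos_of_lt h1 (by omega)
        simpa using this
      simp only [zero_add]
      omega
    omega
  have h2 : ∀ T ∈ SS, ((wds T).card : ℚ) = NF n (sv (t + 2) T) := by
    intro T hT
    obtain ⟨p1, p2, p3, p4, p5, p6⟩ := hprop T hT
    exact card_wds n p1 p2 p5 p6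
  rw [Finset.sum_congr rfl h2]
  -- step 2: group tableaux by shape
  rw [Finset.sum_sigma' (Mus t) (fun μ => Bs μ n) (fun μ b => (FF μ n b) ^ 2)]
  set g : List (List ℕ) → (Σ _ : Fin t → ℕ, ℕ) := fun T => ⟨fun i => sh T (i + 2), sh T 1⟩ with hg
  have hsum : ∀ T ∈ SS, sh T 0 + (sh T 1 + ∑ i : Fin t, sh T (i + 2)) = n := by
    intro T hT
    obtain ⟨p1, p2, p3, p4, p5, p6⟩ := hprop T hT
    have h4 := sum_sh p5
    rw [p6, Finset.sum_range_succ', Finset.sum_range_succ', Finset.sum_range] at h4
    simp only [zero_add, add_assoc, Nat.reduceAdd] at h4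
    omega
  have hmaps : ∀ T ∈ SS, g T ∈ (Mus t).sigma (fun μ => Bs μ n) := by
    intro T hT
    obtain ⟨p1, p2, p3, p4, p5, p6⟩ := hprop T hT
    have hs := hsum T hT
    have ha := sh_antitone p1
    rw [hg, Finset.mem_sigma]
    refine ⟨?_, ?_⟩
    · unfold Mus
      rw [mem_filter, Fintype.mem_piFinset]
      have hle : ∑ i : Fin t, sh T (i + 2) ≤ t := by omega
      refine ⟨fun i => ?_, ?_, hle⟩
      · rw [mem_range]
        have := Finset.single_le_sum (f := fun i : Fin t => sh T (i + 2))
          (fun _ _ => Nat.zero_le _) (mem_univ i)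
        simp only at this ⊢
        omega
      · intro i j hij
        exact ha (by simpa using hij)
    · unfold Bs
      rw [mem_filter, mem_range]
      have h01 := sh_anti p1 0
      simp only [zero_add] at h01
      refine ⟨by simp only; omega, fun i => ha (by omega), by simp only; omega⟩
  rw [← Finset.sum_fiberwise_of_maps_to hmaps]
  refine Finset.sum_congr rfl fun p hp => ?_
  obtain ⟨μ, b⟩ := p
  rw [Finset.mem_sigma] at hp
  obtain ⟨hμ, hb⟩ := hp
  simp only at hμ hb ⊢
  have hμ' := hμ
  unfold Mus at hμ'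
  rw [mem_filter] at hμ'
  have hfib : SS.filter (fun T => g T = ⟨μ, b⟩) = tabsOf n (shp μ n b) := by
    ext T
    rw [mem_filter]
    constructor
    · rintro ⟨hT, hgT⟩
      obtain ⟨p1, p2, p3, p4, p5, p6⟩ := hprop T hT
      have hs := hsum T hT
      rw [hg] at hgT
      simp only [Sigma.mk.injEq, heq_eq_eq] at hgT
      obtain ⟨g1, g2⟩ := hgT
      unfold tabsOf
      rw [mem_filter, mem_Tabs]
      refine ⟨⟨p1, p3⟩, p5, ?_⟩
      funext i
      unfold sv shp
      induction i using Fin.cases with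
      | zero =>
        rw [Fin.cons_zero, ← g1, ← g2]
        simp only [Fin.val_zero]
        omega
      | succ i =>
        rw [Fin.cons_succ]
        induction i using Fin.cases with
        | zero => rw [Fin.cons_zero, ← g2]; rfl
        | succ i => rw [Fin.cons_succ, ← g1]; rfl
    · intro hT
      unfold tabsOf at hT
      rw [mem_filter, mem_Tabs] at hT
      obtain ⟨⟨t1, t2⟩, t3, t4⟩ := hT
      have e0 : sh T 0 = n - (∑ i, μ i) - b := by
        have := congrFun t4 0
        simpa [sv, shp] using this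
      have e1 : sh T 1 = b := by
        have := congrFun t4 1
        simpa [sv, shp] using this
      have e2 : (fun i : Fin t => sh T (i + 2)) = μ := by
        funext i
        have := congrFun t4 i.succ.succ
        simpa [sv, shp] using this
      unfold Bs at hb
      rw [mem_filter] at hb
      refine ⟨?_, ?_⟩
      · rw [hSS, mem_filter, mem_Tabs]
        refine ⟨⟨t1, t2⟩, ?_⟩
        have := hμ'.2.2
        omega
      · rw [hg]
        simp only [e1, e2]
  rw [hfib]
  have hconst : ∀ T ∈ tabsOf n (shp μ n b), NF n (sv (t + 2) T) = NF n (shp μ n b) := by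
    intro T hT
    unfold tabsOf at hT
    rw [mem_filter] at hT
    rw [hT.2.2]
  rw [Finset.sum_congr rfl hconst, Finset.sum_const, nsmul_eq_mul,
    card_tabsOf n _ (shp_antitone hμ'.2.1 hb) (shp_sum hb), NF_shp hb, sq]

/-- The class `Av(321)^{+t}` in the language of words. -/
theorem seqK_321 (t : ℕ) : SeqK (fun n => ((((pm n).filter
    (fun w => n - t ≤ sh (Pt w) 0 + sh (Pt w) 1)).card : ℕ) : ℚ)) := by
  have h : SeqK (fun n => ∑ μ ∈ Mus t, ∑ b ∈ Bs μ n, (FF μ n b) ^ 2) := by
    apply SeqK.sum
    intro μ _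
    exact seqK_mu μ
  exact h.congr fun n => (card_twoInc t n).symm

end Pool.Agent.Work.MP_9eb367_co
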