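import Mathlib

namespace Pool.Agent.Work.MP_9eb367_co

/-- Row insertion. -/
def ri : List ℕ → ℕ → List ℕ × Option ℕ
  | [], x => ([x], none)
  | y :: r, x => if x < y then (x :: r, some y) else (y :: (ri r x).1, (ri r x).2)

/-- Reverse row insertion: `y` replaces the largest entry smaller than `y`. -/
def rr : List ℕ → ℕ → List ℕ × ℕ
  | [], y => ([], y)
  | [z], y => ([y], z)
  | z :: w :: r, y => if y < w then (y :: w :: r, z) else
      (z :: (rr (w :: r) y).1, (rr (w :: r) y).2)

/-- Column strictness between consecutive rows. -/
def Dom : List ℕ → List ℕ → Prop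
  | _, [] => True
  | [], _ :: _ => False
  | a :: r, b :: s => a < b ∧ Dom r s

theorem ri_cases (r : List ℕ) (x : ℕ) (hs : r.Pairwise (· < ·)) (hx : x ∉ r) :
    (ri r x = (r ++ [x], none) ∧ ∀ a ∈ r, a < x) ∨
    ∃ u y v, r = u ++ y :: v ∧ ri r x = (u ++ x :: v, some y) ∧ (∀ a ∈ u, a < x) ∧ x < y := by
  induction r with
  | nil => left; simp [ri]
  | cons a r ih =>
    by_cases h : x < a
    · right
      refine ⟨[], a, r, rfl, ?_, by simp, h⟩
      simp [ri, h]
    · have hxa : x ≠ a := fun e => hx (by simp [e])
      have hxr : x ∉ r := fun e => hx (by simp [e])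
      have hax : a < x := by omega
      rcases ih (List.Pairwise.of_cons hs) hxr with ⟨h1, h2⟩ | ⟨u, y, v, h1, h2, h3, h4⟩
      · left
        refine ⟨by simp [ri, h, h1], ?_⟩
        intro b hb
        rcases List.mem_cons.1 hb with rfl | hb
        · exact hax
        · exact h2 b hb
      · right
        refine ⟨a :: u, y, v, by simp [h1], by simp [ri, h, h2], ?_, h4⟩
        intro b hb
        rcases List.mem_cons.1 hb with rfl | hb
        · exact hax
        · exact h3 b hb

theorem rr_lt {z w y : ℕ} {r : List ℕ} (h : y < w) : rr (z :: w :: r) y = (y :: w :: r, z) := by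
  simp only [rr, if_pos h]

theorem rr_ge {z w y : ℕ} {r : List ℕ} (h : ¬ y < w) :
    rr (z :: w :: r) y = (z :: (rr (w :: r) y).1, (rr (w :: r) y).2) := by
  simp only [rr, if_neg h]

theorem rr_append (u : List ℕ) (x y : ℕ) (v : List ℕ) (hu : ∀ a ∈ u, a < y) (hx : x < y)
    (hv : ∀ a ∈ v, y < a) : rr (u ++ x :: v) y = (u ++ y :: v, x) := by
  induction u with
  | nil =>
    cases v with
    | nil => simp [rr]
    | cons b v => simp [rr, hv b (by simp)]
  | cons a u ih =>
    have ih' := ih (fun b hb => hu b (by simp [hb]))
    cases u with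
    | nil =>
      simp only [List.nil_append, List.cons_append] at ih' ⊢
      rw [rr, if_neg (by omega), ih']
    | cons b u =>
      simp only [List.cons_append] at ih' ⊢
      have := hu b (by simp)
      rw [rr, if_neg (by omega), ih']

/-- Decomposition of a sorted row at the largest entry smaller than `y`. -/
theorem row_split (r : List ℕ) (y : ℕ) (hs : r.Pairwise (· < ·)) (hy : y ∉ r) (a : ℕ)
    (ha : r.head? = some a) (hay : a < y) :
    ∃ u z v, r = u ++ z :: v ∧ (∀ a ∈ u, a < y) ∧ z < y ∧ (∀ a ∈ v, y < a) := by
  induction r generalizing a with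
  | nil => simp at ha
  | cons c r ih =>
    simp only [List.head?_cons, Option.some.injEq] at ha
    subst ha
    cases r with
    | nil => exact ⟨[], c, [], rfl, by simp, hay, by simp⟩
    | cons d r =>
      have hyd : y ≠ d := fun e => hy (by simp [e])
      rcases lt_or_gt_of_ne hyd with h | h
      · refine ⟨[], c, d :: r, rfl, by simp, hay, ?_⟩
        intro b hb
        rcases List.mem_cons.1 hb with rfl | hb
        · exact h
        · have := List.rel_of_pairwise_cons (List.Pairwise.of_cons hs) hb
          omega
      · obtain ⟨u, z, v, h1, h2, h3, h4⟩ := ih (List.Pairwise.of_cons hs)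
          (fun e => hy (by simp [e])) d rfl h
        refine ⟨c :: u, z, v, by simp [h1], ?_, h3, h4⟩
        intro b hb
        rcases List.mem_cons.1 hb with rfl | hb
        · exact hay
        · exact h2 b hb

/-- Schensted insertion into a tableau (list of rows, first row first). -/
def ti : List (List ℕ) → ℕ → List (List ℕ)
  | [], x => [[x]]
  | r :: T, x => match (ri r x).2 with
    | none => (ri r x).1 :: T
    | some y => (ri r x).1 :: ti T y

/-- Row of the new box. -/
def tk : List (List ℕ) → ℕ → ℕ
  | [], _ => 0
  | r :: T, x => match (ri r x).2 with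
    | none => 0
    | some y => tk T y + 1

/-- Tableaux with distinct entries: nonempty strictly increasing rows, strict columns. -/
def IsTab : List (List ℕ) → Prop
  | [] => True
  | r :: T => r ≠ [] ∧ r.Pairwise (· < ·) ∧ Dom r (T.headD []) ∧ IsTab T

theorem Dom.mono_right : ∀ {r s s' : List ℕ}, Dom r s → List.Forall₂ (· ≤ ·) s s' → Dom r s'
  | _, [], [], h, _ => h
  | [], _ :: _, _, h, _ => h.elim
  | _ :: _, _ :: _, _ :: _, h, .cons h1 h2 => ⟨lt_of_lt_of_le h.1 h1, Dom.mono_right h.2 h2⟩

theorem Dom.append_left : ∀ {r s : List ℕ} (t : List ℕ), Dom r s → Dom (r ++ t) s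
  | _, [], _, _ => by unfold Dom; trivial
  | [], _ :: _, _, h => h.elim
  | _ :: _, _ :: _, t, h => ⟨h.1, Dom.append_left t h.2⟩

theorem Dom.nil (r : List ℕ) : Dom r [] := by unfold Dom; trivial

theorem Dom.length_le : ∀ {r s : List ℕ}, Dom r s → s.length ≤ r.length
  | _, [], _ => by simp
  | [], _ :: _, h => h.elim
  | _ :: _, _ :: _, h => by simpa using Dom.length_le h.2

/-- Replacing entries of the upper row by smaller ones. -/
theorem Dom.replace : ∀ {u v s : List ℕ} {y x : ℕ}, x ≤ y → Dom (u ++ y :: v) s →
    Dom (u ++ x :: v) s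
  | _, _, [], _, _, _, _ => Dom.nil _
  | [], _, _ :: _, _, _, hxy, h => ⟨lt_of_le_of_lt hxy h.1, h.2⟩
  | _ :: _, _, _ :: _, _, _, hxy, h => ⟨h.1, Dom.replace hxy h.2⟩

/-- Column strictness is kept by bumping. -/
theorem Dom.bump : ∀ {u v s : List ℕ} {x y : ℕ}, (∀ a ∈ u, a < x) → x < y →
    Dom (u ++ y :: v) s → Dom (u ++ x :: v) (ri s y).1
  | [], _, [], _, _, _, hxy, _ => ⟨hxy, Dom.nil _⟩
  | [], _, b :: s, x, y, _, hxy, h => by
    have hb : y < b := h.1
    simp only [ri, if_pos hb, List.nil_append]
    exact ⟨hxy, h.2⟩
  | a :: u, v, [], x, y, hu, hxy, _ => by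
    simp only [ri, List.cons_append]
    refine ⟨?_, Dom.nil _⟩
    have := hu a (by simp)
    omega
  | a :: u, v, b :: s, x, y, hu, hxy, h => by
    have ha := hu a (by simp)
    have hab : a < b := h.1
    by_cases hb : y < b
    · simp only [ri, if_pos hb, List.cons_append]
      exact ⟨by omega, Dom.replace hxy.le h.2⟩
    · simp only [ri, if_neg hb, List.cons_append]
      exact ⟨hab, Dom.bump (fun c hc => hu c (by simp [hc])) hxy h.2⟩

theorem ri_ne_nil (r : List ℕ) (x : ℕ) : (ri r x).1 ≠ [] := by
  cases r with
  | nil => simp [ri]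
  | cons a r => simp only [ri]; split_ifs <;> simp

theorem ri_sorted {r : List ℕ} {x : ℕ} (hs : r.Pairwise (· < ·)) (hx : x ∉ r) :
    (ri r x).1.Pairwise (· < ·) := by
  rcases ri_cases r x hs hx with ⟨h1, h2⟩ | ⟨u, y, v, h1, h2, h3, h4⟩
  · rw [h1]
    simp only [List.pairwise_append, List.pairwise_cons, List.mem_singleton]
    refine ⟨hs, by simp, ?_⟩
    rintro a ha b rfl
    exact h2 a ha
  · rw [h2]
    rw [h1] at hs
    simp only [List.pairwise_append, List.pairwise_cons, List.mem_cons] at hs ⊢
    refine ⟨hs.1, ⟨fun a ha => by have := hs.2.1.1 a ha; omega, hs.2.1.2⟩, ?_⟩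
    rintro a ha b (rfl | hb)
    · exact h3 a ha
    · exact hs.2.2 a ha b (Or.inr hb)

theorem ti_perm (T : List (List ℕ)) (x : ℕ) : (ti T x).flatten.Perm (x :: T.flatten) := by
  induction T generalizing x with
  | nil => simp [ti]
  | cons r T ih =>
    have hri : ∀ (r : List ℕ) (x : ℕ), ((ri r x).1 ++ (ri r x).2.toList).Perm (x :: r) := by
      intro r
      induction r with
      | nil => intro x; simp [ri]
      | cons a r ihr =>
        intro x
        by_cases h : x < a
        · simp only [ri, if_pos h, Option.toList]
          simp only [List.cons_append]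
          refine List.Perm.cons _ ?_
          exact List.perm_append_comm
        · simp only [ri, if_neg h]
          simp only [List.cons_append]
          refine (List.Perm.cons a (ihr x)).trans (List.Perm.swap _ _ _)
    have h0 := hri r x
    unfold ti
    rcases h : (ri r x).2 with _ | y
    · simp only [h, Option.toList, List.append_nil] at h0 ⊢
      simp only [List.flatten_cons]
      exact (h0.append_right _)
    · simp only [h, Option.toList] at h0 ⊢
      simp only [List.flatten_cons]
      refine ((ih y).append_left _).trans ?_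
      have : (ri r x).1 ++ y :: T.flatten = ((ri r x).1 ++ [y]) ++ T.flatten := by simp
      rw [this]
      exact h0.append_right _

theorem ti_ne_nil (T : List (List ℕ)) (x : ℕ) : ti T x ≠ [] := by
  cases T with
  | nil => simp [ti]
  | cons r T => unfold ti; split <;> simp

/-- The head row of `ti T x`. -/
theorem ti_headD (T : List (List ℕ)) (x : ℕ) : (ti T x).headD [] = (ri (T.headD []) x).1 := by
  cases T with
  | nil => simp [ti, ri]
  | cons r T => unfold ti; split <;> simp_all

theorem isTab_ti {T : List (List ℕ)} {x : ℕ} (hT : IsTab T) (hn : T.flatten.Nodup)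
    (hx : x ∉ T.flatten) : IsTab (ti T x) := by
  induction T generalizing x with
  | nil => simp [ti, IsTab, Dom]
  | cons r T ih =>
    obtain ⟨h1, h2, h3, h4⟩ := hT
    have hxr : x ∉ r := fun e => hx (by simp [e])
    have hxs := ri_sorted h2 hxr
    have hnd : T.flatten.Nodup := by
      rw [List.flatten_cons, List.nodup_append] at hn; exact hn.2.1
    rcases ri_cases r x h2 hxr with ⟨e1, e2⟩ | ⟨u, y, v, e1, e2, e3, e4⟩
    · unfold ti
      simp only [e1]
      refine ⟨by simp, by simpa [e1] using hxs, Dom.append_left _ h3, h4⟩
    · unfold ti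
      simp only [e2]
      have hyr : y ∈ r := by rw [e1]; simp
      have hyT : y ∉ T.flatten := by
        rw [List.flatten_cons, List.nodup_append] at hn
        intro hy
        exact hn.2.2 y hyr y hy rfl
      refine ⟨by simp, by simpa [e2] using hxs, ?_, ih h4 hnd hyT⟩
      rw [ti_headD]
      rw [e1] at h3
      exact Dom.bump e3 e4 h3

/-- Row lengths. -/
def sh (T : List (List ℕ)) (i : ℕ) : ℕ := (T.getD i []).length

theorem sh_nil (i : ℕ) : sh [] i = 0 := by simp [sh]

theorem sh_cons_zero (r : List ℕ) (T : List (List ℕ)) : sh (r :: T) 0 = r.length := by simp [sh]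

theorem sh_cons_succ (r : List ℕ) (T : List (List ℕ)) (i : ℕ) :
    sh (r :: T) (i + 1) = sh T i := by simp [sh]

theorem ri_length (r : List ℕ) (x : ℕ) :
    (ri r x).1.length = r.length + (if (ri r x).2 = none then 1 else 0) := by
  induction r generalizing x with
  | nil => simp [ri]
  | cons a r ih =>
    by_cases h : x < a
    · simp [ri, h]
    · simp only [ri, if_neg h, List.length_cons, ih x]; omega

theorem sh_ti (T : List (List ℕ)) (x : ℕ) (i : ℕ) :
    sh (ti T x) i = sh T i + (if i = tk T x then 1 else 0) := by
  induction T generalizing x i with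
  | nil =>
    cases i with
    | zero => simp [ti, tk, sh]
    | succ i => simp [ti, tk, sh]
  | cons r T ih =>
    unfold ti tk
    have hl := ri_length r x
    rcases h : (ri r x).2 with _ | y
    · simp only [h] at hl ⊢
      cases i with
      | zero => rw [sh_cons_zero, sh_cons_zero, hl]; simp
      | succ i => rw [sh_cons_succ, sh_cons_succ]; simp
    · simp only [h] at hl ⊢
      cases i with
      | zero => rw [sh_cons_zero, sh_cons_zero, hl]; simp
      | succ i => rw [sh_cons_succ, sh_cons_succ, ih]; simp

/-- `sh` is weakly decreasing. -/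
theorem sh_anti {T : List (List ℕ)} (hT : IsTab T) (i : ℕ) : sh T (i + 1) ≤ sh T i := by
  induction T generalizing i with
  | nil => simp [sh_nil]
  | cons r T ih =>
    obtain ⟨h1, h2, h3, h4⟩ := hT
    cases i with
    | zero =>
      rw [sh_cons_succ, sh_cons_zero]
      have := h3.length_le
      cases T with
      | nil => simp [sh_nil]
      | cons s T => simpa [sh] using this
    | succ i => rw [sh_cons_succ, sh_cons_succ]; exact ih h4 i

/-- Removing the corner in row `k` by reverse insertion. -/
def ui : List (List ℕ) → ℕ → List (List ℕ) × ℕ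
  | [], _ => ([], 0)
  | r :: T, 0 => if r.length ≤ 1 then ([], r.getLastD 0) else (r.dropLast :: T, r.getLastD 0)
  | r :: T, k + 1 => ((rr r (ui T k).2).1 :: (ui T k).1, (rr r (ui T k).2).2)

theorem ui_ti {T : List (List ℕ)} {x : ℕ} (hT : IsTab T) (hn : T.flatten.Nodup)
    (hx : x ∉ T.flatten) : ui (ti T x) (tk T x) = (T, x) := by
  induction T generalizing x with
  | nil => simp [ti, tk, ui]
  | cons r T ih =>
    obtain ⟨h1, h2, h3, h4⟩ := hT
    have hxr : x ∉ r := fun e => hx (by simp [e])
    have hnd : T.flatten.Nodup := by
      rw [List.flatten_cons, List.nodup_append] at hn; exact hn.2.1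
    rcases ri_cases r x h2 hxr with ⟨e1, e2⟩ | ⟨u, y, v, e1, e2, e3, e4⟩
    · unfold ti tk
      simp only [e1]
      unfold ui
      have : ¬ (r ++ [x]).length ≤ 1 := by
        have := List.length_pos_iff.2 h1
        simp; omega
      rw [if_neg this]
      simp
    · unfold ti tk
      simp only [e2]
      unfold ui
      have hyr : y ∈ r := by rw [e1]; simp
      have hyT : y ∉ T.flatten := by
        rw [List.flatten_cons, List.nodup_append] at hn
        intro hy
        exact hn.2.2 y hyr y hy rfl
      rw [ih h4 hnd hyT]
      simp only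
      have hv : ∀ a ∈ v, y < a := by
        intro a ha
        rw [e1] at h2
        rw [List.pairwise_append] at h2
        exact List.rel_of_pairwise_cons h2.2.1 ha
      rw [rr_append u x y v (fun a ha => (e3 a ha).trans e4) e4 hv, e1]

/-- All entries of a tableau are at least the first one, and bigger than the entry above. -/
theorem head_lt_of_mem {r : List ℕ} {T : List (List ℕ)} (hT : IsTab (r :: T)) {a : ℕ}
    (ha : r.head? = some a) {y : ℕ} (hy : y ∈ T.flatten) : a < y := by
  induction T generalizing r a with
  | nil => simp at hy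
  | cons s T ih =>
    obtain ⟨h1, h2, h3, h4⟩ := hT
    obtain ⟨b, s', rfl⟩ := List.exists_cons_of_ne_nil h4.1
    obtain ⟨a', r', rfl⟩ := List.exists_cons_of_ne_nil h1
    simp only [List.head?_cons, Option.some.injEq] at ha
    subst ha
    have hab : a' < b := h3.1
    rw [List.flatten_cons, List.mem_append] at hy
    rcases hy with hy | hy
    · rcases List.mem_cons.1 hy with rfl | hy
      · exact hab
      · exact hab.trans (List.rel_of_pairwise_cons h4.2.1 hy)
    · exact hab.trans (ih h4 (by simp) hy)

theorem rr_length (r : List ℕ) (y : ℕ) : (rr r y).1.length = r.length := by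
  induction r with
  | nil => simp [rr]
  | cons z r ih =>
    cases r with
    | nil => simp [rr]
    | cons w r =>
      simp only [rr]
      split_ifs
      · simp
      · simpa using ih

theorem rr_ne_nil {r : List ℕ} (y : ℕ) (h : r ≠ []) : (rr r y).1 ≠ [] := by
  intro h0
  have := rr_length r y
  rw [h0] at this
  exact h (List.length_eq_zero_iff.1 this.symm)

/-- If `y` is smaller than all of `s`, replacing an entry of the upper row by `y` is harmless. -/
theorem Dom.rr_of_lt : ∀ {r s : List ℕ} {y : ℕ}, Dom r s → (∀ a ∈ s, y < a) →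
    Dom (rr r y).1 s
  | r, [], y, _, _ => Dom.nil _
  | [], _ :: _, _, h, _ => h.elim
  | [z], [b], y, h, hs => by
    simp only [rr]
    exact ⟨hs b (by simp), Dom.nil _⟩
  | [z], b :: c :: s, y, h, hs => h.2.elim
  | z :: w :: r, b :: s, y, h, hs => by
    simp only [rr]
    split_ifs with hw
    · exact ⟨hs b (by simp), h.2⟩
    · exact ⟨h.1, Dom.rr_of_lt h.2 (fun a ha => hs a (by simp [ha]))⟩

theorem rr_snd_mem : ∀ {r : List ℕ} {y : ℕ}, r ≠ [] → (rr r y).2 ∈ r
  | [], _, h => (h rfl).elim
  | [z], _, _ => by simp [rr]
  | z :: w :: r, y, _ => by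
    simp only [rr]
    split_ifs
    · simp
    · exact List.mem_cons_of_mem _ (rr_snd_mem (by simp))

/-- Column strictness is kept by reverse bumping. -/
theorem Dom.rr_rr : ∀ {r s : List ℕ} {y : ℕ}, s.Pairwise (· < ·) → Dom r s →
    (∀ b, s.head? = some b → b < y) → s ≠ [] → y ∉ s → (rr s y).2 ∉ r →
    Dom (rr r (rr s y).2).1 (rr s y).1
  | _, [], _, _, _, _, h, _, _ => (h rfl).elim
  | [], _ :: _, _, _, h, _, _, _, _ => h.elim
  | [a], [b], y, _, h, hb, _, _, _ => by
    simp only [rr]
    exact ⟨hb b rfl, Dom.nil _⟩
  | a :: c :: r, [b], y, _, h, hb, _, _, hnr => by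
    have e : rr [b] y = ([y], b) := rfl
    rw [e] at hnr ⊢
    have hby := hb b rfl
    by_cases hbc : b < c
    · rw [rr_lt hbc]
      exact ⟨hby, Dom.nil _⟩
    · rw [rr_ge hbc]
      exact ⟨h.1.trans hby, Dom.nil _⟩
  | [a], b :: d :: s, y, _, h, _, _, _, _ => h.2.elim
  | a :: c :: r, b :: d :: s, y, hs, h, hb, _, hys, hnr => by
    have hby := hb b rfl
    by_cases hyd : y < d
    · rw [rr_lt hyd] at hnr ⊢
      by_cases hbc : b < c
      · rw [rr_lt hbc]
        exact ⟨hby, h.2⟩
      · rw [rr_ge hbc]
        refine ⟨h.1.trans hby, Dom.rr_of_lt h.2 ?_⟩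
        intro e he
        exact List.rel_of_pairwise_cons hs he
    · have e1 : rr (b :: d :: s) y = (b :: (rr (d :: s) y).1, (rr (d :: s) y).2) := by
        simp only [rr, if_neg hyd]
      rw [e1] at hnr ⊢
      simp only at hnr ⊢
      set y' := (rr (d :: s) y).2 with hy'
      have hmem : y' ∈ d :: s := rr_snd_mem (by simp)
      have hcd : c < d := h.2.1
      have hcy : c < y' := by
        rcases List.mem_cons.1 hmem with h' | h'
        · rw [h']; exact hcd
        · exact hcd.trans (List.rel_of_pairwise_cons (List.Pairwise.of_cons hs) h')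
      have e2 : rr (a :: c :: r) y' = (a :: (rr (c :: r) y').1, (rr (c :: r) y').2) := by
        simp only [rr, if_neg (show ¬ y' < c by omega)]
      rw [e2]
      refine ⟨h.1, ?_⟩
      have hd : d < y := by
        have : y ≠ d := fun e => hys (by simp [e])
        omega
      exact Dom.rr_rr (List.Pairwise.of_cons hs) h.2 (by simpa using hd) (by simp)
        (fun hc => hys (by simp only [List.mem_cons] at hc ⊢; tauto))
        (fun hc => hnr (by simp only [List.mem_cons] at hc ⊢; tauto))

/-- Column strictness is kept when the last entry of the lower row is reverse bumped. -/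
theorem Dom.rr_last : ∀ {r s : List ℕ}, s.Pairwise (· < ·) → Dom r s → s ≠ [] →
    Dom (rr r (s.getLastD 0)).1 s.dropLast
  | _, [], _, _, h => (h rfl).elim
  | r, [b], _, _, _ => by simp only [List.dropLast_singleton]; exact Dom.nil _
  | [], _ :: _ :: _, _, h, _ => h.elim
  | [a], b :: d :: s, _, h, _ => h.2.elim
  | a :: c :: r, b :: d :: s, hs, h, _ => by
    have ih := Dom.rr_last (r := c :: r) (List.Pairwise.of_cons hs) h.2 (by simp)
    have e0 : (b :: d :: s).getLastD 0 = (d :: s).getLastD 0 := by simp [List.getLastD]
    rw [e0]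
    set y' := (d :: s).getLastD 0 with hy'
    have hmem : y' ∈ d :: s := by
      rw [hy']
      rw [List.getLastD_eq_getLast?, List.getLast?_eq_some_getLast (by simp)]
      exact List.getLast_mem (by simp)
    have hcd : c < d := h.2.1
    have hcy : c < y' := by
      rcases List.mem_cons.1 hmem with h' | h'
      · rw [h']; exact hcd
      · exact hcd.trans (List.rel_of_pairwise_cons (List.Pairwise.of_cons hs) h')
    have e2 : rr (a :: c :: r) y' = (a :: (rr (c :: r) y').1, (rr (c :: r) y').2) := by
      simp only [rr, if_neg (show ¬ y' < c by omega)]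
    rw [e2]
    simp only [List.dropLast_cons_cons]
    exact ⟨h.1, ih⟩

theorem rr_sorted {r : List ℕ} {y a : ℕ} (hs : r.Pairwise (· < ·)) (hy : y ∉ r)
    (ha : r.head? = some a) (hay : a < y) : (rr r y).1.Pairwise (· < ·) := by
  obtain ⟨u, z, v, h1, h2, h3, h4⟩ := row_split r y hs hy a ha hay
  rw [h1, rr_append u z y v h2 h3 h4]
  rw [h1] at hs
  simp only [List.pairwise_append, List.pairwise_cons, List.mem_cons] at hs ⊢
  refine ⟨hs.1, ⟨h4, hs.2.1.2⟩, ?_⟩
  rintro b hb c (rfl | hc)
  · exact h2 b hb
  · exact hs.2.2 b hb c (Or.inr hc)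

theorem rr_perm {r : List ℕ} {y a : ℕ} (hs : r.Pairwise (· < ·)) (hy : y ∉ r)
    (ha : r.head? = some a) (hay : a < y) : ((rr r y).2 :: (rr r y).1).Perm (y :: r) := by
  obtain ⟨u, z, v, h1, h2, h3, h4⟩ := row_split r y hs hy a ha hay
  rw [h1, rr_append u z y v h2 h3 h4]
  simp only
  refine (List.Perm.cons z List.perm_middle).trans ?_
  refine (List.Perm.swap _ _ _).trans ?_
  exact List.Perm.cons y List.perm_middle.symm

theorem ri_rr {r : List ℕ} {y a : ℕ} (hs : r.Pairwise (· < ·)) (hy : y ∉ r)
    (ha : r.head? = some a) (hay : a < y) : ri (rr r y).1 (rr r y).2 = (r, some y) := by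
  obtain ⟨u, z, v, h1, h2, h3, h4⟩ := row_split r y hs hy a ha hay
  have hs' := rr_sorted hs hy ha hay
  rw [h1, rr_append u z y v h2 h3 h4] at hs' ⊢
  simp only at hs' ⊢
  have huz : ∀ b ∈ u, b < z := by
    rw [h1, List.pairwise_append] at hs
    intro b hb
    exact hs.2.2 b hb z (by simp)
  clear hs' hs hy ha hay h1 h2
  induction u with
  | nil => simp [ri, h3]
  | cons b u ih =>
    have hb := huz b (by simp)
    have := ih (fun c hc => huz c (by simp [hc]))
    simp only [List.cons_append, ri, if_neg (show ¬ z < b by omega), this]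

/-- Corners. -/
def Corner (T : List (List ℕ)) (k : ℕ) : Prop := sh T (k + 1) < sh T k

theorem getLastD_mem {r : List ℕ} (h : r ≠ []) : r.getLastD 0 ∈ r := by
  rw [List.getLastD_eq_getLast?, List.getLast?_eq_some_getLast h]
  exact List.getLast_mem h

theorem dropLast_append_getLastD {r : List ℕ} (h : r ≠ []) :
    r.dropLast ++ [r.getLastD 0] = r := by
  rw [List.getLastD_eq_getLast?, List.getLast?_eq_some_getLast h]
  exact List.dropLast_append_getLast h

theorem ui_mem : ∀ {T : List (List ℕ)} {k : ℕ}, IsTab T → Corner T k →
    (ui T k).2 ∈ T.flatten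
  | [], k, _, h => by simp [Corner, sh_nil] at h
  | r :: T, 0, hT, _ => by
    unfold ui
    split_ifs
    · simp only [List.flatten_cons, List.mem_append]
      exact Or.inl (getLastD_mem hT.1)
    · simp only [List.flatten_cons, List.mem_append]
      exact Or.inl (getLastD_mem hT.1)
  | r :: T, k + 1, hT, _ => by
    unfold ui
    simp only [List.flatten_cons, List.mem_append]
    exact Or.inl (rr_snd_mem hT.1)

/-- Main properties of reverse insertion. -/
theorem ui_spec : ∀ {T : List (List ℕ)} {k : ℕ}, IsTab T → T.flatten.Nodup → Corner T k →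
    IsTab (ui T k).1 ∧ ((ui T k).2 :: (ui T k).1.flatten).Perm T.flatten ∧
    ti (ui T k).1 (ui T k).2 = T ∧ tk (ui T k).1 (ui T k).2 = k := by
  intro T
  induction T with
  | nil => intro k _ _ h; simp [Corner, sh_nil] at h
  | cons r T ih =>
    intro k hT hn hk
    obtain ⟨h1, h2, h3, h4⟩ := hT
    have hnd : T.flatten.Nodup := by
      rw [List.flatten_cons, List.nodup_append] at hn; exact hn.2.1
    cases k with
    | zero =>
      unfold ui
      by_cases hr : r.length ≤ 1
      · rw [if_pos hr]
        have hr1 : r.length = 1 := by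
          have := List.length_pos_iff.2 h1; omega
        obtain ⟨a, rfl⟩ := List.length_eq_one_iff.1 hr1
        have hT0 : T = [] := by
          unfold Corner at hk
          rw [sh_cons_succ, sh_cons_zero] at hk
          cases T with
          | nil => rfl
          | cons s T =>
            rw [sh_cons_zero, List.length_singleton] at hk
            have := List.length_pos_iff.2 h4.1
            omega
        subst hT0
        simp [IsTab, ti, tk]
      · rw [if_neg hr]
        have hlast := dropLast_append_getLastD h1
        have hd0 : r.dropLast ≠ [] := by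
          intro h0
          have := congrArg List.length h0
          simp at this; omega
        have hsort : (r.dropLast ++ [r.getLastD 0]).Pairwise (· < ·) := by rw [hlast]; exact h2
        rw [List.pairwise_append] at hsort
        have hlt : ∀ a ∈ r.dropLast, a < r.getLastD 0 := fun a ha => hsort.2.2 a ha _ (by simp)
        have hri : ri r.dropLast (r.getLastD 0) = (r, none) := by
          rcases ri_cases r.dropLast (r.getLastD 0) hsort.1 (fun hc => lt_irrefl _ (hlt _ hc)) with
            ⟨e1, _⟩ | ⟨u, y, v, e1, _, _, e4⟩
          · rw [e1, hlast]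
          · exfalso
            have := hlt y (by rw [e1]; simp)
            omega
        refine ⟨⟨hd0, hsort.1, ?_, h4⟩, ?_, ?_, ?_⟩
        · -- Dom r.dropLast (T.headD [])
          have hlen : (T.headD []).length ≤ r.dropLast.length := by
            unfold Corner at hk
            rw [sh_cons_succ, sh_cons_zero] at hk
            rw [List.length_dropLast]
            cases T with
            | nil => simp
            | cons s T => rw [sh_cons_zero] at hk; simp; omega
          have key : ∀ (p q s : List ℕ), Dom (p ++ q) s → s.length ≤ p.length → Dom p s := by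
            intro p
            induction p with
            | nil =>
              intro q s _ hl
              have : s = [] := List.length_eq_zero_iff.1 (by simpa using hl)
              rw [this]; exact Dom.nil _
            | cons a p ihp =>
              intro q s hd hl
              cases s with
              | nil => exact Dom.nil _
              | cons b s => exact ⟨hd.1, ihp q s hd.2 (by simpa using hl)⟩
          exact key _ [r.getLastD 0] _ (by rw [hlast]; exact h3) hlen
        · simp only [List.flatten_cons]
          have : (r.getLastD 0 :: (r.dropLast ++ T.flatten)).Perm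
              ((r.dropLast ++ [r.getLastD 0]) ++ T.flatten) := by
            rw [List.append_assoc]
            exact List.perm_middle.symm
          rwa [hlast] at this
        · unfold ti
          simp only [hri]
        · unfold tk
          simp only [hri]
    | succ k =>
      have hk' : Corner T k := by
        unfold Corner at hk ⊢
        rwa [sh_cons_succ, sh_cons_succ] at hk
      obtain ⟨i1, i2, i3, i4⟩ := ih h4 hnd hk'
      unfold ui
      set T' := (ui T k).1 with hT'
      set y := (ui T k).2 with hy
      have hyT : y ∈ T.flatten := i2.mem_iff.1 (by simp)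
      have hyr : y ∉ r := by
        rw [List.flatten_cons, List.nodup_append] at hn
        intro hc
        exact hn.2.2 y hc y hyT rfl
      obtain ⟨a, r', hr'⟩ := List.exists_cons_of_ne_nil h1
      have ha : r.head? = some a := by rw [hr']; rfl
      have hay : a < y := head_lt_of_mem (T := T) ⟨h1, h2, h3, h4⟩ ha hyT
      have hrr := ri_rr h2 hyr ha hay
      refine ⟨⟨rr_ne_nil y h1, rr_sorted h2 hyr ha hay, ?_, i1⟩, ?_, ?_, ?_⟩
      · -- Dom
        cases T with
        | nil => simp at hyT
        | cons s T =>
          simp only [List.headD_cons] at h3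
          cases k with
          | zero =>
            by_cases hs : s.length ≤ 1
            · rw [hT']
              unfold ui
              rw [if_pos hs]
              exact Dom.nil _
            · have e1 : T' = s.dropLast :: T := by rw [hT']; unfold ui; rw [if_neg hs]
              have e2 : y = s.getLastD 0 := by rw [hy]; unfold ui; rw [if_neg hs]
              rw [e1, e2]
              simp only [List.headD_cons]
              exact Dom.rr_last h4.2.1 h3 h4.1
          | succ k =>
            have e1 : T' = (rr s (ui T k).2).1 :: (ui T k).1 := rfl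
            have e2 : y = (rr s (ui T k).2).2 := rfl
            rw [e1]
            simp only [List.headD_cons]
            rw [e2]
            have hk'' : Corner T k := by
              unfold Corner at hk' ⊢
              rwa [sh_cons_succ, sh_cons_succ] at hk'
            have hz : (ui T k).2 ∈ T.flatten := ui_mem h4.2.2.2 hk''
            apply Dom.rr_rr h4.2.1 h3
            · intro b hb
              exact head_lt_of_mem (T := T) h4 hb hz
            · exact h4.1
            · intro hc
              rw [List.flatten_cons, List.nodup_append] at hnd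
              exact hnd.2.2 _ hc _ hz rfl
            · rw [← e2]; exact hyr
      · simp only [List.flatten_cons]
        have h5 := rr_perm h2 hyr ha hay
        have h6 : ((rr r y).2 :: ((rr r y).1 ++ T'.flatten)).Perm
            (y :: (r ++ T'.flatten)) := by
          rw [← List.cons_append, ← List.cons_append]; exact h5.append_right _
        refine h6.trans ?_
        refine List.perm_middle.symm.trans ?_
        exact i2.append_left r
      · unfold ti
        simp only [hrr]
        rw [i3]
      · unfold tk
        simp only [hrr]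
        rw [i4]

end Pool.Agent.Work.MP_9eb367_co
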