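import Pool.Agent.Work.MP_9eb367_co.RSK
import Pool.Agent.Work.MP_9eb367_co.Frob

open Finset

namespace Pool.Agent.Work.MP_9eb367_co

/-- The insertion tableau of a word. -/
def Pt (w : List ℕ) : List (List ℕ) := w.foldl ti []

theorem Pt_append (w : List ℕ) (x : ℕ) : Pt (w ++ [x]) = ti (Pt w) x := by
  simp [Pt, List.foldl_append]

theorem Pt_perm (w : List ℕ) : (Pt w).flatten.Perm w := by
  induction w using List.reverseRecOn with
  | nil => simp [Pt]
  | append_singleton w x ih =>
    rw [Pt_append]
    refine (ti_perm _ _).trans ?_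
    refine (List.Perm.cons x ih).trans ?_
    exact (List.perm_append_singleton x w).symm

theorem isTab_Pt {w : List ℕ} (hw : w.Nodup) : IsTab (Pt w) := by
  induction w using List.reverseRecOn with
  | nil => simp [Pt, IsTab]
  | append_singleton w x ih =>
    rw [Pt_append]
    rw [List.nodup_append] at hw
    have hp := Pt_perm w
    refine isTab_ti (ih hw.1) (hp.nodup_iff.2 hw.1) ?_
    intro hx
    exact hw.2.2 x (hp.mem_iff.1 hx) x (by simp) rfl

/-- All words with insertion tableau `T`. -/
def wds (T : List (List ℕ)) : Finset (List ℕ) :=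
  (T.flatten.permutations.toFinset).filter (fun w => Pt w = T)

theorem mem_wds {T : List (List ℕ)} {w : List ℕ} : w ∈ wds T ↔ Pt w = T := by
  unfold wds
  rw [Finset.mem_filter, List.mem_toFinset, List.mem_permutations]
  constructor
  · exact fun h => h.2
  · intro h
    refine ⟨?_, h⟩
    rw [← h]
    exact (Pt_perm w).symm

theorem sh_pos_of_lt {T : List (List ℕ)} (hT : IsTab T) {k : ℕ} (hk : k < T.length) :
    0 < sh T k := by
  induction T generalizing k with
  | nil => simp at hk
  | cons r T ih =>
    cases k with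
    | zero => rw [sh_cons_zero]; exact List.length_pos_iff.2 hT.1
    | succ k => rw [sh_cons_succ]; exact ih hT.2.2.2 (by simpa using hk)

theorem sh_of_le {T : List (List ℕ)} {k : ℕ} (hk : T.length ≤ k) : sh T k = 0 := by
  unfold sh
  rw [List.getD_eq_default _ _ hk]; rfl

theorem lt_length_of_sh_pos {T : List (List ℕ)} {k : ℕ} (h : 0 < sh T k) : k < T.length := by
  by_contra hc
  rw [sh_of_le (by omega)] at h
  omega

theorem corner_lt {T : List (List ℕ)} {k : ℕ} (h : Corner T k) : k < T.length :=
  lt_length_of_sh_pos (by unfold Corner at h; omega)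

theorem corner_ti {T : List (List ℕ)} {x : ℕ} (hT : IsTab T) : Corner (ti T x) (tk T x) := by
  unfold Corner
  rw [sh_ti, sh_ti, if_pos rfl, if_neg (by omega)]
  have := sh_anti hT (tk T x)
  omega

theorem sum_sh {T : List (List ℕ)} {L : ℕ} (hL : T.length ≤ L) :
    ∑ i ∈ range L, sh T i = T.flatten.length := by
  induction T generalizing L with
  | nil => simp [sh_nil]
  | cons r T ih =>
    obtain ⟨L', rfl⟩ : ∃ L', L = L' + 1 := ⟨L - 1, by simp at hL; omega⟩
    rw [Finset.sum_range_succ']
    simp only [sh_cons_succ, sh_cons_zero]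
    rw [ih (by simpa using hL)]
    simp [add_comm]

instance (T : List (List ℕ)) : DecidablePred (Corner T) := fun k => by
  unfold Corner; infer_instance

theorem wds_card {T : List (List ℕ)} (hT : IsTab T) (hn : T.flatten.Nodup) (h0 : T ≠ []) :
    (wds T).card = ∑ k ∈ (range T.length).filter (Corner T), (wds (ui T k).1).card := by
  classical
  have key : ∀ w ∈ wds T, ∃ w' x, w = w' ++ [x] ∧ ui T (tk (Pt w') x) = (Pt w', x) ∧
      Corner T (tk (Pt w') x) := by
    intro w hw
    rw [mem_wds] at hw
    have hw0 : w ≠ [] := by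
      rintro rfl
      exact h0 (by simpa [Pt] using hw.symm)
    have e : w.dropLast ++ [w.getLast hw0] = w := List.dropLast_append_getLast hw0
    refine ⟨w.dropLast, w.getLast hw0, e.symm, ?_, ?_⟩
    all_goals
      have hnd : w.Nodup := by
        have := (Pt_perm w).nodup_iff
        rw [hw] at this
        exact this.1 hn
      have hP : Pt w = ti (Pt w.dropLast) (w.getLast hw0) := by
        conv_lhs => rw [← e]
        exact Pt_append _ _
      rw [← e, List.nodup_append] at hnd
      have hp := Pt_perm w.dropLast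
    · rw [← hw, hP]
      refine ui_ti (isTab_Pt hnd.1) (hp.nodup_iff.2 hnd.1) ?_
      intro hx
      exact hnd.2.2 _ (hp.mem_iff.1 hx) _ (by simp) rfl
    · rw [← hw, hP]
      exact corner_ti (isTab_Pt hnd.1)
  have hmaps : ∀ w ∈ wds T, tk (Pt w.dropLast) (w.getLastD 0) ∈
      (range T.length).filter (Corner T) := by
    intro w hw
    obtain ⟨w', x, rfl, h1, h2⟩ := key w hw
    simp only [List.dropLast_concat, Finset.mem_filter, Finset.mem_range]
    have : (w' ++ [x]).getLastD 0 = x := by simp
    rw [this]
    exact ⟨corner_lt h2, h2⟩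
  rw [Finset.card_eq_sum_card_fiberwise hmaps]
  refine Finset.sum_congr rfl fun k hk => ?_
  rw [Finset.mem_filter] at hk
  obtain ⟨s1, s2, s3, s4⟩ := ui_spec hT hn hk.2
  refine Finset.card_bij (fun w _ => w.dropLast) ?_ ?_ ?_
  · intro w hw
    rw [Finset.mem_filter] at hw
    obtain ⟨w', x, rfl, h1, h2⟩ := key w hw.1
    have e1 : (w' ++ [x]).getLastD 0 = x := by simp
    rw [e1] at hw
    simp only [List.dropLast_concat] at hw ⊢
    rw [mem_wds, ← hw.2, h1]
  · intro w hw v hv hwv
    rw [Finset.mem_filter] at hw hv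
    obtain ⟨w', x, rfl, h1, h2⟩ := key w hw.1
    obtain ⟨v', y, rfl, h3, h4⟩ := key v hv.1
    have e1 : (w' ++ [x]).getLastD 0 = x := by simp
    have e2 : (v' ++ [y]).getLastD 0 = y := by simp
    rw [e1] at hw
    rw [e2] at hv
    simp only [List.dropLast_concat] at hw hv hwv
    subst hwv
    rw [hw.2] at h1
    rw [hv.2] at h3
    rw [h1] at h3
    simp only [Prod.mk.injEq, true_and] at h3
    rw [h3]
  · intro v hv
    rw [mem_wds] at hv
    refine ⟨v ++ [(ui T k).2], ?_, by simp⟩
    rw [Finset.mem_filter]
    have e1 : (v ++ [(ui T k).2]).getLastD 0 = (ui T k).2 := by simp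
    refine ⟨?_, ?_⟩
    · rw [mem_wds, Pt_append, hv, s3]
    · rw [e1, List.dropLast_concat, hv, s4]

/-! ### Corners of vectors and the branching rule -/

def CornerV {L : ℕ} (x : Fin L → ℕ) (c : Fin L) : Prop :=
  0 < x c ∧ ∀ h : (c : ℕ) + 1 < L, x ⟨c + 1, h⟩ < x c

instance {L : ℕ} (x : Fin L → ℕ) : DecidablePred (CornerV x) := fun c => by
  unfold CornerV; infer_instance

/-- Number attached to a shape. -/
def NF {L : ℕ} (n : ℕ) (x : Fin L → ℕ) : ℚ := (n.factorial : ℚ) * DD (fun i => (x i : ℤ))

theorem NF_branch {L : ℕ} (x : Fin L → ℕ) (hanti : Antitone x) (n : ℕ)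
    (hn : ∑ i, x i = n + 1) :
    NF (n + 1) x = ∑ c ∈ univ.filter (CornerV x), NF n (Function.update x c (x c - 1)) := by
  unfold NF
  have h1 := DD_rec (fun i => (x i : ℤ))
  have h2 : ((∑ j, (x j : ℤ) : ℤ) : ℚ) = (n + 1 : ℕ) := by
    rw [← Nat.cast_sum, hn]; simp
  rw [h2] at h1
  rw [Nat.factorial_succ]
  push_cast at h1 ⊢
  have h3 : ((n : ℚ) + 1) * n.factorial * DD (fun i => (x i : ℤ)) =
      n.factorial * (((n : ℚ) + 1) * DD (fun i => (x i : ℤ))) := by ring
  rw [h3, h1, ← Finset.mul_sum]
  congr 1
  rw [← Finset.sum_filter_add_sum_filter_not univ (CornerV x)]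
  have hz : ∑ c ∈ univ.filter (fun c => ¬ CornerV x c),
      DD (Function.update (fun i => (x i : ℤ)) c ((x c : ℤ) - 1)) = 0 := by
    refine Finset.sum_eq_zero fun c hc => ?_
    rw [Finset.mem_filter] at hc
    have hc' := hc.2
    unfold CornerV at hc'
    by_cases hlast : (c : ℕ) + 1 < L
    · -- x (c+1) = x c, or x c = 0 = x (c+1)
      have hle : x ⟨c + 1, hlast⟩ ≤ x c := hanti (by simp [Fin.le_def])
      have heq : x ⟨c + 1, hlast⟩ = x c := by
        by_contra hne
        apply hc'
        refine ⟨by omega, fun _ => by omega⟩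
      refine DD_eq_zero_of_eq _ (i := c) (j := ⟨c + 1, hlast⟩) ?_ ?_
      · intro h; have := congrArg Fin.val h; simp at this
      · rw [Function.update_self, Function.update_of_ne]
        · rw [heq]; push_cast; ring
        · intro h; have := congrArg Fin.val h; simp at this
    · have h0 : x c = 0 := by
        by_contra hne
        exact hc' ⟨by omega, fun h => absurd h hlast⟩
      refine DD_eq_zero_of_lt _ c ?_
      rw [Function.update_self, h0]
      have := c.2
      omega
  rw [hz, add_zero]
  refine Finset.sum_congr rfl fun c hc => ?_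
  rw [Finset.mem_filter] at hc
  congr 1
  funext i
  by_cases hi : i = c
  · subst hi
    rw [Function.update_self, Function.update_self]
    have := hc.2.1
    omega
  · rw [Function.update_of_ne hi, Function.update_of_ne hi]

theorem NF_zero {L : ℕ} (x : Fin L → ℕ) (h : ∑ i, x i = 0) : NF 0 x = 1 := by
  unfold NF
  have : (fun i => (x i : ℤ)) = fun _ => 0 := by
    funext i
    have := (Finset.sum_eq_zero_iff.1 h) i (mem_univ i)
    simp [this]
  rw [this, DD_zero]
  simp

/-- The shape vector. -/
def sv (L : ℕ) (T : List (List ℕ)) : Fin L → ℕ := fun i => sh T i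

theorem sh_antitone {T : List (List ℕ)} (hT : IsTab T) : Antitone (sh T) :=
  antitone_nat_of_succ_le (sh_anti hT)

theorem sv_antitone {L : ℕ} {T : List (List ℕ)} (hT : IsTab T) : Antitone (sv L T) :=
  fun _ _ h => sh_antitone hT h

theorem sum_sv {L : ℕ} {T : List (List ℕ)} (hL : T.length ≤ L) :
    ∑ i, sv L T i = T.flatten.length := by
  rw [← sum_sh hL, Finset.sum_range]
  rfl

theorem cornerV_iff {L : ℕ} {T : List (List ℕ)} (hL : T.length ≤ L) (c : Fin L) :
    CornerV (sv L T) c ↔ Corner T c := by
  unfold CornerV Corner sv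
  constructor
  · rintro ⟨h1, h2⟩
    by_cases h : (c : ℕ) + 1 < L
    · exact h2 h
    · rw [sh_of_le (k := c + 1) (by omega)]; exact h1
  · intro h
    exact ⟨by omega, fun _ => h⟩

theorem sh_ui {T : List (List ℕ)} (hT : IsTab T) (hn : T.flatten.Nodup) {k : ℕ}
    (hk : Corner T k) (i : ℕ) : sh (ui T k).1 i = sh T i - (if i = k then 1 else 0) := by
  obtain ⟨s1, s2, s3, s4⟩ := ui_spec hT hn hk
  have h := sh_ti (ui T k).1 (ui T k).2 i
  rw [s3, s4] at h
  omega

theorem length_le_of_sh {T : List (List ℕ)} (hT : IsTab T) {L : ℕ} (h : sh T L = 0) :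
    T.length ≤ L := by
  by_contra hc
  have := sh_pos_of_lt hT (k := L) (by omega)
  omega

theorem card_wds {L : ℕ} (n : ℕ) : ∀ {T : List (List ℕ)}, IsTab T → T.flatten.Nodup →
    T.length ≤ L → T.flatten.length = n → ((wds T).card : ℚ) = NF n (sv L T) := by
  induction n with
  | zero =>
    intro T hT hn hL h0
    rw [NF_zero _ (by rw [sum_sv hL, h0])]
    have hT0 : T = [] := by
      cases T with
      | nil => rfl
      | cons r T =>
        exfalso
        have := List.length_pos_iff.2 hT.1
        simp at h0; exact hT.1 h0.1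
    subst hT0
    have : wds [] = {[]} := by
      ext w
      rw [mem_wds, Finset.mem_singleton]
      constructor
      · intro h
        have := Pt_perm w
        rw [h] at this
        simpa using this.symm
      · rintro rfl; rfl
    rw [this]; simp
  | succ n ih =>
    intro T hT hn hL hlen
    have hT0 : T ≠ [] := by rintro rfl; simp at hlen
    rw [wds_card hT hn hT0, NF_branch (sv L T) (sv_antitone hT) n (by rw [sum_sv hL, hlen])]
    push_cast
    symm
    refine Finset.sum_bij (fun (c : Fin L) _ => (c : ℕ)) ?_ ?_ ?_ ?_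
    · intro c hc
      rw [Finset.mem_filter] at hc
      have := (cornerV_iff hL c).1 hc.2
      rw [Finset.mem_filter, Finset.mem_range]
      exact ⟨corner_lt this, this⟩
    · intro a _ b _ h; exact Fin.ext h
    · intro k hk
      rw [Finset.mem_filter, Finset.mem_range] at hk
      exact ⟨⟨k, by omega⟩, by rw [Finset.mem_filter]; exact ⟨mem_univ _, (cornerV_iff hL _).2 hk.2⟩,
        rfl⟩
    · intro c hc
      rw [Finset.mem_filter] at hc
      have hcor := (cornerV_iff hL c).1 hc.2
      obtain ⟨s1, s2, s3, s4⟩ := ui_spec hT hn hcor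
      have hnd : (ui T c).1.flatten.Nodup := (List.nodup_cons.1 (s2.nodup_iff.2 hn)).2
      have hlen' : (ui T c).1.flatten.length = n := by
        have := s2.length_eq
        simp only [List.length_cons] at this
        omega
      have hL' : (ui T c).1.length ≤ L := by
        apply length_le_of_sh s1
        rw [sh_ui hT hn hcor, sh_of_le hL]; simp
      rw [ih s1 hnd hL' hlen']
      congr 1
      funext i
      unfold sv
      rw [sh_ui hT hn hcor]
      by_cases hi : i = c
      · subst hi; rw [Function.update_self]; simp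
      · rw [Function.update_of_ne hi, if_neg (fun h => hi (Fin.ext h))]; simp

end Pool.Agent.Work.MP_9eb367_co
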