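import Pool.Agent.Work.MP_9eb367_co.RSKCount

open Finset

namespace Pool.Agent.Work.MP_9eb367_co

/-- Append `x` at the end of row `k`. -/
def app : List (List ℕ) → ℕ → ℕ → List (List ℕ)
  | [], _, x => [[x]]
  | r :: T, 0, x => (r ++ [x]) :: T
  | r :: T, k + 1, x => r :: app T k x

/-- Remove the last entry of row `k`. -/
def rmv : List (List ℕ) → ℕ → List (List ℕ)
  | [], _ => []
  | r :: T, 0 => if r.length ≤ 1 then T else r.dropLast :: T
  | r :: T, k + 1 => r :: rmv T k

/-- Row containing `x`. -/
def ro : List (List ℕ) → ℕ → ℕ
  | [], _ => 0
  | r :: T, x => if x ∈ r then 0 else ro T x + 1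

theorem Dom.of_append : ∀ (p q s : List ℕ), Dom (p ++ q) s → s.length ≤ p.length → Dom p s := by
  intro p
  induction p with
  | nil =>
    intro q s _ hl
    have : s = [] := List.length_eq_zero_iff.1 (by simpa using hl)
    rw [this]; exact Dom.nil _
  | cons a p ihp =>
    intro q s hd hl
    cases s with
    | nil => exact Dom.nil _
    | cons b s => exact ⟨hd.1, ihp q s hd.2 (by simpa using hl)⟩

theorem Dom.length_of_max : ∀ (p s : List ℕ) (N : ℕ), Dom (p ++ [N]) s → (∀ b ∈ s, b ≤ N) →
    s.length ≤ p.length := by
  intro p
  induction p with
  | nil =>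
    intro s N hd hs
    cases s with
    | nil => simp
    | cons b s =>
      exfalso
      have h1 : N < b := hd.1
      have := hs b (by simp)
      omega
  | cons a p ih =>
    intro s N hd hs
    cases s with
    | nil => simp
    | cons b s =>
      have := ih s N hd.2 (fun c hc => hs c (by simp [hc]))
      simpa using this

theorem Dom.dropLast : ∀ {r s : List ℕ}, Dom r s → Dom r s.dropLast
  | _, [], _ => Dom.nil _
  | _, [_], _ => Dom.nil _
  | [], _ :: _ :: _, h => h.elim
  | _ :: _, _ :: _ :: _, h => ⟨h.1, Dom.dropLast h.2⟩

theorem Dom.append_right : ∀ {r s : List ℕ} {N : ℕ}, Dom r s → s.length < r.length →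
    (∀ a ∈ r, a < N) → Dom r (s ++ [N])
  | [], _, _, _, h, _ => by simp at h
  | a :: r, [], N, _, _, hr => ⟨hr a (by simp), Dom.nil _⟩
  | a :: r, b :: s, N, h, hl, hr => ⟨h.1, Dom.append_right h.2 (by simpa using hl)
      (fun c hc => hr c (by simp [hc]))⟩

theorem last_of_max {r : List ℕ} {N : ℕ} (hs : r.Pairwise (· < ·)) (hN : N ∈ r)
    (hmax : ∀ a ∈ r, a ≤ N) : r = r.dropLast ++ [N] := by
  have h0 : r ≠ [] := by rintro rfl; simp at hN
  have h1 := dropLast_append_getLastD h0
  have h2 : r.getLastD 0 = N := by
    rw [← h1, List.pairwise_append] at hs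
    have hm := hmax _ (getLastD_mem h0)
    rw [← h1, List.mem_append] at hN
    rcases hN with h | h
    · have := hs.2.2 N h _ (by simp : r.getLastD 0 ∈ [r.getLastD 0])
      omega
    · exact (List.mem_singleton.1 h).symm
  rw [h2] at h1
  exact h1.symm

theorem rmv_spec {T : List (List ℕ)} {N : ℕ} (hT : IsTab T) (hn : T.flatten.Nodup)
    (hN : N ∈ T.flatten) (hmax : ∀ a ∈ T.flatten, a ≤ N) :
    Corner T (ro T N) ∧ app (rmv T (ro T N)) (ro T N) N = T ∧ IsTab (rmv T (ro T N)) ∧
      (N :: (rmv T (ro T N)).flatten).Perm T.flatten := by
  induction T with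
  | nil => simp at hN
  | cons r T ih =>
    obtain ⟨h1, h2, h3, h4⟩ := hT
    by_cases hr : N ∈ r
    · have hro : ro (r :: T) N = 0 := by simp [ro, hr]
      rw [hro]
      have hlast := last_of_max h2 hr (fun a ha => hmax a (by simp [ha]))
      have hlen : (T.headD []).length ≤ r.dropLast.length := by
        apply Dom.length_of_max _ _ N (by rw [← hlast]; exact h3)
        intro b hb
        cases T with
        | nil => simp at hb
        | cons s T => simp only [List.headD_cons] at hb; exact hmax b (by simp [hb])
      have hlr : r.length = r.dropLast.length + 1 := by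
        conv_lhs => rw [hlast]
        simp
      have hcor : Corner (r :: T) 0 := by
        unfold Corner
        rw [sh_cons_succ, sh_cons_zero]
        cases T with
        | nil => rw [sh_nil]; omega
        | cons s T => rw [sh_cons_zero]; simp only [List.headD_cons] at hlen; omega
      refine ⟨hcor, ?_⟩
      unfold rmv
      by_cases hl : r.length ≤ 1
      · rw [if_pos hl]
        have hT0 : T = [] := by
          cases T with
          | nil => rfl
          | cons s T =>
            simp only [List.headD_cons] at hlen
            have := List.length_pos_iff.2 h4.1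
            omega
        subst hT0
        have hd : r.dropLast = [] := List.length_eq_zero_iff.1 (by omega)
        rw [hd] at hlast
        rw [hlast]
        simp [app, IsTab]
      · rw [if_neg hl]
        refine ⟨?_, ⟨?_, ?_, ?_, h4⟩, ?_⟩
        · simp only [app]; rw [← hlast]
        · intro h0
          rw [h0] at hlr; simp at hlr; omega
        · rw [hlast, List.pairwise_append] at h2; exact h2.1
        · exact Dom.of_append _ [N] _ (by rw [← hlast]; exact h3) hlen
        · simp only [List.flatten_cons]
          have : (N :: (r.dropLast ++ T.flatten)).Perm ((r.dropLast ++ [N]) ++ T.flatten) := by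
            rw [List.append_assoc]; exact List.perm_middle.symm
          rwa [← hlast] at this
    · have hro : ro (r :: T) N = ro T N + 1 := by simp [ro, hr]
      rw [hro]
      have hnd : T.flatten.Nodup := by
        rw [List.flatten_cons, List.nodup_append] at hn; exact hn.2.1
      have hNT : N ∈ T.flatten := by
        rw [List.flatten_cons, List.mem_append] at hN; tauto
      obtain ⟨i1, i2, i3, i4⟩ := ih h4 hnd hNT (fun a ha => hmax a (by
        rw [List.flatten_cons, List.mem_append]; exact Or.inr ha))
      refine ⟨?_, ?_, ⟨h1, h2, ?_, i3⟩, ?_⟩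
      · unfold Corner at i1 ⊢
        rw [sh_cons_succ, sh_cons_succ]; exact i1
      · simp only [rmv, app]; rw [i2]
      · cases T with
        | nil => simp at hNT
        | cons s T =>
          simp only [List.headD_cons] at h3
          generalize hk : ro (s :: T) N = k
          cases k with
          | zero =>
            simp only [rmv]
            split_ifs with hl
            · -- then T must be []
              rw [hk] at i1
              unfold Corner at i1
              rw [sh_cons_succ, sh_cons_zero] at i1
              have : T = [] := by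
                cases T with
                | nil => rfl
                | cons u T =>
                  rw [sh_cons_zero] at i1
                  have := List.length_pos_iff.2 h4.2.2.2.1
                  omega
              rw [this]
              exact Dom.nil _
            · simp only [List.headD_cons]
              exact Dom.dropLast h3
          | succ k =>
            simp only [rmv, List.headD_cons]
            exact h3
      · simp only [rmv, List.flatten_cons]
        refine List.perm_middle.symm.trans ?_
        exact i4.append_left r

theorem sh_rmv : ∀ {T : List (List ℕ)} {k : ℕ}, IsTab T → Corner T k → ∀ i,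
    sh (rmv T k) i = sh T i - (if i = k then 1 else 0) := by
  intro T
  induction T with
  | nil => intro k _ h; simp [Corner, sh_nil] at h
  | cons r T ih =>
    intro k hT hk i
    cases k with
    | zero =>
      unfold Corner at hk
      rw [sh_cons_succ, sh_cons_zero] at hk
      unfold rmv
      by_cases hl : r.length ≤ 1
      · rw [if_pos hl]
        have hT0 : T = [] := by
          cases T with
          | nil => rfl
          | cons s T =>
            rw [sh_cons_zero] at hk
            have := List.length_pos_iff.2 hT.2.2.2.1
            omega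
        subst hT0
        cases i with
        | zero => rw [sh_nil, sh_cons_zero]; simp; omega
        | succ i => rw [sh_nil, sh_cons_succ, sh_nil]; simp
      · rw [if_neg hl]
        cases i with
        | zero => rw [sh_cons_zero, sh_cons_zero]; simp
        | succ i => rw [sh_cons_succ, sh_cons_succ]; simp
    | succ k =>
      unfold rmv
      cases i with
      | zero => rw [sh_cons_zero, sh_cons_zero]; simp
      | succ i =>
        rw [sh_cons_succ, sh_cons_succ, ih hT.2.2.2 (by
          unfold Corner at hk ⊢; rwa [sh_cons_succ, sh_cons_succ] at hk)]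
        simp

theorem app_headD {T : List (List ℕ)} {k N : ℕ} (hk : k ≠ 0) (hT : T ≠ []) :
    (app T k N).headD [] = T.headD [] := by
  cases T with
  | nil => exact (hT rfl).elim
  | cons r T =>
    cases k with
    | zero => exact (hk rfl).elim
    | succ k => simp [app]

theorem app_headD_zero (T : List (List ℕ)) (N : ℕ) :
    (app T 0 N).headD [] = T.headD [] ++ [N] := by
  cases T <;> simp [app]

theorem app_spec : ∀ {T : List (List ℕ)} {k N : ℕ}, IsTab T → (∀ a ∈ T.flatten, a < N) →
    (∀ j, k = j + 1 → sh T k < sh T j) →
    IsTab (app T k N) ∧ (app T k N).flatten.Perm (N :: T.flatten) ∧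
      (∀ i, sh (app T k N) i = sh T i + (if i = k then 1 else 0)) ∧
      ro (app T k N) N = k ∧ rmv (app T k N) k = T := by
  intro T
  induction T with
  | nil =>
    intro k N _ _ hk
    have hk0 : k = 0 := by
      by_contra hne
      have := hk (k - 1) (by omega)
      rw [sh_nil, sh_nil] at this
      omega
    subst hk0
    refine ⟨by simp [app, IsTab, Dom.nil], by simp [app], ?_, by simp [app, ro], by simp [app, rmv]⟩
    intro i
    cases i with
    | zero => simp [app, sh]
    | succ i => simp [app, sh]
  | cons r T ih =>
    intro k N hT hN hk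
    obtain ⟨h1, h2, h3, h4⟩ := hT
    have hNr : ∀ a ∈ r, a < N := fun a ha => hN a (by simp [ha])
    have hNT : ∀ a ∈ T.flatten, a < N := fun a ha => hN a (by
      rw [List.flatten_cons, List.mem_append]; exact Or.inr ha)
    have hrl := List.length_pos_iff.2 h1
    cases k with
    | zero =>
      refine ⟨⟨by simp, ?_, Dom.append_left _ h3, h4⟩, ?_, ?_, ?_, ?_⟩
      · rw [List.pairwise_append]
        refine ⟨h2, by simp, ?_⟩
        intro a ha b hb
        rw [List.mem_singleton] at hb
        subst hb
        exact hNr a ha
      · simp only [app, List.flatten_cons, List.append_assoc]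
        exact List.perm_middle
      · intro i
        cases i with
        | zero => simp [app, sh]
        | succ i => simp [app, sh]
      · simp [app, ro]
      · simp only [app, rmv]
        rw [if_neg (by simp; omega)]
        simp
    | succ k =>
      have hk' : ∀ j, k = j + 1 → sh T k < sh T j := by
        intro j hj
        have := hk (j + 1) (by omega)
        rwa [sh_cons_succ, sh_cons_succ] at this
      obtain ⟨i1, i2, i3, i4, i5⟩ := ih (k := k) (N := N) h4 hNT hk'
      refine ⟨⟨h1, h2, ?_, i1⟩, ?_, ?_, ?_, ?_⟩
      · by_cases hk0 : k = 0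
        · subst hk0
          rw [app_headD_zero]
          refine Dom.append_right h3 ?_ hNr
          have := hk 0 rfl
          rw [sh_cons_succ, sh_cons_zero] at this
          cases T with
          | nil => simpa using hrl
          | cons s T => rw [sh_cons_zero] at this; simpa using this
        · rw [app_headD hk0]
          · exact h3
          · rintro rfl
            have := hk' (k - 1) (by omega)
            rw [sh_nil, sh_nil] at this
            omega
      · simp only [app, List.flatten_cons]
        exact (i2.append_left r).trans List.perm_middle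
      · intro i
        cases i with
        | zero => simp [app, sh]
        | succ i =>
          simp only [app]
          rw [sh_cons_succ, sh_cons_succ, i3]; simp
      · have : N ∉ r := fun h => lt_irrefl _ (hNr N h)
        simp only [app, ro, if_neg this, i4]
      · simp only [app, rmv, i5]

theorem exists_word (n : ℕ) : ∀ {T : List (List ℕ)}, IsTab T → T.flatten.Nodup →
    T.flatten.length = n → ∃ w, Pt w = T := by
  induction n with
  | zero =>
    intro T hT hn h0
    refine ⟨[], ?_⟩
    cases T with
    | nil => rfl
    | cons r T =>
      exfalso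
      simp at h0; exact hT.1 h0.1
  | succ n ih =>
    intro T hT hn hlen
    have hT0 : T ≠ [] := by rintro rfl; simp at hlen
    have hpos := List.length_pos_iff.2 hT0
    have hcor : Corner T (T.length - 1) := by
      unfold Corner
      rw [sh_of_le (k := T.length - 1 + 1) (by omega)]
      exact sh_pos_of_lt hT (by omega)
    obtain ⟨s1, s2, s3, s4⟩ := ui_spec hT hn hcor
    have hnd := (List.nodup_cons.1 (s2.nodup_iff.2 hn)).2
    have hl := s2.length_eq
    simp only [List.length_cons] at hl
    obtain ⟨w, hw⟩ := ih s1 hnd (by omega)
    exact ⟨w ++ [(ui T (T.length - 1)).2], by rw [Pt_append, hw, s3]⟩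

/-- Words that are permutations of `0, …, n-1`. -/
def pm (n : ℕ) : Finset (List ℕ) := (List.range n).permutations.toFinset

theorem mem_pm {n : ℕ} {w : List ℕ} : w ∈ pm n ↔ w.Perm (List.range n) := by
  unfold pm
  rw [List.mem_toFinset, List.mem_permutations]

/-- Standard tableaux with entries `0, …, n-1`. -/
def Tabs (n : ℕ) : Finset (List (List ℕ)) := (pm n).image Pt

theorem mem_Tabs {n : ℕ} {T : List (List ℕ)} :
    T ∈ Tabs n ↔ IsTab T ∧ T.flatten.Perm (List.range n) := by
  unfold Tabs
  rw [Finset.mem_image]
  constructor
  · rintro ⟨w, hw, rfl⟩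
    rw [mem_pm] at hw
    have hnd : w.Nodup := hw.nodup_iff.2 List.nodup_range
    exact ⟨isTab_Pt hnd, (Pt_perm w).trans hw⟩
  · rintro ⟨h1, h2⟩
    have hnd : T.flatten.Nodup := h2.nodup_iff.2 List.nodup_range
    obtain ⟨w, hw⟩ := exists_word _ h1 hnd rfl
    refine ⟨w, ?_, hw⟩
    rw [mem_pm]
    have := Pt_perm w
    rw [hw] at this
    exact this.symm.trans h2

/-- Standard tableaux of a given shape. -/
def tabsOf {L : ℕ} (n : ℕ) (x : Fin L → ℕ) : Finset (List (List ℕ)) :=
  (Tabs n).filter (fun T => T.length ≤ L ∧ sv L T = x)

theorem card_tabsOf {L : ℕ} (n : ℕ) : ∀ (x : Fin L → ℕ), Antitone x → ∑ i, x i = n →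
    ((tabsOf n x).card : ℚ) = NF n x := by
  classical
  induction n with
  | zero =>
    intro x hx h0
    rw [NF_zero x h0]
    have : tabsOf 0 x = {[]} := by
      ext T
      unfold tabsOf
      rw [Finset.mem_filter, mem_Tabs, Finset.mem_singleton]
      constructor
      · rintro ⟨⟨h1, h2⟩, _⟩
        cases T with
        | nil => rfl
        | cons r T =>
          exfalso
          have := h2.length_eq
          simp at this; exact h1.1 this.1
      · rintro rfl
        refine ⟨⟨by simp [IsTab], by simp⟩, by simp, ?_⟩
        funext i
        have := (Finset.sum_eq_zero_iff.1 h0) i (mem_univ i)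
        simp [sv, sh_nil, this]
    rw [this]; simp
  | succ n ih =>
    intro x hx hsum
    rw [NF_branch x hx n hsum]
    have hbr : ∀ c ∈ univ.filter (CornerV x), NF n (Function.update x c (x c - 1)) =
        ((tabsOf n (Function.update x c (x c - 1))).card : ℚ) := by
      intro c hc
      rw [Finset.mem_filter] at hc
      obtain ⟨_, hc1, hc2⟩ := hc
      symm
      apply ih
      · -- antitone
        intro i j hij
        by_cases hi : i = c
        · subst hi
          by_cases hj : j = i
          · subst hj; exact le_refl _
          · rw [Function.update_self, Function.update_of_ne hj]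
            have hlt : (i : ℕ) < j := lt_of_le_of_ne hij (fun h => hj (Fin.ext h.symm))
            have h1 := hc2 (by omega)
            have h2 : x j ≤ x ⟨i + 1, by omega⟩ := hx (by simp [Fin.le_def]; omega)
            omega
        · by_cases hj : j = c
          · subst hj
            rw [Function.update_self, Function.update_of_ne hi]
            have := hx hij
            omega
          · rw [Function.update_of_ne hi, Function.update_of_ne hj]; exact hx hij
      · rw [Finset.sum_update_of_mem (mem_univ c)]
        rw [← Finset.add_sum_erase univ x (mem_univ c)] at hsum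
        rw [Finset.sdiff_singleton_eq_erase]
        omega
    rw [Finset.sum_congr rfl hbr]
    -- fiber over the row of the maximum
    have hprop : ∀ T ∈ tabsOf (n + 1) x, IsTab T ∧ T.flatten.Nodup ∧ n ∈ T.flatten ∧
        (∀ a ∈ T.flatten, a ≤ n) ∧ T.flatten.Perm (List.range (n + 1)) ∧ T.length ≤ L ∧
        sv L T = x := by
      intro T hT
      unfold tabsOf at hT
      rw [Finset.mem_filter, mem_Tabs] at hT
      obtain ⟨⟨h1, h2⟩, h3, h4⟩ := hT
      refine ⟨h1, h2.nodup_iff.2 List.nodup_range, h2.mem_iff.2 (by simp), ?_, h2, h3, h4⟩
      intro a ha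
      have := h2.mem_iff.1 ha
      rw [List.mem_range] at this; omega
    have hmaps : ∀ T ∈ tabsOf (n + 1) x, ro T n ∈ ((univ.filter (CornerV x)).image
        (fun c : Fin L => (c : ℕ))) := by
      intro T hT
      obtain ⟨h1, h2, h3, h4, h5, h6, h7⟩ := hprop T hT
      obtain ⟨r1, r2, r3, r4⟩ := rmv_spec h1 h2 h3 h4
      have hlt := corner_lt r1
      rw [Finset.mem_image]
      refine ⟨⟨ro T n, by omega⟩, ?_, rfl⟩
      rw [Finset.mem_filter, ← h7, cornerV_iff h6]
      exact ⟨mem_univ _, r1⟩
    rw [Finset.card_eq_sum_card_fiberwise hmaps, Finset.sum_image (fun a _ b _ h => Fin.ext h)]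
    push_cast
    refine Finset.sum_congr rfl fun c hc => ?_
    rw [Finset.mem_filter] at hc
    obtain ⟨_, hc1, hc2⟩ := hc
    congr 1
    refine Finset.card_bij (fun T _ => rmv T c) ?_ ?_ ?_
    · intro T hT
      rw [Finset.mem_filter] at hT
      obtain ⟨hT, hro⟩ := hT
      obtain ⟨h1, h2, h3, h4, h5, h6, h7⟩ := hprop T hT
      obtain ⟨r1, r2, r3, r4⟩ := rmv_spec h1 h2 h3 h4
      rw [hro] at r1 r2 r3 r4
      have hperm : (rmv T c).flatten.Perm (List.range n) := by
        have : (n :: (rmv T c).flatten).Perm (n :: List.range n) := by
          refine (r4.trans h5).trans ?_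
          rw [List.range_succ]
          exact List.perm_append_singleton _ _
        exact (List.perm_cons n).1 this
      unfold tabsOf
      rw [Finset.mem_filter, mem_Tabs]
      refine ⟨⟨r3, hperm⟩, ?_, ?_⟩
      · apply length_le_of_sh r3
        rw [sh_rmv h1 r1, sh_of_le h6]; simp
      · funext i
        have hx' : x c = sh T c := by rw [← h7]; rfl
        unfold sv
        rw [sh_rmv h1 r1]
        by_cases hi : i = c
        · subst hi; rw [Function.update_self, if_pos rfl, hx']
        · rw [Function.update_of_ne hi, if_neg (fun h => hi (Fin.ext h))]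
          rw [← h7]; rfl
    · intro T hT T' hT' heq
      rw [Finset.mem_filter] at hT hT'
      obtain ⟨h1, h2, h3, h4, h5, h6, h7⟩ := hprop T hT.1
      obtain ⟨r1, r2, r3, r4⟩ := rmv_spec h1 h2 h3 h4
      obtain ⟨h1', h2', h3', h4', h5', h6', h7'⟩ := hprop T' hT'.1
      obtain ⟨r1', r2', r3', r4'⟩ := rmv_spec h1' h2' h3' h4'
      rw [hT.2] at r2
      rw [hT'.2] at r2'
      rw [← r2, ← r2', heq]
    · intro T' hT'
      unfold tabsOf at hT'
      rw [Finset.mem_filter, mem_Tabs] at hT'
      obtain ⟨⟨h1, h2⟩, h3, h4⟩ := hT'
      have hlt : ∀ a ∈ T'.flatten, a < n := by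
        intro a ha
        have := h2.mem_iff.1 ha
        rwa [List.mem_range] at this
      have hsv : ∀ i : Fin L, sh T' i = Function.update x c (x c - 1) i := by
        intro i; rw [← h4]; rfl
      have hk : ∀ j, (c : ℕ) = j + 1 → sh T' c < sh T' j := by
        intro j hj
        have hjL : j < L := by have := c.2; omega
        have e1 := hsv c
        have e2 := hsv ⟨j, hjL⟩
        rw [Function.update_self] at e1
        rw [Function.update_of_ne (by intro h; have := congrArg Fin.val h; simp at this; omega)]
          at e2
        have e3 : x c ≤ x ⟨j, hjL⟩ := hx (by simp [Fin.le_def]; omega)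
        simp only at e2
        omega
      obtain ⟨a1, a2, a3, a4, a5⟩ := app_spec (k := c) (N := n) h1 hlt hk
      refine ⟨app T' c n, ?_, a5⟩
      rw [Finset.mem_filter]
      refine ⟨?_, a4⟩
      unfold tabsOf
      rw [Finset.mem_filter, mem_Tabs]
      refine ⟨⟨a1, ?_⟩, ?_, ?_⟩
      · refine a2.trans ((List.Perm.cons n h2).trans ?_)
        rw [List.range_succ]
        exact (List.perm_append_singleton _ _).symm
      · apply length_le_of_sh a1
        rw [a3, sh_of_le h3, if_neg (by have := c.2; omega)]
      · funext i
        unfold sv
        rw [a3, hsv]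
        by_cases hi : i = c
        · subst hi
          rw [Function.update_self, if_pos rfl]
          omega
        · rw [Function.update_of_ne hi, if_neg (fun h => hi (Fin.ext h))]; simp

end Pool.Agent.Work.MP_9eb367_co
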