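import Pool.Agent.Work.MP_9eb367_co.KField

open Finset PowerSeries

namespace Pool.Agent.Work.MP_9eb367_co

/-- Binary trees with marks: a leaf carries the number of position marks in its gap, a node the
number of value marks just below it. -/
inductive MT where
  | leaf (a : ℕ) : MT
  | node (L : MT) (b : ℕ) (R : MT) : MT
  deriving DecidableEq

namespace MT

def sz : MT → ℕ
  | leaf _ => 0
  | node L _ R => sz L + sz R + 1

def la : MT → ℕ
  | leaf a => a
  | node L _ R => la L + la R

def lb : MT → ℕ
  | leaf _ => 0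
  | node L b R => lb L + lb R + b

abbrev Cell := ℕ × ℕ

/-- Shift of a cell. -/
def sft (i j : ℕ) (c : Cell) : Cell := (i + c.1, j + c.2)

abbrev Ty := Finset Cell × Finset (Cell × Cell × Bool)

/-- Composition of types. -/
def comp (i1 j1 : ℕ) (q1 : Ty) (b j2 : ℕ) (q2 : Ty) : Ty :=
  (q1.1 ∪ {(i1, j1 + j2 + b)} ∪ q2.1.image (sft i1 j1),
   q1.2 ∪ q2.2.image (fun x => (sft i1 j1 x.1, sft i1 j1 x.2.1, x.2.2)) ∪
     q1.1.image (fun c => (c, (i1, j1 + j2 + b), true)) ∪
     (q1.1 ×ˢ q2.1).image (fun x => (x.1, sft i1 j1 x.2, true)) ∪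
     q2.1.image (fun c => ((i1, j1 + j2 + b), sft i1 j1 c, false)))

/-- The type of a marked tree. -/
def tp : MT → Ty
  | leaf _ => (∅, ∅)
  | node L b R => comp (la L) (lb L) (tp L) b (lb R) (tp R)

/-- Index set for the decomposition. -/
def idx (m i j : ℕ) : Finset ((ℕ × ℕ) × (ℕ × ℕ) × (ℕ × ℕ × ℕ)) :=
  antidiagonal m ×ˢ antidiagonal i ×ˢ
    ((antidiagonal j).biUnion (fun x => (antidiagonal x.1).image (fun y => (y.1, y.2, x.2))))

theorem mem_idx {m i j : ℕ} {x : (ℕ × ℕ) × (ℕ × ℕ) × (ℕ × ℕ × ℕ)} :
    x ∈ idx m i j ↔ x.1.1 + x.1.2 = m ∧ x.2.1.1 + x.2.1.2 = i ∧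
      x.2.2.1 + x.2.2.2.1 + x.2.2.2.2 = j := by
  obtain ⟨⟨m1, m2⟩, ⟨i1, i2⟩, j1, j2, b⟩ := x
  unfold idx
  simp only [mem_product, HasAntidiagonal.mem_antidiagonal, mem_biUnion, mem_image, Prod.mk.injEq, Prod.exists]
  constructor
  · rintro ⟨h1, h2, a, b', h3, c, d, h4, rfl, rfl, rfl⟩
    exact ⟨h1, h2, by omega⟩
  · rintro ⟨h1, h2, h3⟩
    exact ⟨h1, h2, j1 + j2, b, h3, j1, j2, rfl, rfl, rfl, rfl⟩

/-- Marked trees with given size and numbers of marks. -/
def trees : ℕ → ℕ → ℕ → Finset MT
  | 0, i, j => if j = 0 then {leaf i} else ∅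
  | m + 1, i, j => (idx m i j).attach.biUnion fun x =>
      ((trees x.1.1.1 x.1.2.1.1 x.1.2.2.1) ×ˢ (trees x.1.1.2 x.1.2.1.2 x.1.2.2.2.1)).image
        (fun y => node y.1 x.1.2.2.2.2 y.2)
  termination_by m => m
  decreasing_by
    · have := (mem_idx.1 x.2).1; omega
    · have := (mem_idx.1 x.2).1; omega

theorem mem_trees : ∀ {D : MT} {m i j : ℕ}, D ∈ trees m i j ↔ sz D = m ∧ la D = i ∧ lb D = j := by
  intro D
  induction D with
  | leaf a =>
    intro m i j
    cases m with
    | zero =>
      unfold trees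
      split_ifs with h
      · subst h; simp [sz, la, lb]
      · simp [sz, la, lb]; intro _ h'; exact h h'.symm
    | succ m =>
      unfold trees
      simp [sz]
  | node L b R ihL ihR =>
    intro m i j
    cases m with
    | zero =>
      unfold trees
      split_ifs with h
      · simp [sz]
      · simp [sz]
    | succ m =>
      unfold trees
      simp only [mem_biUnion, mem_attach, true_and, Subtype.exists, mem_image, mem_product,
        Prod.exists, node.injEq, sz, la, lb]
      constructor
      · rintro ⟨m1, m2, i1, i2, j1, j2, b', hx, L', R', ⟨hL, hR⟩, rfl, rfl, rfl⟩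
        rw [mem_idx] at hx
        obtain ⟨h1, h2, h3⟩ := hx
        simp only at h1 h2 h3
        obtain ⟨a1, a2, a3⟩ := ihL.1 hL
        obtain ⟨b1, b2, b3⟩ := ihR.1 hR
        omega
      · rintro ⟨h1, h2, h3⟩
        refine ⟨sz L, sz R, la L, la R, lb L, lb R, b, ?_, L, R, ⟨?_, ?_⟩, rfl, rfl, rfl⟩
        · rw [mem_idx]
          simp only
          omega
        · exact ihL.2 ⟨rfl, rfl, rfl⟩
        · exact ihR.2 ⟨rfl, rfl, rfl⟩

theorem sum_trees_succ {α : Type*} [AddCommMonoid α] (f : MT → α) (m i j : ℕ) :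
    ∑ D ∈ trees (m + 1) i j, f D = ∑ x ∈ idx m i j,
      ∑ L ∈ trees x.1.1 x.2.1.1 x.2.2.1, ∑ R ∈ trees x.1.2 x.2.1.2 x.2.2.2.1,
        f (node L x.2.2.2.2 R) := by
  have h : trees (m + 1) i j = (idx m i j).biUnion fun x =>
      ((trees x.1.1 x.2.1.1 x.2.2.1) ×ˢ (trees x.1.2 x.2.1.2 x.2.2.2.1)).image
        (fun y => node y.1 x.2.2.2.2 y.2) := by
    rw [trees]
    ext D
    simp only [mem_biUnion, mem_attach, true_and, Subtype.exists]
    constructor
    · rintro ⟨x, hx, h⟩; exact ⟨x, hx, h⟩
    · rintro ⟨x, hx, h⟩; exact ⟨x, hx, h⟩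
  rw [h, Finset.sum_biUnion]
  · refine Finset.sum_congr rfl fun x hx => ?_
    rw [Finset.sum_image, Finset.sum_product]
    intro a _ b _ hab
    simp only [node.injEq] at hab
    exact Prod.ext hab.1 hab.2.2
  · intro x hx y hy hxy
    rw [Function.onFun, Finset.disjoint_left]
    intro D hD hD'
    rw [mem_image] at hD hD'
    obtain ⟨⟨L, R⟩, hLR, rfl⟩ := hD
    obtain ⟨⟨L', R'⟩, hLR', he⟩ := hD'
    simp only [node.injEq] at he
    obtain ⟨rfl, hb, rfl⟩ := he
    rw [mem_product, mem_trees, mem_trees] at hLR hLR'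
    apply hxy
    obtain ⟨⟨m1, m2⟩, ⟨i1, i2⟩, j1, j2, b⟩ := x
    obtain ⟨⟨m1', m2'⟩, ⟨i1', i2'⟩, j1', j2', b'⟩ := y
    simp only at hLR hLR' hb
    obtain ⟨⟨a1, a2, a3⟩, a4, a5, a6⟩ := hLR
    obtain ⟨⟨c1, c2, c3⟩, c4, c5, c6⟩ := hLR'
    simp only [Prod.mk.injEq]
    omega

/-- Finite set containing all types of trees with `i` and `j` marks. -/
def TT (i j : ℕ) : Finset Ty :=
  (range (i + 1) ×ˢ range (j + 1)).powerset ×ˢ
    ((range (i + 1) ×ˢ range (j + 1)) ×ˢ (range (i + 1) ×ˢ range (j + 1)) ×ˢ
      (univ : Finset Bool)).powerset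

theorem tp_mem (D : MT) : tp D ∈ TT (la D) (lb D) := by
  induction D with
  | leaf a => simp [tp, TT]
  | node L b R ihL ihR =>
    unfold TT at ihL ihR ⊢
    rw [mem_product, mem_powerset, mem_powerset] at ihL ihR ⊢
    unfold tp comp
    simp only [la, lb]
    refine ⟨?_, ?_⟩
    · intro c hc
      simp only [mem_union, mem_singleton, mem_image] at hc
      rw [mem_product, mem_range, mem_range]
      rcases hc with (hc | rfl) | ⟨c', hc', rfl⟩
      · have := ihL.1 hc
        rw [mem_product, mem_range, mem_range] at this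
        omega
      · simp only; omega
      · have := ihR.1 hc'
        rw [mem_product, mem_range, mem_range] at this
        simp only [sft]; omega
    · intro x hx
      simp only [mem_union, mem_image, mem_product] at hx
      rw [mem_product, mem_product, mem_product, mem_product]
      simp only [mem_range, mem_univ, and_true]
      rcases hx with (((hx | ⟨y, hy, rfl⟩) | ⟨c, hc, rfl⟩) | ⟨y, ⟨hy1, hy2⟩, rfl⟩) | ⟨c, hc, rfl⟩
      · have := ihL.2 hx
        simp only [mem_product, mem_range] at this
        omega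
      · have := ihR.2 hy
        simp only [mem_product, mem_range] at this
        simp only [sft]; omega
      · have := ihL.1 hc
        simp only [mem_product, mem_range] at this
        simp only; omega
      · have h1 := ihL.1 hy1
        have h2 := ihR.1 hy2
        simp only [mem_product, mem_range] at h1 h2
        simp only [sft]; omega
      · have h2 := ihR.1 hc
        simp only [mem_product, mem_range] at h2
        simp only [sft]; omega

/-- Number of trees of a given type. -/
def cnum (m i j : ℕ) (q : Ty) : ℕ := ((trees m i j).filter (fun D => tp D = q)).card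

/-- Generating function of trees of a given type. -/
noncomputable def GF (i j : ℕ) (q : Ty) : PowerSeries ℚ :=
  PowerSeries.mk fun m => (cnum m i j q : ℚ)

/-- Index set for the mark split. -/
def idx2 (i j : ℕ) : Finset ((ℕ × ℕ) × (ℕ × ℕ × ℕ)) :=
  antidiagonal i ×ˢ
    ((antidiagonal j).biUnion (fun x => (antidiagonal x.1).image (fun y => (y.1, y.2, x.2))))

theorem mem_idx2 {i j : ℕ} {x : (ℕ × ℕ) × (ℕ × ℕ × ℕ)} :
    x ∈ idx2 i j ↔ x.1.1 + x.1.2 = i ∧ x.2.1 + x.2.2.1 + x.2.2.2 = j := by
  obtain ⟨⟨i1, i2⟩, j1, j2, b⟩ := x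
  unfold idx2
  simp only [mem_product, HasAntidiagonal.mem_antidiagonal, mem_biUnion, mem_image, Prod.mk.injEq, Prod.exists]
  constructor
  · rintro ⟨h2, a, b', h3, c, d, h4, rfl, rfl, rfl⟩
    exact ⟨h2, by omega⟩
  · rintro ⟨h2, h3⟩
    exact ⟨h2, j1 + j2, b, h3, j1, j2, rfl, rfl, rfl, rfl⟩

theorem cnum_zero (i j : ℕ) (q : Ty) :
    (cnum 0 i j q : ℚ) = if j = 0 ∧ q = (∅, ∅) then 1 else 0 := by
  unfold cnum
  rw [trees]
  by_cases hj : j = 0
  · rw [if_pos hj, Finset.filter_singleton]
    by_cases hq : q = (∅, ∅)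
    · simp [tp, hj, hq]
    · have : ¬ (tp (leaf i) = q) := fun h => hq (by rw [← h]; rfl)
      simp [this, hq]
  · simp [hj]

theorem cnum_succ (m i j : ℕ) (q : Ty) :
    (cnum (m + 1) i j q : ℚ) = ∑ y ∈ idx2 i j, ∑ q1 ∈ TT y.1.1 y.2.1, ∑ q2 ∈ TT y.1.2 y.2.2.1,
      (if comp y.1.1 y.2.1 q1 y.2.2.2 y.2.2.1 q2 = q then (1 : ℚ) else 0) *
        ∑ x ∈ antidiagonal m, (cnum x.1 y.1.1 y.2.1 q1 : ℚ) * (cnum x.2 y.1.2 y.2.2.1 q2 : ℚ) := by
  unfold cnum
  rw [Finset.card_filter]
  push_cast
  rw [sum_trees_succ]
  have hprod : idx m i j = antidiagonal m ×ˢ idx2 i j := rfl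
  rw [hprod, Finset.sum_product, Finset.sum_comm]
  refine Finset.sum_congr rfl fun y hy => ?_
  have key : ∀ x ∈ antidiagonal m,
      ∑ L ∈ trees x.1 y.1.1 y.2.1, ∑ R ∈ trees x.2 y.1.2 y.2.2.1,
        (if tp (node L y.2.2.2 R) = q then (1 : ℚ) else 0) =
      ∑ q1 ∈ TT y.1.1 y.2.1, ∑ q2 ∈ TT y.1.2 y.2.2.1,
      (if comp y.1.1 y.2.1 q1 y.2.2.2 y.2.2.1 q2 = q then (1 : ℚ) else 0) *
        ((((trees x.1 y.1.1 y.2.1).filter (fun D => tp D = q1)).card : ℚ) *
          (((trees x.2 y.1.2 y.2.2.1).filter (fun D => tp D = q2)).card : ℚ)) := by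
    intro x _
    have h1 : ∀ L ∈ trees x.1 y.1.1 y.2.1, tp L ∈ TT y.1.1 y.2.1 := by
      intro L hL
      obtain ⟨_, h2, h3⟩ := mem_trees.1 hL
      rw [← h2, ← h3]; exact tp_mem L
    have h2 : ∀ R ∈ trees x.2 y.1.2 y.2.2.1, tp R ∈ TT y.1.2 y.2.2.1 := by
      intro R hR
      obtain ⟨_, h2, h3⟩ := mem_trees.1 hR
      rw [← h2, ← h3]; exact tp_mem R
    rw [← Finset.sum_fiberwise_of_maps_to h1]
    refine Finset.sum_congr rfl fun q1 _ => ?_
    have h3 : ∀ L ∈ (trees x.1 y.1.1 y.2.1).filter (fun D => tp D = q1),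
        ∑ R ∈ trees x.2 y.1.2 y.2.2.1, (if tp (node L y.2.2.2 R) = q then (1 : ℚ) else 0) =
        ∑ q2 ∈ TT y.1.2 y.2.2.1,
          (if comp y.1.1 y.2.1 q1 y.2.2.2 y.2.2.1 q2 = q then (1 : ℚ) else 0) *
          (((trees x.2 y.1.2 y.2.2.1).filter (fun D => tp D = q2)).card : ℚ) := by
      intro L hL
      rw [mem_filter, mem_trees] at hL
      obtain ⟨⟨_, l2, l3⟩, l4⟩ := hL
      rw [← Finset.sum_fiberwise_of_maps_to h2]
      refine Finset.sum_congr rfl fun q2 _ => ?_
      rw [Finset.sum_congr rfl (g := fun _ =>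
        (if comp y.1.1 y.2.1 q1 y.2.2.2 y.2.2.1 q2 = q then (1 : ℚ) else 0))]
      · rw [Finset.sum_const, nsmul_eq_mul, mul_comm]
      · intro R hR
        rw [mem_filter, mem_trees] at hR
        obtain ⟨⟨_, r2, r3⟩, r4⟩ := hR
        unfold tp
        rw [l2, l3, l4, r3, r4]
    rw [Finset.sum_congr rfl h3, Finset.sum_const, nsmul_eq_mul, Finset.mul_sum]
    refine Finset.sum_congr rfl fun q2 _ => ?_
    ring
  rw [Finset.sum_congr rfl key, Finset.sum_comm]
  refine Finset.sum_congr rfl fun q1 _ => ?_
  rw [Finset.sum_comm]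
  refine Finset.sum_congr rfl fun q2 _ => ?_
  rw [← Finset.mul_sum]

theorem GF_rec (i j : ℕ) (q : Ty) :
    GF i j q = PowerSeries.C (if j = 0 ∧ q = (∅, ∅) then (1 : ℚ) else 0) +
      X * ∑ y ∈ idx2 i j, ∑ q1 ∈ TT y.1.1 y.2.1, ∑ q2 ∈ TT y.1.2 y.2.2.1,
      PowerSeries.C (if comp y.1.1 y.2.1 q1 y.2.2.2 y.2.2.1 q2 = q then (1 : ℚ) else 0) *
        (GF y.1.1 y.2.1 q1 * GF y.1.2 y.2.2.1 q2) := by
  ext m
  cases m with
  | zero => simp [GF, cnum_zero]
  | succ m =>
    rw [map_add, PowerSeries.coeff_succ_X_mul, PowerSeries.coeff_C, if_neg (by omega), zero_add]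
    simp only [map_sum, PowerSeries.coeff_C_mul]
    simp only [PowerSeries.coeff_mul]
    unfold GF
    simp only [PowerSeries.coeff_mk]
    exact cnum_succ m i j q

/-! ### Trees without marks -/

/-- right chain -/
def rc : ℕ → MT
  | 0 => leaf 0
  | m + 1 => node (leaf 0) 0 (rc m)

/-- left chain -/
def lc : ℕ → MT
  | 0 => leaf 0
  | m + 1 => node (lc m) 0 (leaf 0)

theorem rc_mem (m : ℕ) : rc m ∈ trees m 0 0 := by
  rw [mem_trees]
  induction m with
  | zero => simp [rc, sz, la, lb]
  | succ m ih => simp [rc, sz, la, lb, ih.1, ih.2.1, ih.2.2]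

theorem lc_mem (m : ℕ) : lc m ∈ trees m 0 0 := by
  rw [mem_trees]
  induction m with
  | zero => simp [lc, sz, la, lb]
  | succ m ih => simp [lc, sz, la, lb, ih.1, ih.2.1, ih.2.2]

theorem sft_zero (c : Cell) : sft 0 0 c = c := by simp [sft]

/-- Facts about trees without marks. -/
theorem tp_zero : ∀ {D : MT} {m : ℕ}, D ∈ trees m 0 0 →
    (tp D).1 = (if m = 0 then ∅ else {(0, 0)}) ∧
    (((0, 0), (0, 0), true) ∉ (tp D).2 ↔ D = rc m) ∧
    (((0, 0), (0, 0), false) ∉ (tp D).2 ↔ D = lc m) := by
  intro D
  induction D with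
  | leaf a =>
    intro m h
    rw [mem_trees] at h
    simp only [sz, la, lb] at h
    obtain ⟨rfl, rfl, _⟩ := h
    simp [tp, rc, lc]
  | node L b R ihL ihR =>
    intro m h
    rw [mem_trees] at h
    simp only [sz, la, lb] at h
    obtain ⟨h1, h2, h3⟩ := h
    have hb : b = 0 := by omega
    subst hb
    have hL : L ∈ trees (sz L) 0 0 := by rw [mem_trees]; omega
    have hR : R ∈ trees (sz R) 0 0 := by rw [mem_trees]; omega
    obtain ⟨l1, l2, l3⟩ := ihL hL
    obtain ⟨r1, r2, r3⟩ := ihR hR
    have e1 : la L = 0 := by omega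
    have e2 : lb L = 0 := by omega
    have e3 : lb R = 0 := by omega
    obtain ⟨k, rfl⟩ : ∃ k, m = k + 1 := ⟨sz L + sz R, by omega⟩
    have hL0 : sz L = 0 ↔ L = leaf 0 := by
      constructor
      · intro h
        rw [h] at hL
        rw [trees] at hL
        simpa using hL
      · rintro rfl; rfl
    have hR0 : sz R = 0 ↔ R = leaf 0 := by
      constructor
      · intro h
        rw [h] at hR
        rw [trees] at hR
        simpa using hR
      · rintro rfl; rfl
    refine ⟨?_, ?_, ?_⟩
    · unfold tp comp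
      simp only [e1, e2, e3, l1, r1]
      rw [if_neg (Nat.succ_ne_zero k)]
      ext c
      simp only [mem_union, mem_singleton, mem_image, sft_zero]
      constructor
      · rintro ((h | h) | ⟨c', h, rfl⟩)
        · split_ifs at h <;> simp_all
        · exact h
        · split_ifs at h <;> simp_all
      · intro h; exact Or.inl (Or.inr h)
    · unfold tp comp
      simp only [e1, e2, e3, l1, r1, rc, node.injEq, true_and]
      simp only [mem_union, mem_image, mem_product, sft_zero, Prod.mk.injEq, not_or, not_exists,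
        not_and]
      constructor
      · rintro ⟨⟨⟨⟨g1, g2⟩, g3⟩, g4⟩, g5⟩
        have hLe : L = leaf 0 := by
          rw [← hL0]
          by_contra hne
          rw [if_neg hne] at g3
          have := g3 (0, 0) (by simp)
          simp at this
        have hRe : R = rc (sz R) := r2.1 (by
          intro hmem
          exact g2 _ hmem rfl rfl rfl)
        refine ⟨hLe, ?_⟩
        rw [hRe]
        congr 1
        have : sz L = 0 := hL0.2 hLe
        omega
      · rintro ⟨rfl, hRe⟩
        have hk : sz R = k := by simp only [sz] at h1; omega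
        refine ⟨⟨⟨⟨by simp [tp], ?_⟩, by simp [sz]⟩, by simp [sz]⟩, ?_⟩
        · rintro ⟨a, b, β⟩ hx ha hb' hβ
          simp only at ha hb' hβ
          subst hβ
          rw [ha, hb'] at hx
          exact (r2.2 (by rw [hk]; exact hRe)) hx
        · intro c _ _ _ h; exact absurd h (by simp)
    · unfold tp comp
      simp only [e1, e2, e3, l1, r1, lc, node.injEq, true_and]
      simp only [mem_union, mem_image, mem_product, sft_zero, Prod.mk.injEq, not_or, not_exists,
        not_and]
      constructor
      · rintro ⟨⟨⟨⟨g1, g2⟩, g3⟩, g4⟩, g5⟩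
        have hRe : R = leaf 0 := by
          rw [← hR0]
          by_contra hne
          rw [if_neg hne] at g5
          have := g5 (0, 0) (by simp)
          simp at this
        have hLe : L = lc (sz L) := l3.1 g1
        refine ⟨?_, hRe⟩
        rw [hLe]
        congr 1
        have : sz R = 0 := hR0.2 hRe
        omega
      · rintro ⟨hLe, rfl⟩
        have hk : sz L = k := by simp only [sz] at h1; omega
        refine ⟨⟨⟨⟨l3.2 (by rw [hk]; exact hLe), by simp [tp]⟩, ?_⟩, by simp [sz]⟩, by simp [sz]⟩
        intro c _ _ _ h; exact absurd h (by simp)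

theorem rc_ne_lc {m : ℕ} (hm : 2 ≤ m) : rc m ≠ lc m := by
  obtain ⟨k, rfl⟩ : ∃ k, m = k + 2 := ⟨m - 2, by omega⟩
  simp [rc, lc]

theorem card_trees_zero (m : ℕ) : (trees m 0 0).card = catalan m := by
  induction m using Nat.strong_induction_on with
  | _ m ih =>
    cases m with
    | zero => rw [trees]; simp
    | succ m =>
      rw [Finset.card_eq_sum_ones, sum_trees_succ, catalan_succ']
      have h : idx m 0 0 = (antidiagonal m).image (fun x => (x, (0, 0), (0, 0, 0))) := by
        ext x
        rw [mem_idx, mem_image]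
        obtain ⟨⟨m1, m2⟩, ⟨i1, i2⟩, j1, j2, b⟩ := x
        simp only [Prod.mk.injEq, HasAntidiagonal.mem_antidiagonal, Prod.exists]
        constructor
        · rintro ⟨h1, h2, h3⟩
          exact ⟨m1, m2, h1, ⟨rfl, rfl⟩, ⟨by omega, by omega⟩, by omega, by omega, by omega⟩
        · rintro ⟨a, b', h1, ⟨rfl, rfl⟩, ⟨rfl, rfl⟩, rfl, rfl, rfl⟩
          exact ⟨h1, rfl, rfl⟩
      rw [h, Finset.sum_image (fun a _ b _ h => (Prod.mk.inj h).1)]
      refine Finset.sum_congr rfl fun x hx => ?_
      rw [HasAntidiagonal.mem_antidiagonal] at hx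
      simp only [Finset.sum_const, smul_eq_mul, mul_one]
      rw [ih x.1 (by omega), ih x.2 (by omega)]

theorem tp_zero_sub {D : MT} {m : ℕ} (h : D ∈ trees m 0 0) :
    (tp D).2 ⊆ {((0, 0), (0, 0), true), ((0, 0), (0, 0), false)} := by
  have h1 := tp_mem D
  rw [mem_trees] at h
  rw [h.2.1, h.2.2] at h1
  unfold TT at h1
  rw [mem_product, mem_powerset, mem_powerset] at h1
  intro x hx
  have h2 := h1.2 hx
  obtain ⟨⟨a, b⟩, ⟨c, d⟩, β⟩ := x
  simp only [mem_product, mem_range, mem_univ, and_true] at h2
  obtain ⟨⟨ha, hb⟩, hc, hd⟩ := h2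
  have : a = 0 := by omega
  have : b = 0 := by omega
  have : c = 0 := by omega
  have : d = 0 := by omega
  subst_vars
  cases β <;> simp

theorem GF_InK_zero (q : Ty) : InK (GF 0 0 q) := by
  unfold GF
  change SeqK (fun m => (cnum m 0 0 q : ℚ))
  obtain ⟨q1, q2⟩ := q
  -- general facts for m ≥ 2
  have htrees : ∀ m, 2 ≤ m → ∀ D ∈ trees m 0 0, (tp D).1 = {(0, 0)} := by
    intro m hm D hD
    have := (tp_zero hD).1
    rwa [if_neg (by omega)] at this
  by_cases hq1 : q1 = {(0, 0)}
  swap
  · refine SeqK.of_eventually 2 (fun m hm => ?_) SeqK.zero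
    unfold cnum
    rw [Finset.filter_false_of_mem]
    · simp
    · intro D hD h
      apply hq1
      rw [← htrees m hm D hD, h]
  subst hq1
  by_cases hT : ((0, 0), (0, 0), true) ∈ q2
  · by_cases hF : ((0, 0), (0, 0), false) ∈ q2
    · by_cases hsub : q2 ⊆ {((0, 0), (0, 0), true), ((0, 0), (0, 0), false)}
      · -- full type
        refine SeqK.of_eventually 2 (fun m hm => ?_) (SeqK.catalanNum.sub (SeqK.const 2))
        have h1 : (trees m 0 0).filter (fun D => tp D = ({(0, 0)}, q2)) =
            (trees m 0 0) \ {rc m, lc m} := by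
          ext D
          rw [mem_filter, mem_sdiff, mem_insert, mem_singleton]
          constructor
          · rintro ⟨hD, htp⟩
            obtain ⟨_, z2, z3⟩ := tp_zero hD
            refine ⟨hD, ?_⟩
            rintro (h | h)
            · exact z2.2 h (by rw [htp]; exact hT)
            · exact z3.2 h (by rw [htp]; exact hF)
          · rintro ⟨hD, hne⟩
            obtain ⟨_, z2, z3⟩ := tp_zero hD
            refine ⟨hD, ?_⟩
            have hsubD := tp_zero_sub hD
            have g1 : ((0, 0), (0, 0), true) ∈ (tp D).2 := by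
              by_contra hc; exact hne (Or.inl (z2.1 hc))
            have g2 : ((0, 0), (0, 0), false) ∈ (tp D).2 := by
              by_contra hc; exact hne (Or.inr (z3.1 hc))
            apply Prod.ext
            · exact htrees m hm D hD
            · apply Finset.Subset.antisymm
              · intro x hx
                have := hsubD hx
                rw [mem_insert, mem_singleton] at this
                rcases this with rfl | rfl
                · exact hT
                · exact hF
              · intro x hx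
                have := hsub hx
                rw [mem_insert, mem_singleton] at this
                rcases this with rfl | rfl
                · exact g1
                · exact g2
        unfold cnum
        rw [h1, Finset.card_sdiff_of_subset, card_trees_zero, Finset.card_pair (rc_ne_lc hm)]
        · rw [Nat.cast_sub]
          · push_cast; ring
          · rw [← card_trees_zero, ← Finset.card_pair (rc_ne_lc hm)]
            apply Finset.card_le_card
            intro x hx
            rw [mem_insert, mem_singleton] at hx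
            rcases hx with rfl | rfl
            · exact rc_mem m
            · exact lc_mem m
        · intro x hx
          rw [mem_insert, mem_singleton] at hx
          rcases hx with rfl | rfl
          · exact rc_mem m
          · exact lc_mem m
      · refine SeqK.of_eventually 2 (fun m hm => ?_) SeqK.zero
        unfold cnum
        rw [Finset.filter_false_of_mem]
        · simp
        · intro D hD h
          apply hsub
          have := tp_zero_sub hD
          rwa [h] at this
    · -- only true: left chains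
      by_cases hsub : q2 = {((0, 0), (0, 0), true)}
      · refine SeqK.of_eventually 2 (fun m hm => ?_) (SeqK.const 1)
        have h1 : (trees m 0 0).filter (fun D => tp D = ({(0, 0)}, q2)) = {lc m} := by
          ext D
          rw [mem_filter, mem_singleton]
          constructor
          · rintro ⟨hD, htp⟩
            exact (tp_zero hD).2.2.1 (by rw [htp]; exact hF)
          · rintro rfl
            refine ⟨lc_mem m, ?_⟩
            obtain ⟨_, z2, z3⟩ := tp_zero (lc_mem m)
            have g1 : ((0, 0), (0, 0), true) ∈ (tp (lc m)).2 := by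
              by_contra hc; exact rc_ne_lc hm (z2.1 hc).symm
            have g2 := z3.2 rfl
            have hsubD := tp_zero_sub (lc_mem m)
            apply Prod.ext
            · exact htrees m hm _ (lc_mem m)
            · rw [hsub]
              apply Finset.Subset.antisymm
              · intro x hx
                have := hsubD hx
                rw [mem_insert, mem_singleton] at this
                rcases this with rfl | rfl
                · simp
                · exact absurd hx g2
              · intro x hx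
                rw [mem_singleton] at hx
                rw [hx]; exact g1
        unfold cnum
        rw [h1]; simp
      · refine SeqK.of_eventually 2 (fun m hm => ?_) SeqK.zero
        unfold cnum
        rw [Finset.filter_false_of_mem]
        · simp
        · intro D hD h
          apply hsub
          have h2 := tp_zero_sub hD
          rw [h] at h2
          apply Finset.Subset.antisymm
          · intro x hx
            have := h2 hx
            rw [mem_insert, mem_singleton] at this
            rcases this with rfl | rfl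
            · simp
            · exact absurd hx hF
          · intro x hx
            rw [mem_singleton] at hx
            rw [hx]; exact hT
  · by_cases hsub : q2 = {((0, 0), (0, 0), false)}
    · refine SeqK.of_eventually 2 (fun m hm => ?_) (SeqK.const 1)
      have h1 : (trees m 0 0).filter (fun D => tp D = ({(0, 0)}, q2)) = {rc m} := by
        ext D
        rw [mem_filter, mem_singleton]
        constructor
        · rintro ⟨hD, htp⟩
          exact (tp_zero hD).2.1.1 (by rw [htp]; exact hT)
        · rintro rfl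
          refine ⟨rc_mem m, ?_⟩
          obtain ⟨_, z2, z3⟩ := tp_zero (rc_mem m)
          have g1 : ((0, 0), (0, 0), false) ∈ (tp (rc m)).2 := by
            by_contra hc; exact rc_ne_lc hm (z3.1 hc)
          have g2 := z2.2 rfl
          have hsubD := tp_zero_sub (rc_mem m)
          apply Prod.ext
          · exact htrees m hm _ (rc_mem m)
          · rw [hsub]
            apply Finset.Subset.antisymm
            · intro x hx
              have := hsubD hx
              rw [mem_insert, mem_singleton] at this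
              rcases this with rfl | rfl
              · exact absurd hx g2
              · simp
            · intro x hx
              rw [mem_singleton] at hx
              rw [hx]; exact g1
      unfold cnum
      rw [h1]; simp
    · refine SeqK.of_eventually 2 (fun m hm => ?_) SeqK.zero
      unfold cnum
      rw [Finset.filter_false_of_mem]
      · simp
      · intro D hD h
        obtain ⟨_, z2, z3⟩ := tp_zero hD
        have g2 : D = rc m := z2.1 (by rw [h]; exact hT)
        have g1 : ((0, 0), (0, 0), false) ∈ (tp D).2 := by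
          by_contra hc; exact rc_ne_lc hm (by rw [← g2]; exact z3.1 hc)
        apply hsub
        have h2 := tp_zero_sub hD
        rw [h] at h2 g1
        apply Finset.Subset.antisymm
        · intro x hx
          have := h2 hx
          rw [mem_insert, mem_singleton] at this
          rcases this with rfl | rfl
          · exact absurd hx hT
          · simp
        · intro x hx
          rw [mem_singleton] at hx
          rw [hx]; exact g1

theorem GF_InK (n : ℕ) : ∀ i j, i + j = n → ∀ q, InK (GF i j q) := by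
  induction n using Nat.strong_induction_on with
  | _ n ih =>
    intro i j hij q
    rcases Nat.eq_zero_or_pos n with h0 | hpos
    · have : i = 0 := by omega
      have : j = 0 := by omega
      subst_vars
      exact GF_InK_zero q
    by_cases hq : q ∈ TT i j
    swap
    · have : GF i j q = 0 := by
        ext m
        unfold GF cnum
        rw [PowerSeries.coeff_mk, Finset.filter_false_of_mem]
        · simp
        · intro D hD h
          rw [mem_trees] at hD
          apply hq
          rw [← h, ← hD.2.1, ← hD.2.2]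
          exact tp_mem D
      rw [this]; exact InK.zero
    set ya : (ℕ × ℕ) × (ℕ × ℕ × ℕ) := ((i, 0), (j, 0, 0)) with hya
    set yb : (ℕ × ℕ) × (ℕ × ℕ × ℕ) := ((0, i), (0, j, 0)) with hyb
    have hab : ya ≠ yb := by
      rw [hya, hyb]
      intro h
      simp only [Prod.mk.injEq] at h
      omega
    have hyam : ya ∈ idx2 i j := by rw [mem_idx2]; simp [hya]
    have hybm : yb ∈ (idx2 i j).erase ya := by
      rw [mem_erase, mem_idx2]; exact ⟨hab.symm, by simp [hyb]⟩
    let M : TT i j → TT i j → PowerSeries ℚ := fun q q' =>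
      (∑ q2 ∈ TT 0 0, PowerSeries.C (if comp i j q'.1 0 0 q2 = q.1 then (1 : ℚ) else 0) *
        GF 0 0 q2) +
      (∑ q1 ∈ TT 0 0, PowerSeries.C (if comp 0 0 q1 0 j q'.1 = q.1 then (1 : ℚ) else 0) *
        GF 0 0 q1)
    let b : TT i j → PowerSeries ℚ := fun q =>
      PowerSeries.C (if j = 0 ∧ q.1 = (∅, ∅) then (1 : ℚ) else 0) +
      X * ∑ y ∈ ((idx2 i j).erase ya).erase yb, ∑ q1 ∈ TT y.1.1 y.2.1, ∑ q2 ∈ TT y.1.2 y.2.2.1,
      PowerSeries.C (if comp y.1.1 y.2.1 q1 y.2.2.2 y.2.2.1 q2 = q.1 then (1 : ℚ) else 0) *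
        (GF y.1.1 y.2.1 q1 * GF y.1.2 y.2.2.1 q2)
    refine linear_system M b (fun q => GF i j q.1) ?_ ?_ ?_ ⟨q, hq⟩
    · intro q q'
      refine InK.add ?_ ?_
      · exact InK.sum _ _ fun q2 _ => (InK.const _).mul (GF_InK_zero q2)
      · exact InK.sum _ _ fun q2 _ => (InK.const _).mul (GF_InK_zero q2)
    · intro q
      refine (InK.const _).add (InK.varX.mul ?_)
      refine InK.sum _ _ fun y hy => InK.sum _ _ fun q1 _ => InK.sum _ _ fun q2 _ => ?_
      rw [mem_erase, mem_erase, mem_idx2] at hy
      obtain ⟨n1, n2, n3, n4⟩ := hy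
      obtain ⟨⟨i1, i2⟩, j1, j2, b'⟩ := y
      simp only [hya, hyb, ne_eq, Prod.mk.injEq] at n1 n2 n3 n4 ⊢
      refine (InK.const _).mul ((ih (i1 + j1) (by omega) i1 j1 rfl q1).mul
        (ih (i2 + j2) (by omega) i2 j2 rfl q2))
    · rintro ⟨q, hq⟩
      have h1 := GF_rec i j q
      rw [← Finset.add_sum_erase _ _ hyam, ← Finset.add_sum_erase _ _ hybm] at h1
      rw [h1]
      have hcs : ∑ q' : TT i j, M ⟨q, hq⟩ q' * GF i j q'.1 =
          ∑ q' ∈ TT i j, ((∑ q2 ∈ TT 0 0, PowerSeries.C
            (if comp i j q' 0 0 q2 = q then (1 : ℚ) else 0) * GF 0 0 q2) +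
          (∑ q1 ∈ TT 0 0, PowerSeries.C (if comp 0 0 q1 0 j q' = q then (1 : ℚ) else 0) *
            GF 0 0 q1)) * GF i j q' := by
        rw [← Finset.sum_coe_sort (TT i j)]
      rw [hcs]
      simp only [add_mul, Finset.sum_add_distrib, Finset.sum_mul]
      have e1 : ∑ q1 ∈ TT ya.1.1 ya.2.1, ∑ q2 ∈ TT ya.1.2 ya.2.2.1,
          PowerSeries.C (if comp ya.1.1 ya.2.1 q1 ya.2.2.2 ya.2.2.1 q2 = q then (1 : ℚ) else 0) *
          (GF ya.1.1 ya.2.1 q1 * GF ya.1.2 ya.2.2.1 q2) =
          ∑ q' ∈ TT i j, ∑ q2 ∈ TT 0 0, PowerSeries.C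
            (if comp i j q' 0 0 q2 = q then (1 : ℚ) else 0) * GF 0 0 q2 * GF i j q' := by
        refine Finset.sum_congr rfl fun q' _ => Finset.sum_congr rfl fun q2 _ => ?_
        simp only [hya]
        ring
      have e2 : ∑ q1 ∈ TT yb.1.1 yb.2.1, ∑ q2 ∈ TT yb.1.2 yb.2.2.1,
          PowerSeries.C (if comp yb.1.1 yb.2.1 q1 yb.2.2.2 yb.2.2.1 q2 = q then (1 : ℚ) else 0) *
          (GF yb.1.1 yb.2.1 q1 * GF yb.1.2 yb.2.2.1 q2) =
          ∑ q' ∈ TT i j, ∑ q1 ∈ TT 0 0, PowerSeries.C
            (if comp 0 0 q1 0 j q' = q then (1 : ℚ) else 0) * GF 0 0 q1 * GF i j q' := by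
        rw [Finset.sum_comm]
        refine Finset.sum_congr rfl fun q' _ => Finset.sum_congr rfl fun q2 _ => ?_
        simp only [hyb]
        ring
      rw [e1, e2]
      simp only [b]
      ring

end MT

end Pool.Agent.Work.MP_9eb367_co
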